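import Mathlib

/-!
Chebyshev type recursion `s_0 = 0, s_1 = 1, s_{n+2} = 2 c s_{n+1} - s_n`.
-/

set_option autoImplicit false

namespace Pool.Agent.H99

/-- `s_0 = 0, s_1 = 1, s_{n+2} = 2 c s_{n+1} - s_n`. -/
def sch {R : Type*} [CommRing R] (c : R) : ℕ → R
  | 0 => 0
  | 1 => 1
  | (n + 2) => 2 * c * sch c (n + 1) - sch c n

section ring
variable {R : Type*} [CommRing R]

@[simp] lemma sch_zero (c : R) : sch c 0 = 0 := rfl
@[simp] lemma sch_one (c : R) : sch c 1 = 1 := rfl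
lemma sch_succ_succ (c : R) (n : ℕ) : sch c (n + 2) = 2 * c * sch c (n + 1) - sch c n := rfl

lemma sch_quad (c : R) (n : ℕ) :
    sch c (n + 1) ^ 2 - 2 * c * sch c (n + 1) * sch c n + sch c n ^ 2 = 1 := by
  induction n with
  | zero => simp
  | succ n ih =>
    rw [sch_succ_succ]
    linear_combination ih

lemma sch_eval (p : Polynomial ℝ) (x : ℝ) (n : ℕ) :
    (sch p n).eval x = sch (p.eval x) n := by
  induction n using Nat.twoStepInduction with
  | zero => simp
  | one => simp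
  | more n ih1 ih2 =>
    rw [sch_succ_succ, sch_succ_succ, Polynomial.eval_sub, Polynomial.eval_mul, ih1, ih2,
      Polynomial.eval_mul]
    simp

end ring

lemma sch_diff {c : ℝ} (hc : 1 ≤ c) (n : ℕ) :
    (n : ℝ) ≤ sch c n ∧ 1 ≤ sch c (n + 1) - sch c n := by
  induction n with
  | zero => simp
  | succ n ih =>
    obtain ⟨h1, h2⟩ := ih
    have hn : (0 : ℝ) ≤ n := Nat.cast_nonneg n
    refine ⟨by push_cast; linarith, ?_⟩
    rw [sch_succ_succ]
    have h3 : 0 ≤ sch c (n + 1) := by linarith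
    nlinarith

lemma sch_ge {c : ℝ} (hc : 1 ≤ c) (n : ℕ) : (n : ℝ) ≤ sch c n := (sch_diff hc n).1

lemma sch_nonneg {c : ℝ} (hc : 1 ≤ c) (n : ℕ) : 0 ≤ sch c n :=
  le_trans (Nat.cast_nonneg n) (sch_ge hc n)

lemma sch_lt_succ {c : ℝ} (hc : 1 ≤ c) (n : ℕ) : sch c n < sch c (n + 1) := by
  linarith [(sch_diff hc n).2]

lemma sch_pos {c : ℝ} (hc : 1 ≤ c) {n : ℕ} (hn : 0 < n) : 0 < sch c n := by
  have h1 := sch_ge hc n
  have h2 : (0 : ℝ) < n := by exact_mod_cast hn
  linarith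

lemma sch_one_le {c : ℝ} (hc : 1 ≤ c) {n : ℕ} (hn : 0 < n) : 1 ≤ sch c n := by
  have h1 := sch_ge hc n
  have h2 : (1 : ℝ) ≤ n := by exact_mod_cast hn
  linarith

/-- partial sums -/
lemma sch_sum (c : ℝ) (n : ℕ) :
    (2 * c - 2) * ∑ m ∈ Finset.range (n + 1), sch c m = sch c (n + 1) - sch c n - 1 := by
  induction n with
  | zero => simp
  | succ n ih =>
    rw [Finset.sum_range_succ, mul_add, ih, sch_succ_succ]
    ring

lemma sch_cos (θ : ℝ) (n : ℕ) : sch (Real.cos θ) n * Real.sin θ = Real.sin (n * θ) := by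
  induction n using Nat.twoStepInduction with
  | zero => simp
  | one => simp
  | more n ih1 ih2 =>
    rw [sch_succ_succ, sub_mul, ih1, mul_assoc, ih2]
    have h1 : ((n + 2 : ℕ) : ℝ) * θ = ((n + 1 : ℕ) : ℝ) * θ + θ := by push_cast; ring
    have h2 : (n : ℝ) * θ = ((n + 1 : ℕ) : ℝ) * θ - θ := by push_cast; ring
    rw [h1, h2, Real.sin_add, Real.sin_sub]
    ring

/-- interpolation in a block -/
noncomputable def gint (c : ℝ) (N : ℕ) (α β : ℝ) (m : ℕ) : ℝ :=
  (sch c (N - m) * α + sch c m * β) / sch c N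

lemma gint_zero {c : ℝ} (hc : 1 ≤ c) {N : ℕ} (hN : 0 < N) (α β : ℝ) :
    gint c N α β 0 = α := by
  unfold gint
  have := (sch_pos hc hN).ne'
  simp
  field_simp

lemma gint_N {c : ℝ} (hc : 1 ≤ c) {N : ℕ} (hN : 0 < N) (α β : ℝ) :
    gint c N α β N = β := by
  unfold gint
  have := (sch_pos hc hN).ne'
  simp
  field_simp

lemma gint_nonneg {c : ℝ} (hc : 1 ≤ c) (N : ℕ) {α β : ℝ} (hα : 0 ≤ α) (hβ : 0 ≤ β) (m : ℕ) :
    0 ≤ gint c N α β m := by
  unfold gint
  have h1 := sch_nonneg hc N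
  have h2 := sch_nonneg hc (N - m)
  have h3 := sch_nonneg hc m
  positivity

lemma gint_rec {c : ℝ} {N m : ℕ} (hm : m + 2 ≤ N) (α β : ℝ) :
    gint c N α β (m + 2) + gint c N α β m = 2 * c * gint c N α β (m + 1) := by
  obtain ⟨k, rfl⟩ := Nat.exists_eq_add_of_le hm
  unfold gint
  have e1 : m + 2 + k - (m + 2) = k := by omega
  have e2 : m + 2 + k - m = k + 2 := by omega
  have e3 : m + 2 + k - (m + 1) = k + 1 := by omega
  rw [e1, e2, e3, sch_succ_succ, sch_succ_succ]
  ring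

lemma gint_sum {c : ℝ} (hc : 1 < c) {N : ℕ} (hN : 0 < N) {α β : ℝ} (hα : 0 ≤ α) (hβ : 0 ≤ β) :
    ∑ m ∈ Finset.range N, (gint c N α β m + gint c N α β (m + 1))
      ≤ (1 + 1 / (c - 1)) * (α + β) := by
  obtain ⟨n, rfl⟩ : ∃ n, N = n + 1 := ⟨N - 1, by omega⟩
  have hs := sch_pos hc.le hN
  -- sums of `g_m`, `m = 0..n`, and `g_{m+1}`
  have h1 : ∑ m ∈ Finset.range (n + 1), sch c m ≤ sch c (n + 1) / (2 * c - 2) := by
    rw [le_div_iff₀ (by linarith), mul_comm, sch_sum]
    have := sch_nonneg hc.le n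
    linarith
  have h2 : ∑ m ∈ Finset.range (n + 1), sch c (n + 1 - m) =
      sch c (n + 1) + ∑ m ∈ Finset.range (n + 1), sch c m := by
    have e1 := Finset.sum_range_reflect (fun m => sch c m) (n + 2)
    rw [Finset.sum_range_succ] at e1
    have e2 : ∑ m ∈ Finset.range (n + 1), sch c (n + 2 - 1 - m)
        = ∑ m ∈ Finset.range (n + 1), sch c (n + 1 - m) := rfl
    rw [e2] at e1
    have e3 : n + 2 - 1 - (n + 1) = 0 := by omega
    rw [e3, sch_zero, add_zero, Finset.sum_range_succ _ (n + 1)] at e1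
    linarith
  have h3 : ∑ m ∈ Finset.range (n + 1), sch c (m + 1) =
      sch c (n + 1) + ∑ m ∈ Finset.range (n + 1), sch c m := by
    have e1 := Finset.sum_range_succ' (fun m => sch c m) (n + 1)
    rw [sch_zero, add_zero, Finset.sum_range_succ _ (n + 1)] at e1
    linarith
  have h4 : ∑ m ∈ Finset.range (n + 1), sch c (n + 1 - (m + 1)) =
      ∑ m ∈ Finset.range (n + 1), sch c m := by
    have e1 := Finset.sum_range_reflect (fun m => sch c m) (n + 1)
    rw [← e1]
    apply Finset.sum_congr rfl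
    intro m _
    congr 1
    omega
  set sg := ∑ m ∈ Finset.range (n + 1), sch c m with hsg
  have h5 : ∑ m ∈ Finset.range (n + 1), (gint c (n + 1) α β m + gint c (n + 1) α β (m + 1))
      = (α + β) * (sch c (n + 1) + 2 * sg) / sch c (n + 1) := by
    have : ∀ m, gint c (n + 1) α β m + gint c (n + 1) α β (m + 1) =
        (sch c (n + 1 - m) * α + sch c m * β + sch c (n + 1 - (m + 1)) * α + sch c (m + 1) * β)
          / sch c (n + 1) := by
      intro m
      unfold gint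
      ring
    simp_rw [this]
    rw [← Finset.sum_div]
    congr 1
    simp_rw [Finset.sum_add_distrib, ← Finset.sum_mul]
    rw [h2, h3, h4, ← hsg]
    ring
  rw [h5, div_le_iff₀ hs]
  have h6 : 2 * sg ≤ sch c (n + 1) / (c - 1) := by
    have : sch c (n + 1) / (c - 1) = 2 * (sch c (n + 1) / (2 * c - 2)) := by
      have : 2 * c - 2 = 2 * (c - 1) := by ring
      rw [this]
      have hc1 : c - 1 ≠ 0 := by linarith
      field_simp
    rw [this]
    linarith
  have h7 : (1 + 1 / (c - 1)) * (α + β) * sch c (n + 1) =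
      (α + β) * (sch c (n + 1) + sch c (n + 1) / (c - 1)) := by
    ring
  rw [h7]
  apply mul_le_mul_of_nonneg_left _ (by linarith)
  linarith

end Pool.Agent.H99
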