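import Pool.Agent.H99.SchrOp

/-!
Criteria for the spectral measure: a square summable solution gives an atom, bounded solutions on
a set of energies of positive Lebesgue measure prevent singularity.
-/

set_option autoImplicit false

open MeasureTheory Filter Topology
open scoped ENNReal

namespace Pool.Agent.H99

/-- The variational lower bound as a predicate. -/
def LowerBound (V : ℤ → ℝ) (μ : Measure ℝ) : Prop :=
  ∀ (E t : ℝ), 0 ≤ t → ∀ φ : ℤ → ℝ, Summable (fun n => φ n ^ 2) →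
        φ 0 ^ 2 ≤ (∫ x, (1 + t * (x - E) ^ 2)⁻¹ ∂μ) *
          ((∑' n, φ n ^ 2) +
            t * ∑' n, (φ (n + 1) + φ (n - 1) + V n * φ n - E * φ n) ^ 2)

lemma poisson_continuous (E t : ℝ) (ht : 0 ≤ t) :
    Continuous (fun x : ℝ => (1 + t * (x - E) ^ 2)⁻¹) := by
  apply Continuous.inv₀ (by fun_prop)
  intro x
  have : 0 < 1 + t * (x - E) ^ 2 := by positivity
  exact this.ne'

theorem not_ac_of_eigenfunction (V : ℤ → ℝ) (μ : Measure ℝ) [IsFiniteMeasure μ]
    (hlow : LowerBound V μ) (E : ℝ) (ψ : ℤ → ℝ) (hψ : Summable (fun n => ψ n ^ 2))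
    (h0 : ψ 0 ≠ 0) (heq : ∀ n, ψ (n + 1) + ψ (n - 1) + V n * ψ n = E * ψ n) :
    ¬ μ ≪ (volume : Measure ℝ) := by
  intro hac
  have hS : ∀ n : ℕ, ψ 0 ^ 2 ≤ (∫ x, (1 + (n : ℝ) * (x - E) ^ 2)⁻¹ ∂μ) * (∑' n, ψ n ^ 2) := by
    intro n
    have h := hlow E n (Nat.cast_nonneg n) ψ hψ
    have h2 : ∀ n, (ψ (n + 1) + ψ (n - 1) + V n * ψ n - E * ψ n) ^ 2 = 0 := by
      intro n
      rw [heq n]
      ring
    simpa [h2] using h
  have hlim : Tendsto (fun n : ℕ => ∫ x, (1 + (n : ℝ) * (x - E) ^ 2)⁻¹ ∂μ) atTop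
      (𝓝 (∫ x, Set.indicator {E} (fun _ => (1 : ℝ)) x ∂μ)) := by
    apply tendsto_integral_of_dominated_convergence (fun _ => (1 : ℝ))
    · intro n
      exact (poisson_continuous E n (Nat.cast_nonneg n)).aestronglyMeasurable
    · exact integrable_const 1
    · intro n
      filter_upwards with x
      have h1 : (1 : ℝ) ≤ 1 + (n : ℝ) * (x - E) ^ 2 := by
        have : 0 ≤ (n : ℝ) * (x - E) ^ 2 := by positivity
        linarith
      rw [Real.norm_eq_abs, abs_of_nonneg (by positivity)]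
      exact inv_le_one_of_one_le₀ h1
    · filter_upwards with x
      by_cases hx : x = E
      · subst hx
        simp
      · have : Set.indicator {E} (fun _ => (1 : ℝ)) x = 0 := by simp [hx]
        rw [this]
        apply Filter.Tendsto.inv_tendsto_atTop
        apply tendsto_atTop_add_const_left
        apply Filter.Tendsto.atTop_mul_const
        · have : x - E ≠ 0 := sub_ne_zero.2 hx
          positivity
        · exact tendsto_natCast_atTop_atTop
  have hμE : μ {E} = 0 := hac (by simp)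
  have hz : ∫ x, Set.indicator {E} (fun _ => (1 : ℝ)) x ∂μ = 0 := by
    rw [integral_indicator (measurableSet_singleton E)]
    simp [Measure.restrict_eq_zero.2 hμE]
  rw [hz] at hlim
  have hlim2 := hlim.mul_const (∑' n, ψ n ^ 2)
  rw [zero_mul] at hlim2
  have h3 : ψ 0 ^ 2 ≤ 0 := ge_of_tendsto' hlim2 hS
  have h4 : 0 < ψ 0 ^ 2 := by positivity
  linarith

/-- test function estimate -/
lemma poisson_lower (V : ℤ → ℝ) (μ : Measure ℝ) [IsFiniteMeasure μ]
    (hlow : LowerBound V μ) (E C : ℝ) (u : ℤ → ℝ) (hu0 : u 0 = 1)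
    (heq : ∀ n, u (n + 1) + u (n - 1) + V n * u n = E * u n) (hC : ∀ n, |u n| ≤ C)
    (L : ℕ) (hL : 0 < L) :
    1 ≤ (∫ x, (1 + (L : ℝ) ^ 2 * (x - E) ^ 2)⁻¹ ∂μ) * (15 * C ^ 2 * L) := by
  have hL' : (1 : ℝ) ≤ L := by exact_mod_cast hL
  have hL0 : (0 : ℝ) < L := by linarith
  have hC0 : 0 ≤ C := le_trans (abs_nonneg _) (hC 0)
  set χ : ℤ → ℝ := fun n => max 0 (1 - |(n : ℝ)| / L) with hχ
  have hχ0 : ∀ n, 0 ≤ χ n := fun n => le_max_left _ _
  have hχ1 : ∀ n, χ n ≤ 1 := by
    intro n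
    apply max_le zero_le_one
    have : 0 ≤ |(n : ℝ)| / L := by positivity
    linarith
  have hχz : ∀ n : ℤ, (L : ℝ) ≤ |(n : ℝ)| → χ n = 0 := by
    intro n hn
    apply max_eq_left
    have : 1 ≤ |(n : ℝ)| / L := by rwa [le_div_iff₀ hL0, one_mul]
    linarith
  have hχd : ∀ m n : ℤ, |χ m - χ n| ≤ |(m : ℝ) - n| / L := by
    intro m n
    have h1 : |χ m - χ n| ≤ |(1 - |(m : ℝ)| / L) - (1 - |(n : ℝ)| / L)| := by
      have := abs_max_sub_max_le_abs (1 - |(m : ℝ)| / L) (1 - |(n : ℝ)| / L) 0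
      rw [max_comm _ (0 : ℝ), max_comm _ (0 : ℝ)] at this
      exact this
    refine h1.trans ?_
    have h2 : (1 - |(m : ℝ)| / L) - (1 - |(n : ℝ)| / L) = (|(n : ℝ)| - |(m : ℝ)|) / L := by ring
    rw [h2, abs_div, abs_of_pos hL0]
    have h3 := abs_abs_sub_abs_le_abs_sub (n : ℝ) (m : ℝ)
    rw [abs_sub_comm (n : ℝ) (m : ℝ)] at h3
    exact div_le_div_of_nonneg_right h3 hL0.le
  set φ : ℤ → ℝ := fun n => u n * χ n with hφ
  -- support in the finite box
  set s : Finset ℤ := Finset.Icc (-(L : ℤ)) L with hs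
  have hscard : (s.card : ℝ) = 2 * L + 1 := by
    rw [hs, Int.card_Icc]
    have : ((L : ℤ) + 1 - -(L : ℤ)).toNat = 2 * L + 1 := by omega
    rw [this]
    push_cast
    ring
  have hout : ∀ n : ℤ, n ∉ s → (L : ℝ) + 1 ≤ |(n : ℝ)| := by
    intro n hn
    rw [hs, Finset.mem_Icc, ← abs_le] at hn
    push Not at hn
    have : (L : ℤ) + 1 ≤ |n| := hn
    exact_mod_cast this
  have hφz : ∀ n : ℤ, n ∉ s → φ n = 0 := by
    intro n hn
    have := hout n hn
    rw [hφ]
    simp only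
    rw [hχz n (by linarith), mul_zero]
  have hφsum : Summable (fun n => φ n ^ 2) := by
    apply summable_of_ne_finset_zero (s := s)
    intro n hn
    rw [hφz n hn]; ring
  have hφ2 : ∑' n, φ n ^ 2 ≤ 3 * C ^ 2 * L := by
    rw [tsum_eq_sum (s := s) (fun n hn => by rw [hφz n hn]; ring)]
    have : ∑ n ∈ s, φ n ^ 2 ≤ ∑ n ∈ s, C ^ 2 := by
      apply Finset.sum_le_sum
      intro n _
      rw [← sq_abs]
      apply pow_le_pow_left₀ (abs_nonneg _)
      rw [hφ]
      simp only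
      rw [abs_mul, abs_of_nonneg (hχ0 n)]
      calc |u n| * χ n ≤ C * 1 := by
            apply mul_le_mul (hC n) (hχ1 n) (hχ0 n) hC0
        _ = C := mul_one C
    refine this.trans ?_
    rw [Finset.sum_const, nsmul_eq_mul, hscard]
    nlinarith [sq_nonneg C]
  have hres : ∀ n, (φ (n + 1) + φ (n - 1) + V n * φ n - E * φ n)
      = u (n + 1) * (χ (n + 1) - χ n) + u (n - 1) * (χ (n - 1) - χ n) := by
    intro n
    have := heq n
    rw [hφ]
    simp only
    linear_combination (χ n) * this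
  have hresb : ∀ n, |φ (n + 1) + φ (n - 1) + V n * φ n - E * φ n| ≤ 2 * C / L := by
    intro n
    rw [hres]
    have e1 : |χ (n + 1) - χ n| ≤ 1 / L := by
      have := hχd (n + 1) n
      simpa using this
    have e2 : |χ (n - 1) - χ n| ≤ 1 / L := by
      have := hχd (n - 1) n
      simpa using this
    calc |u (n + 1) * (χ (n + 1) - χ n) + u (n - 1) * (χ (n - 1) - χ n)|
        ≤ |u (n + 1)| * |χ (n + 1) - χ n| + |u (n - 1)| * |χ (n - 1) - χ n| := by
          rw [← abs_mul, ← abs_mul]; exact abs_add_le _ _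
      _ ≤ C * (1 / L) + C * (1 / L) := by
          apply add_le_add
          · exact mul_le_mul (hC _) e1 (abs_nonneg _) hC0
          · exact mul_le_mul (hC _) e2 (abs_nonneg _) hC0
      _ = 2 * C / L := by ring
  have hresz : ∀ n : ℤ, n ∉ s → (φ (n + 1) + φ (n - 1) + V n * φ n - E * φ n) ^ 2 = 0 := by
    intro n hn
    have h1 := hout n hn
    have hz : χ n = 0 := hχz n (by linarith)
    have hz1 : χ (n + 1) = 0 := by
      apply hχz
      push_cast
      have := abs_sub_abs_le_abs_sub (n : ℝ) (-1)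
      rw [abs_neg, abs_one, sub_neg_eq_add] at this
      linarith
    have hz2 : χ (n - 1) = 0 := by
      apply hχz
      push_cast
      have := abs_sub_abs_le_abs_sub (n : ℝ) 1
      rw [abs_one] at this
      linarith
    rw [hres, hz, hz1, hz2]
    ring
  have hr2 : ∑' n, (φ (n + 1) + φ (n - 1) + V n * φ n - E * φ n) ^ 2 ≤ 12 * C ^ 2 / L := by
    rw [tsum_eq_sum (s := s) hresz]
    have : ∑ n ∈ s, (φ (n + 1) + φ (n - 1) + V n * φ n - E * φ n) ^ 2
        ≤ ∑ n ∈ s, (2 * C / L) ^ 2 := by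
      apply Finset.sum_le_sum
      intro n _
      rw [← sq_abs]
      exact pow_le_pow_left₀ (abs_nonneg _) (hresb n) 2
    refine this.trans ?_
    rw [Finset.sum_const, nsmul_eq_mul, hscard]
    have : (2 * (L : ℝ) + 1) * (2 * C / L) ^ 2 = (2 * L + 1) * 4 * C ^ 2 / L ^ 2 := by
      field_simp
      ring
    rw [this, div_le_div_iff₀ (by positivity) hL0]
    nlinarith [mul_nonneg (sq_nonneg C) hL0.le, mul_nonneg (mul_nonneg (sq_nonneg C) hL0.le) (sub_nonneg.2 hL')]
  have hmain := hlow E ((L : ℝ) ^ 2) (by positivity) φ hφsum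
  have hφ0 : φ 0 = 1 := by
    rw [hφ]
    simp only
    rw [hu0, hχ]
    simp
  rw [hφ0, one_pow] at hmain
  refine hmain.trans ?_
  apply mul_le_mul_of_nonneg_left
  · have : (L : ℝ) ^ 2 * ∑' n, (φ (n + 1) + φ (n - 1) + V n * φ n - E * φ n) ^ 2
        ≤ (L : ℝ) ^ 2 * (12 * C ^ 2 / L) := by gcongr
    have h5 : (L : ℝ) ^ 2 * (12 * C ^ 2 / L) = 12 * C ^ 2 * L := by
      field_simp
    rw [h5] at this
    linarith
  · apply integral_nonneg
    intro x
    positivity

end Pool.Agent.H99
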