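import Pool.Agent.H99.LPDefs

/-!
The explicit square summable eigenfunction of the hierarchical potential.
-/

set_option autoImplicit false

open Filter Topology

namespace Pool.Agent.H99

variable {cc : ℕ → ℝ} {N : ℕ → ℕ}

/-- solution on the block `[0, p_k]` with boundary values `α`, `β` -/
noncomputable def fB (cc : ℕ → ℝ) (N : ℕ → ℕ) : ℕ → ℝ → ℝ → ℕ → ℝ
  | 0, α, β, n => if n = 0 then α else β
  | (k + 1), α, β, n => fB cc N k (gint (cc k) (N k) α β (n / pp N k))
      (gint (cc k) (N k) α β (n / pp N k + 1)) (n % pp N k)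

lemma fB_succ (k : ℕ) (α β : ℝ) (n : ℕ) : fB cc N (k + 1) α β n =
    fB cc N k (gint (cc k) (N k) α β (n / pp N k))
      (gint (cc k) (N k) α β (n / pp N k + 1)) (n % pp N k) := rfl

lemma N_pos (h : Good cc N) (k : ℕ) : 0 < N k := by have := h.hN k; omega

lemma fB_left (h : Good cc N) (k : ℕ) (α β : ℝ) : fB cc N k α β 0 = α := by
  induction k generalizing α β with
  | zero => simp [fB]
  | succ k ih =>
    rw [fB_succ, Nat.zero_div, Nat.zero_mod, ih, gint_zero (h.hcc k).le (N_pos h k)]

lemma fB_right (h : Good cc N) (k : ℕ) (α β : ℝ) : fB cc N k α β (pp N k) = β := by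
  cases k with
  | zero => simp [fB, pp]
  | succ k =>
    rw [fB_succ]
    have e1 : pp N (k + 1) / pp N k = N k := by
      rw [pp_succ, Nat.mul_div_cancel_left _ (pp_pos h k)]
    have e2 : pp N (k + 1) % pp N k = 0 := by
      rw [pp_succ, Nat.mul_mod_right]
    rw [e1, e2, fB_left h, gint_N (h.hcc k).le (N_pos h k)]

lemma fB_block (h : Good cc N) (k : ℕ) (α β : ℝ) (m j : ℕ) (hj : j ≤ pp N k) :
    fB cc N (k + 1) α β (m * pp N k + j) =
    fB cc N k (gint (cc k) (N k) α β m) (gint (cc k) (N k) α β (m + 1)) j := by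
  rw [fB_succ]
  rcases Nat.lt_or_ge j (pp N k) with hlt | hge
  · have e1 : (m * pp N k + j) / pp N k = m := by
      rw [Nat.add_comm, Nat.add_mul_div_right _ _ (pp_pos h k), Nat.div_eq_of_lt hlt, zero_add]
    have e2 : (m * pp N k + j) % pp N k = j := by
      rw [Nat.add_comm, Nat.add_mul_mod_self_right, Nat.mod_eq_of_lt hlt]
    rw [e1, e2]
  · have hj' : j = pp N k := le_antisymm hj hge
    rw [hj']
    have e1 : (m * pp N k + pp N k) / pp N k = m + 1 := by
      rw [← Nat.succ_mul, Nat.mul_div_cancel _ (pp_pos h k)]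
    have e2 : (m * pp N k + pp N k) % pp N k = 0 := by
      rw [← Nat.succ_mul, Nat.mul_mod_left]
    rw [e1, e2, fB_left h, fB_right h]

lemma fB_one (h : Good cc N) (k : ℕ) (α β : ℝ) :
    fB cc N k α β 1 = XX cc N k * α + β / PP cc N k := by
  induction k generalizing α β with
  | zero => simp [fB, XX, PP]
  | succ k ih =>
    have e := fB_block h k α β 0 1 (pp_pos h k)
    rw [zero_mul, zero_add] at e
    rw [e, ih, gint_zero (h.hcc k).le (N_pos h k), XX_succ, PP_succ]
    unfold gint
    have h1 := (PP_pos h k).ne'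
    have h2 := (schN_pos h k).ne'
    rw [sch_one]
    field_simp
    ring

lemma fB_last (h : Good cc N) (k : ℕ) (α β : ℝ) :
    fB cc N k α β (pp N k - 1) = α / PP cc N k + XX cc N k * β := by
  induction k generalizing α β with
  | zero => simp [fB, XX, PP, pp]
  | succ k ih =>
    have hp := pp_pos h k
    obtain ⟨n, hn⟩ : ∃ n, N k = n + 1 := ⟨N k - 1, by have := h.hN k; omega⟩
    have e : pp N (k + 1) - 1 = n * pp N k + (pp N k - 1) := by
      have : pp N (k + 1) = n * pp N k + pp N k := by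
        rw [pp_succ, hn]; ring
      omega
    rw [e, fB_block h k α β n _ (Nat.sub_le _ _), ih, XX_succ, PP_succ]
    have e3 : gint (cc k) (N k) α β (n + 1) = β := by
      rw [← hn]
      exact gint_N (h.hcc k).le (N_pos h k) α β
    rw [e3]
    unfold gint
    have h1 := (PP_pos h k).ne'
    have h2 := (schN_pos h k).ne'
    have e4 : N k - n = 1 := by omega
    have e5 : N k - 1 = n := by omega
    rw [e4, e5, sch_one]
    field_simp
    ring

lemma fB_nonneg (h : Good cc N) (k : ℕ) {α β : ℝ} (hα : 0 ≤ α) (hβ : 0 ≤ β) (n : ℕ) :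
    0 ≤ fB cc N k α β n := by
  induction k generalizing α β n with
  | zero =>
    simp only [fB]
    split_ifs <;> assumption
  | succ k ih =>
    rw [fB_succ]
    exact ih (gint_nonneg (h.hcc k).le _ hα hβ _) (gint_nonneg (h.hcc k).le _ hα hβ _) _

lemma sum_range_mul (f : ℕ → ℝ) (M p : ℕ) :
    ∑ n ∈ Finset.range (p * M), f n = ∑ m ∈ Finset.range M, ∑ j ∈ Finset.range p, f (m * p + j) := by
  induction M with
  | zero => simp
  | succ M ih =>
    rw [Finset.sum_range_succ, ← ih, Nat.mul_succ, Finset.sum_range_add]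
    congr 1
    apply Finset.sum_congr rfl
    intro j _
    rw [Nat.mul_comm]

/-- the constant bounding the sums -/
noncomputable def Cst (cc : ℕ → ℝ) (k : ℕ) : ℝ := ∏ j ∈ Finset.range k, (1 + 1 / (cc j - 1))

lemma Cst_pos (h : Good cc N) (k : ℕ) : 0 < Cst cc k := by
  apply Finset.prod_pos
  intro j _
  have := h.hcc j
  have : 0 < cc j - 1 := by linarith
  positivity

lemma fB_sum (h : Good cc N) (k : ℕ) {α β : ℝ} (hα : 0 ≤ α) (hβ : 0 ≤ β) :
    ∑ n ∈ Finset.range (pp N k), fB cc N k α β n ≤ Cst cc k * (α + β) := by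
  induction k generalizing α β with
  | zero => simp [fB, pp, Cst]; linarith
  | succ k ih =>
    rw [pp_succ, sum_range_mul]
    have h1 : ∀ m ∈ Finset.range (N k), ∑ j ∈ Finset.range (pp N k),
        fB cc N (k + 1) α β (m * pp N k + j) ≤
        Cst cc k * (gint (cc k) (N k) α β m + gint (cc k) (N k) α β (m + 1)) := by
      intro m _
      have : ∑ j ∈ Finset.range (pp N k), fB cc N (k + 1) α β (m * pp N k + j)
          = ∑ j ∈ Finset.range (pp N k), fB cc N k (gint (cc k) (N k) α β m)
            (gint (cc k) (N k) α β (m + 1)) j := by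
        apply Finset.sum_congr rfl
        intro j hj
        exact fB_block h k α β m j (Finset.mem_range.1 hj).le
      rw [this]
      exact ih (gint_nonneg (h.hcc k).le _ hα hβ _) (gint_nonneg (h.hcc k).le _ hα hβ _)
    refine (Finset.sum_le_sum h1).trans ?_
    rw [← Finset.mul_sum]
    have h2 := gint_sum (h.hcc k) (N_pos h k) hα hβ
    have h3 : Cst cc (k + 1) = Cst cc k * (1 + 1 / (cc k - 1)) := by
      unfold Cst
      rw [Finset.prod_range_succ]
    rw [h3, mul_assoc]
    exact mul_le_mul_of_nonneg_left h2 (Cst_pos h k).le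

/-- the recurrence inside blocks -/
lemma fB_rec (h : Good cc N) (k : ℕ) (α β : ℝ) (n : ℕ) (hn0 : 0 < n) (hn : n < pp N k) :
    fB cc N k α β (n + 1) + fB cc N k α β (n - 1) =
      (2 * cc 0 - VV cc N (n : ℤ)) * fB cc N k α β n := by
  induction k generalizing α β n with
  | zero => simp [pp] at hn; omega
  | succ k ih =>
    have hp := pp_pos h k
    obtain ⟨m, j, hnj, hjlt⟩ : ∃ m j, n = m * pp N k + j ∧ j < pp N k :=
      ⟨n / pp N k, n % pp N k, by rw [Nat.mul_comm]; exact (Nat.div_add_mod n (pp N k)).symm,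
        Nat.mod_lt _ hp⟩
    have hmN : m < N k := by
      by_contra hcon
      push Not at hcon
      have h1 : N k * pp N k ≤ m * pp N k := Nat.mul_le_mul_right _ hcon
      rw [pp_succ, Nat.mul_comm] at hn
      omega
    rcases Nat.eq_zero_or_pos j with hj0 | hjpos
    · -- a node of level `k`
      rw [hj0, add_zero] at hnj
      have hm0 : 0 < m := by
        by_contra hcon
        have hm00 : m = 0 := by omega
        rw [hm00, zero_mul] at hnj
        omega
      obtain ⟨m', rfl⟩ : ∃ m', m = m' + 1 := ⟨m - 1, by omega⟩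
      have e1 : n - 1 = m' * pp N k + (pp N k - 1) := by
        rw [hnj, Nat.succ_mul]
        omega
      have e2 : n = (m' + 1) * pp N k + 0 := by rw [hnj, add_zero]
      rw [e1, fB_block h k α β m' _ (Nat.sub_le _ _), fB_last h]
      rw [hnj, fB_block h k α β (m' + 1) 1 hp, fB_one h]
      have e3 : fB cc N (k + 1) α β ((m' + 1) * pp N k) = gint (cc k) (N k) α β (m' + 1) := by
        have := fB_block h k α β (m' + 1) 0 (Nat.zero_le _)
        rw [add_zero, fB_left h] at this
        exact this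
      rw [e3, VV_level h k (m' + 1) hm0 hmN]
      have e4 := gint_rec (c := cc k) (N := N k) (m := m') (by omega) α β
      unfold vv
      have h1 := (PP_pos h k).ne'
      field_simp
      linear_combination e4
    · -- inside a block of level `k`
      have e1 : n - 1 = m * pp N k + (j - 1) := by omega
      have e2 : n + 1 = m * pp N k + (j + 1) := by omega
      rw [e1, e2, fB_block h k α β m (j + 1) hjlt,
        fB_block h k α β m (j - 1) (by omega)]
      have e3 : fB cc N (k + 1) α β n = fB cc N k (gint (cc k) (N k) α β m)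
          (gint (cc k) (N k) α β (m + 1)) j := by
        rw [hnj]
        exact fB_block h k α β m j hjlt.le
      rw [e3, ih _ _ j hjpos hjlt]
      have e4 : VV cc N (n : ℤ) = VV cc N (j : ℤ) := by
        rw [hnj]
        exact VV_add_block h k m j hjpos hjlt
      rw [e4]

/-- the values `ψ(p_k)` -/
noncomputable def rr (cc : ℕ → ℝ) (N : ℕ → ℕ) (k : ℕ) : ℝ := PP cc N k * (Xinf cc N - XX cc N k)

lemma rr_nonneg (h : Good cc N) (k : ℕ) : 0 ≤ rr cc N k :=
  mul_nonneg (PP_pos h k).le (sub_nonneg.2 (XX_le_Xinf h k))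

lemma gint_rr (h : Good cc N) (k : ℕ) :
    gint (cc k) (N k) 1 (rr cc N (k + 1)) 1 = rr cc N k := by
  unfold gint rr
  rw [XX_succ, PP_succ, sch_one]
  have h1 := (PP_pos h k).ne'
  have h2 := (schN_pos h k).ne'
  field_simp
  ring

/-- recursion for `r_k` gives an upper bound -/
lemma rr_le (h : Good cc N) : ∃ C : ℝ, 0 ≤ C ∧ ∀ k, rr cc N k ≤ C := by
  -- `r_k = P_k * sum_{j >= k} s_{N_j-1}/P_{j+1} <= sum_{j>=k} 1/(P_{j}/P_k)`; we use `≤ 2`
  have hratio : ∀ k i, PP cc N k * 2 ^ i ≤ PP cc N (k + i) := by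
    intro k i
    induction i with
    | zero => simp
    | succ i ih =>
      rw [← add_assoc, PP_succ]
      have h2 : (2 : ℝ) ≤ sch (cc (k + i)) (N (k + i)) := by
        have := sch_ge (h.hcc (k + i)).le (N (k + i))
        have h3 : ((2 : ℕ) : ℝ) ≤ N (k + i) := by exact_mod_cast h.hN (k + i)
        push_cast at h3
        linarith
      calc PP cc N k * 2 ^ (i + 1) = (PP cc N k * 2 ^ i) * 2 := by ring
        _ ≤ PP cc N (k + i) * sch (cc (k + i)) (N (k + i)) := by
            apply mul_le_mul ih h2 (by norm_num) (PP_pos h _).le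
  refine ⟨2, by norm_num, ?_⟩
  intro k
  have hterm : ∀ i, sch (cc (i + k)) (N (i + k) - 1) / PP cc N (i + k + 1) ≤
      (1 / PP cc N k) * (1 / 2) ^ i := by
    intro i
    have hle : sch (cc (i + k)) (N (i + k) - 1) ≤ sch (cc (i + k)) (N (i + k)) := by
      obtain ⟨n, hn⟩ : ∃ n, N (i + k) = n + 1 := ⟨N (i + k) - 1, by have := h.hN (i + k); omega⟩
      rw [hn]
      exact (sch_lt_succ (h.hcc _).le n).le
    have h1 : sch (cc (i + k)) (N (i + k) - 1) / PP cc N (i + k + 1) ≤ 1 / PP cc N (i + k) := by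
      rw [PP_succ, div_le_div_iff₀ (mul_pos (PP_pos h _) (schN_pos h _)) (PP_pos h _)]
      nlinarith [PP_pos h (i + k)]
    refine h1.trans ?_
    have h2 := hratio k i
    rw [add_comm k i] at h2
    have h3 := PP_pos h k
    have h4 : (1 / PP cc N k) * (1 / 2) ^ i = 1 / (PP cc N k * 2 ^ i) := by
      rw [one_div_pow, one_div_mul_one_div]
    rw [h4]
    exact one_div_le_one_div_of_le (by positivity) h2
  have htail : Xinf cc N - XX cc N k = ∑' i, sch (cc (i + k)) (N (i + k) - 1) / PP cc N (i + k + 1) := by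
    have := (summable_Xinc h).sum_add_tsum_nat_add k
    rw [← XX_eq_sum] at this
    unfold Xinf
    linarith
  unfold rr
  rw [htail]
  have hgeo : Summable (fun i : ℕ => (1 / PP cc N k) * (1 / 2 : ℝ) ^ i) :=
    (summable_geometric_two).mul_left _
  have h5 : ∑' i, sch (cc (i + k)) (N (i + k) - 1) / PP cc N (i + k + 1) ≤
      (1 / PP cc N k) * 2 := by
    calc _ ≤ ∑' i : ℕ, (1 / PP cc N k) * (1 / 2 : ℝ) ^ i :=
          Summable.tsum_le_tsum hterm ((summable_nat_add_iff k).2 (summable_Xinc h)) hgeo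
      _ = (1 / PP cc N k) * 2 := by rw [tsum_mul_left, tsum_geometric_two]
  calc PP cc N k * _ ≤ PP cc N k * ((1 / PP cc N k) * 2) :=
        mul_le_mul_of_nonneg_left h5 (PP_pos h k).le
    _ = 2 := by
        have := (PP_pos h k).ne'
        field_simp

/-- consistency of the block solutions -/
lemma fB_consistent (h : Good cc N) (k n : ℕ) (hn : n ≤ pp N k) :
    fB cc N (k + 1) 1 (rr cc N (k + 1)) n = fB cc N k 1 (rr cc N k) n := by
  have e := fB_block h k 1 (rr cc N (k + 1)) 0 n hn
  rw [zero_mul, zero_add, zero_add, gint_zero (h.hcc k).le (N_pos h k), gint_rr h] at e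
  exact e

lemma fB_consistent' (h : Good cc N) {k l : ℕ} (hkl : k ≤ l) (n : ℕ) (hn : n ≤ pp N k) :
    fB cc N l 1 (rr cc N l) n = fB cc N k 1 (rr cc N k) n := by
  induction l, hkl using Nat.le_induction with
  | base => rfl
  | succ l hl ih =>
    rw [fB_consistent h l n (hn.trans (pp_le_of_le h hl)), ih]

/-- the eigenfunction on `ℕ` -/
noncomputable def psiN (cc : ℕ → ℝ) (N : ℕ → ℕ) (n : ℕ) : ℝ := fB cc N n 1 (rr cc N n) n

lemma psiN_eq (h : Good cc N) (k n : ℕ) (hn : n ≤ pp N k) :
    psiN cc N n = fB cc N k 1 (rr cc N k) n := by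
  unfold psiN
  rcases le_total n k with hnk | hkn
  · exact (fB_consistent' h hnk n (lt_pp h n).le).symm
  · exact fB_consistent' h hkn n hn

lemma psiN_nonneg (h : Good cc N) (n : ℕ) : 0 ≤ psiN cc N n :=
  fB_nonneg h n zero_le_one (rr_nonneg h n) n

lemma psiN_zero (h : Good cc N) : psiN cc N 0 = 1 := fB_left h 0 _ _

lemma psiN_one (h : Good cc N) : psiN cc N 1 = Xinf cc N := by
  unfold psiN
  rw [fB_one h]
  unfold rr
  have := (PP_pos h 1).ne'
  field_simp
  ring

lemma psiN_rec (h : Good cc N) (n : ℕ) (hn : 0 < n) :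
    psiN cc N (n + 1) + psiN cc N (n - 1) = (2 * cc 0 - VV cc N (n : ℤ)) * psiN cc N n := by
  have h1 := lt_pp h (n + 1)
  rw [psiN_eq h (n + 1) (n + 1) h1.le, psiN_eq h (n + 1) (n - 1) (by omega),
    psiN_eq h (n + 1) n (by omega)]
  exact fB_rec h (n + 1) _ _ n hn (by omega)

lemma Cst_bdd (h : Good cc N) : ∃ C : ℝ, 0 < C ∧ ∀ k, Cst cc k ≤ C := by
  refine ⟨Real.exp (∑' k, 1 / (cc k - 1)), Real.exp_pos _, fun k => ?_⟩
  unfold Cst
  have hpos : ∀ j, 0 ≤ 1 / (cc j - 1) := by
    intro j
    have := h.hcc j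
    have : 0 < cc j - 1 := by linarith
    positivity
  calc ∏ j ∈ Finset.range k, (1 + 1 / (cc j - 1))
      ≤ ∏ j ∈ Finset.range k, Real.exp (1 / (cc j - 1)) := by
        apply Finset.prod_le_prod
        · intro j _
          have := hpos j
          linarith
        · intro j _
          rw [add_comm]
          exact Real.add_one_le_exp _
    _ = Real.exp (∑ j ∈ Finset.range k, 1 / (cc j - 1)) := (Real.exp_sum _ _).symm
    _ ≤ _ := Real.exp_le_exp.2 (h.hs1.sum_le_tsum _ (fun j _ => hpos j))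

lemma psiN_summable (h : Good cc N) : Summable (psiN cc N) := by
  obtain ⟨C, hC, hCst⟩ := Cst_bdd h
  obtain ⟨R, hR, hrr⟩ := rr_le h
  apply summable_of_sum_range_le (c := C * (1 + R)) (psiN_nonneg h)
  intro k
  calc ∑ n ∈ Finset.range k, psiN cc N n ≤ ∑ n ∈ Finset.range (pp N k), psiN cc N n := by
        apply Finset.sum_le_sum_of_subset_of_nonneg
        · exact Finset.range_mono (lt_pp h k).le
        · intro i _ _
          exact psiN_nonneg h i
    _ = ∑ n ∈ Finset.range (pp N k), fB cc N k 1 (rr cc N k) n := by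
        apply Finset.sum_congr rfl
        intro n hn
        exact psiN_eq h k n (Finset.mem_range.1 hn).le
    _ ≤ Cst cc k * (1 + rr cc N k) := fB_sum h k zero_le_one (rr_nonneg h k)
    _ ≤ C * (1 + R) := by
        apply mul_le_mul (hCst k) (by linarith [hrr k])
        · linarith [rr_nonneg h k]
        · exact hC.le

lemma psiN_sq_summable (h : Good cc N) : Summable (fun n => psiN cc N n ^ 2) := by
  have hs := psiN_summable h
  have hb : ∀ n, psiN cc N n ≤ ∑' m, psiN cc N m := fun n => hs.le_tsum n (fun i _ => psiN_nonneg h i)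
  refine Summable.of_nonneg_of_le (fun n => by positivity) (fun n => ?_)
    (hs.mul_left (∑' m, psiN cc N m))
  rw [pow_two]
  exact mul_le_mul_of_nonneg_right (hb n) (psiN_nonneg h n)

/-- The eigenfunction. -/
theorem exists_eigenfunction (h : Good cc N) :
    ∃ ψ : ℤ → ℝ, Summable (fun n => ψ n ^ 2) ∧ ψ 0 ≠ 0 ∧
      ∀ n, ψ (n + 1) + ψ (n - 1) + VV cc N n * ψ n = (2 * cc 0) * ψ n := by
  refine ⟨fun n => psiN cc N n.natAbs, ?_, ?_, ?_⟩
  · have h1 := psiN_sq_summable h
    apply Summable.of_nat_of_neg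
    · simpa using h1
    · simpa using h1
  · simp [psiN_zero h]
  · intro n
    -- reduce to nonnegative `n`
    have key : ∀ m : ℕ, psiN cc N ((m : ℤ) + 1).natAbs + psiN cc N ((m : ℤ) - 1).natAbs
        + VV cc N (m : ℤ) * psiN cc N ((m : ℤ)).natAbs = (2 * cc 0) * psiN cc N ((m : ℤ)).natAbs := by
      intro m
      rcases Nat.eq_zero_or_pos m with rfl | hm
      · have e1 : (((0 : ℕ) : ℤ) + 1).natAbs = 1 := rfl
        have e2 : (((0 : ℕ) : ℤ) - 1).natAbs = 1 := rfl
        have e3 : (((0 : ℕ) : ℤ)).natAbs = 0 := rfl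
        rw [e1, e2, e3, psiN_zero h, psiN_one h]
        have : VV cc N ((0 : ℕ) : ℤ) = 2 * cc 0 - 2 * Xinf cc N := VV_zero h
        rw [this]
        ring
      · have e1 : ((m : ℤ) + 1).natAbs = m + 1 := by omega
        have e2 : ((m : ℤ) - 1).natAbs = m - 1 := by omega
        have e3 : ((m : ℤ)).natAbs = m := by omega
        rw [e1, e2, e3]
        linear_combination psiN_rec h m hm
    obtain ⟨m, rfl | rfl⟩ := n.eq_nat_or_neg
    · exact key m
    · have e1 : (-(m : ℤ) + 1).natAbs = ((m : ℤ) - 1).natAbs := by omega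
      have e2 : (-(m : ℤ) - 1).natAbs = ((m : ℤ) + 1).natAbs := by omega
      have e3 : (-(m : ℤ)).natAbs = (m : ℤ).natAbs := by omega
      simp only
      rw [e1, e2, e3, VV_neg]
      linear_combination key m

end Pool.Agent.H99
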