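import Pool.Agent.H99.Criteria

/-!
A set of positive measure of energies with bounded solutions prevents singularity.
-/

set_option autoImplicit false

open MeasureTheory Filter Topology
open scoped ENNReal

namespace Pool.Agent.H99

lemma lintegral_poisson (L : ℝ) (hL : 0 < L) (x : ℝ) :
    ∫⁻ E : ℝ, ENNReal.ofReal (L * (1 + L ^ 2 * (x - E) ^ 2)⁻¹) = ENNReal.ofReal Real.pi := by
  have h1 : ∀ E : ℝ, L * (1 + L ^ 2 * (x - E) ^ 2)⁻¹
      = L * (fun y : ℝ => (1 + y ^ 2)⁻¹) (L * (E - x)) := by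
    intro E
    simp only
    congr 2
    ring
  have hint0 : Integrable (fun y : ℝ => (1 + y ^ 2)⁻¹) := integrable_inv_one_add_sq
  have hint1 : Integrable (fun E : ℝ => (fun y : ℝ => (1 + y ^ 2)⁻¹) (L * (E - x))) := by
    have h2 := (hint0.comp_mul_left' hL.ne').comp_sub_right x
    exact h2
  have hint2 : Integrable (fun E : ℝ => L * (1 + L ^ 2 * (x - E) ^ 2)⁻¹) := by
    simp_rw [h1]
    exact hint1.const_mul L
  rw [← ofReal_integral_eq_lintegral_ofReal hint2 (by
    filter_upwards with E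
    have : 0 < 1 + L ^ 2 * (x - E) ^ 2 := by positivity
    positivity)]
  congr 1
  simp_rw [h1]
  rw [integral_const_mul]
  rw [integral_sub_right_eq_self (fun y : ℝ => (fun y : ℝ => (1 + y ^ 2)⁻¹) (L * y)) x]
  rw [Measure.integral_comp_mul_left (fun y : ℝ => (1 + y ^ 2)⁻¹) L]
  rw [integral_univ_inv_one_add_sq, abs_of_pos (inv_pos.2 hL), smul_eq_mul]
  field_simp

theorem not_singular_of_bounded (V : ℤ → ℝ) (μ : Measure ℝ) [IsFiniteMeasure μ]
    (hlow : LowerBound V μ) (A : Set ℝ) (hA : MeasurableSet A) (hApos : 0 < volume A)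
    (C : ℝ)
    (hsol : ∀ E ∈ A, ∃ u : ℤ → ℝ, u 0 = 1 ∧
      (∀ n, u (n + 1) + u (n - 1) + V n * u n = E * u n) ∧ ∀ n, |u n| ≤ C) :
    ¬ μ ⟂ₘ (volume : Measure ℝ) := by
  intro hsing
  obtain ⟨S, hS, hμS, hvS⟩ := hsing
  -- a compact subset of `A ∩ S` of positive measure
  have hAS : 0 < volume (A ∩ S) := by
    have h1 : volume A ≤ volume (A ∩ S) + volume Sᶜ := by
      calc volume A ≤ volume ((A ∩ S) ∪ Sᶜ) := by
            apply measure_mono
            intro x hx
            by_cases hxS : x ∈ S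
            · left; exact ⟨hx, hxS⟩
            · right; exact hxS
        _ ≤ _ := measure_union_le _ _
    rw [hvS, add_zero] at h1
    exact lt_of_lt_of_le hApos h1
  obtain ⟨K, hKsub, hKc, hKpos⟩ := (hA.inter hS).exists_lt_isCompact hAS
  have hKA : K ⊆ A := fun x hx => (hKsub hx).1
  have hμK : μ K = 0 := measure_mono_null (fun x hx => (hKsub hx).2) hμS
  have hKfin : volume K < ⊤ := hKc.measure_lt_top
  have hKmeas : MeasurableSet K := hKc.measurableSet
  have hKne : K.Nonempty := by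
    by_contra hcon
    rw [Set.not_nonempty_iff_eq_empty] at hcon
    rw [hcon] at hKpos
    simp at hKpos
  have hCpos : 0 < C := by
    obtain ⟨E, hE⟩ := hKne
    obtain ⟨u, hu0, -, huC⟩ := hsol E (hKA hE)
    have := huC 0
    rw [hu0, abs_one] at this
    linarith
  set c : ℝ := (15 * C ^ 2)⁻¹ with hc
  have hcpos : 0 < c := by positivity
  -- key pointwise bound
  have hpt : ∀ L : ℕ, 0 < L → ∀ E ∈ K,
      ENNReal.ofReal c ≤ ∫⁻ x, ENNReal.ofReal ((L : ℝ) * (1 + (L : ℝ) ^ 2 * (x - E) ^ 2)⁻¹) ∂μ := by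
    intro L hL E hE
    obtain ⟨u, hu0, heq, huC⟩ := hsol E (hKA hE)
    have h1 := poisson_lower V μ hlow E C u hu0 heq huC L hL
    have hL0 : (0 : ℝ) < L := by exact_mod_cast hL
    have hint : Integrable (fun x : ℝ => (1 + (L : ℝ) ^ 2 * (x - E) ^ 2)⁻¹) μ := by
      apply Integrable.mono' (integrable_const (1 : ℝ))
      · exact (poisson_continuous E _ (by positivity)).aestronglyMeasurable
      · filter_upwards with x
        have h1 : (1 : ℝ) ≤ 1 + (L : ℝ) ^ 2 * (x - E) ^ 2 := by
          have : 0 ≤ (L : ℝ) ^ 2 * (x - E) ^ 2 := by positivity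
          linarith
        rw [Real.norm_eq_abs, abs_of_nonneg (by positivity)]
        exact inv_le_one_of_one_le₀ h1
    rw [← ofReal_integral_eq_lintegral_ofReal (hint.const_mul _) (by
      filter_upwards with x
      have : 0 < 1 + (L : ℝ) ^ 2 * (x - E) ^ 2 := by positivity
      positivity)]
    apply ENNReal.ofReal_le_ofReal
    rw [integral_const_mul, hc, inv_le_iff_one_le_mul₀ (by positivity)]
    calc (1 : ℝ) ≤ _ := h1
      _ = _ := by ring
  -- the total mass estimate
  set k : ℝ := (volume K).toReal with hk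
  have hkpos : 0 < k := ENNReal.toReal_pos hKpos.ne' hKfin.ne
  have hkeq : volume K = ENNReal.ofReal k := (ENNReal.ofReal_toReal hKfin.ne).symm
  set m : ℝ := (μ Set.univ).toReal with hm
  have hmeq : μ Set.univ = ENNReal.ofReal m := (ENNReal.ofReal_toReal (measure_ne_top _ _)).symm
  have hm0 : 0 ≤ m := ENNReal.toReal_nonneg
  set ζ : ℝ := c * k / (4 * Real.pi) with hζ
  have hζpos : 0 < ζ := by positivity
  obtain ⟨U, hKU, hUo, hμU⟩ := K.exists_isOpen_lt_of_lt (ENNReal.ofReal ζ) (μ := μ) (by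
    rw [hμK]; exact ENNReal.ofReal_pos.2 hζpos)
  obtain ⟨d, hd, hdU⟩ := hKc.exists_thickening_subset_open hUo hKU
  obtain ⟨L, hLgt⟩ := exists_nat_gt (max 1 (4 * m / (c * d ^ 2)))
  have hL1 : (1 : ℝ) < L := lt_of_le_of_lt (le_max_left _ _) hLgt
  have hL0 : (0 : ℝ) < L := by linarith
  have hLn : 0 < L := by exact_mod_cast hL0
  have hL2 : 4 * m / (c * d ^ 2) < L := lt_of_le_of_lt (le_max_right _ _) hLgt
  set f : ℝ → ℝ → ℝ≥0∞ := fun E x => ENNReal.ofReal ((L : ℝ) * (1 + (L : ℝ) ^ 2 * (x - E) ^ 2)⁻¹)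
    with hf
  have hfm : Measurable (Function.uncurry f) := by
    rw [hf]
    unfold Function.uncurry
    simp only
    fun_prop
  have hfar : ∀ E ∈ K, ∀ x ∈ Uᶜ, f E x ≤ ENNReal.ofReal (1 / (L * d ^ 2)) := by
    intro E hE x hx
    apply ENNReal.ofReal_le_ofReal
    have hdist : d ≤ |x - E| := by
      by_contra hcon
      push Not at hcon
      apply hx
      apply hdU
      rw [Metric.mem_thickening_iff]
      exact ⟨E, hE, by rwa [Real.dist_eq]⟩
    have h1 : d ^ 2 ≤ (x - E) ^ 2 := by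
      rw [← sq_abs (x - E)]
      exact pow_le_pow_left₀ hd.le hdist 2
    rw [← div_eq_mul_inv, div_le_div_iff₀ (by positivity) (by positivity)]
    nlinarith [mul_le_mul_of_nonneg_left h1 (sq_nonneg (L : ℝ))]
  have hsplit : ∀ E ∈ K, ENNReal.ofReal c ≤
      (∫⁻ x in U, f E x ∂μ) + ENNReal.ofReal (1 / (L * d ^ 2)) * ENNReal.ofReal m := by
    intro E hE
    refine (hpt L hLn E hE).trans ?_
    rw [← lintegral_add_compl _ hUo.measurableSet]
    gcongr
    calc ∫⁻ x in Uᶜ, f E x ∂μ ≤ ∫⁻ x in Uᶜ, ENNReal.ofReal (1 / (L * d ^ 2)) ∂μ := by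
          apply setLIntegral_mono' hUo.measurableSet.compl
          intro x hx
          exact hfar E hE x hx
      _ = ENNReal.ofReal (1 / (L * d ^ 2)) * μ Uᶜ := by
          rw [lintegral_const, Measure.restrict_apply_univ]
      _ ≤ ENNReal.ofReal (1 / (L * d ^ 2)) * ENNReal.ofReal m := by
          rw [← hmeq]
          gcongr
          exact Set.subset_univ _
  have hint : ENNReal.ofReal c * volume K ≤
      (∫⁻ E in K, ∫⁻ x in U, f E x ∂μ) +
        ENNReal.ofReal (1 / (L * d ^ 2)) * ENNReal.ofReal m * volume K := by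
    calc ENNReal.ofReal c * volume K = ∫⁻ E in K, ENNReal.ofReal c := by
          rw [lintegral_const, Measure.restrict_apply_univ]
      _ ≤ ∫⁻ E in K, ((∫⁻ x in U, f E x ∂μ) +
            ENNReal.ofReal (1 / (L * d ^ 2)) * ENNReal.ofReal m) := by
          apply setLIntegral_mono' hKmeas
          intro E hE
          exact hsplit E hE
      _ = _ := by
          rw [lintegral_add_right _ measurable_const, lintegral_const,
            Measure.restrict_apply_univ]
  have hswap : (∫⁻ E in K, ∫⁻ x in U, f E x ∂μ) ≤ ENNReal.ofReal Real.pi * ENNReal.ofReal ζ := by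
    rw [lintegral_lintegral_swap hfm.aemeasurable]
    calc ∫⁻ x in U, (∫⁻ E in K, f E x) ∂μ
        ≤ ∫⁻ x in U, ENNReal.ofReal Real.pi ∂μ := by
          apply lintegral_mono
          intro x
          refine (setLIntegral_le_lintegral _ _).trans ?_
          exact (lintegral_poisson L hL0 x).le
      _ = ENNReal.ofReal Real.pi * μ U := by
          rw [lintegral_const, Measure.restrict_apply_univ]
      _ ≤ ENNReal.ofReal Real.pi * ENNReal.ofReal ζ := by gcongr
  have hfinal := hint.trans (add_le_add_left hswap _)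
  rw [hkeq] at hfinal
  rw [← ENNReal.ofReal_mul (by positivity), ← ENNReal.ofReal_mul (by positivity),
    ← ENNReal.ofReal_mul (by positivity), ← ENNReal.ofReal_mul (by positivity),
    ← ENNReal.ofReal_add (by positivity) (by positivity),
    ENNReal.ofReal_le_ofReal_iff (by positivity)] at hfinal
  have e1 : Real.pi * ζ = c * k / 4 := by
    rw [hζ]
    field_simp
  have e2 : 1 / ((L : ℝ) * d ^ 2) * m * k ≤ c * k / 4 := by
    rw [div_lt_iff₀ (by positivity)] at hL2
    have : 1 / ((L : ℝ) * d ^ 2) * m ≤ c / 4 := by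
      rw [one_div, inv_mul_le_iff₀ (by positivity)]
      nlinarith
    calc 1 / ((L : ℝ) * d ^ 2) * m * k ≤ c / 4 * k := by gcongr
      _ = c * k / 4 := by ring
  rw [e1] at hfinal
  have : 0 < c * k := by positivity
  linarith

end Pool.Agent.H99
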