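import Pool.Agent.H99.Cheb

/-!
Selection of a good integer `n` by averaging.
-/

set_option autoImplicit false

open MeasureTheory Filter Topology
open scoped ComplexConjugate

namespace Pool.Agent.H99

lemma avg_pow_tendsto_zero (u : ℂ) (hu : ‖u‖ = 1) (hu1 : u ≠ 1) (n0 : ℕ) :
    Tendsto (fun M : ℕ => (1 / (M : ℂ)) * ∑ i ∈ Finset.range M, u ^ (n0 + i)) atTop (𝓝 0) := by
  have hb : ∀ M : ℕ, ‖(1 / (M : ℂ)) * ∑ i ∈ Finset.range M, u ^ (n0 + i)‖ ≤
      (2 / ‖u - 1‖) * (1 / (M : ℝ)) := by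
    intro M
    have hne : u - 1 ≠ 0 := sub_ne_zero.2 hu1
    have h1 : ∑ i ∈ Finset.range M, u ^ (n0 + i) = u ^ n0 * ((u ^ M - 1) / (u - 1)) := by
      rw [← geom_sum_eq hu1, Finset.mul_sum]
      apply Finset.sum_congr rfl
      intro i _
      rw [pow_add]
    rw [h1, norm_mul, norm_mul, norm_div, norm_div, norm_pow, hu, one_pow, one_mul, norm_one,
      Complex.norm_natCast, mul_comm]
    have h2 : ‖u ^ M - 1‖ ≤ 2 := by
      calc ‖u ^ M - 1‖ ≤ ‖u ^ M‖ + ‖(1 : ℂ)‖ := norm_sub_le _ _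
        _ = 2 := by rw [norm_pow, hu]; norm_num
    apply mul_le_mul_of_nonneg_right _ (by positivity)
    exact div_le_div_of_nonneg_right h2 (norm_nonneg _)
  apply squeeze_zero_norm hb
  have := (tendsto_one_div_atTop_nhds_zero_nat (𝕜 := ℝ)).const_mul (2 / ‖u - 1‖)
  rwa [mul_zero] at this

lemma avg_pow_tendsto_one (n0 : ℕ) :
    Tendsto (fun M : ℕ => (1 / (M : ℂ)) * ∑ i ∈ Finset.range M, (1 : ℂ) ^ (n0 + i)) atTop (𝓝 1) := by
  apply Tendsto.congr' _ tendsto_const_nhds
  filter_upwards [eventually_gt_atTop 0] with M hM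
  have : (M : ℂ) ≠ 0 := by exact_mod_cast hM.ne'
  simp
  field_simp

/-- the square of the Dirichlet sum -/
noncomputable def DD (m : ℕ) (z : ℂ) (n : ℕ) : ℝ := ‖∑ j ∈ Finset.range m, z ^ (j * n)‖ ^ 2

lemma DD_eq (m : ℕ) (z : ℂ) (n : ℕ) :
    ((DD m z n : ℝ) : ℂ) = ∑ j ∈ Finset.range m, ∑ k ∈ Finset.range m,
      (z ^ j * (conj z) ^ k) ^ n := by
  unfold DD
  rw [Complex.ofReal_pow, ← Complex.mul_conj', map_sum, Finset.sum_mul_sum]
  apply Finset.sum_congr rfl
  intro j _
  apply Finset.sum_congr rfl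
  intro k _
  rw [map_pow, mul_pow, ← pow_mul, ← pow_mul]

lemma DD_le (m : ℕ) (z : ℂ) (hz : ‖z‖ = 1) (n : ℕ) : DD m z n ≤ (m : ℝ) ^ 2 := by
  unfold DD
  apply pow_le_pow_left₀ (norm_nonneg _)
  calc ‖∑ j ∈ Finset.range m, z ^ (j * n)‖ ≤ ∑ j ∈ Finset.range m, ‖z ^ (j * n)‖ := norm_sum_le _ _
    _ = m := by simp [norm_pow, hz]

lemma DD_nonneg (m : ℕ) (z : ℂ) (n : ℕ) : 0 ≤ DD m z n := by unfold DD; positivity

/-- average of the Dirichlet sums -/
lemma avg_DD (m : ℕ) (z : ℂ) (hz : ‖z‖ = 1) (hne : ∀ h, 0 < h → h < m → z ^ h ≠ 1) (n0 : ℕ) :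
    Tendsto (fun M : ℕ => (1 / (M : ℝ)) * ∑ i ∈ Finset.range M, DD m z (n0 + i)) atTop
      (𝓝 (m : ℝ)) := by
  have hcz : z * conj z = 1 := by
    rw [Complex.mul_conj', hz]; simp
  have hu : ∀ j k : ℕ, j < m → k < m → j ≠ k → z ^ j * (conj z) ^ k ≠ 1 := by
    have aux : ∀ j k : ℕ, k < j → j < m → z ^ j * (conj z) ^ k ≠ 1 := by
      intro j k hkj hjm heq
      obtain ⟨d, rfl⟩ := Nat.exists_eq_add_of_lt hkj
      have h1 : z ^ (k + d + 1) * (conj z) ^ k = z ^ (d + 1) := by
        have : z ^ (k + d + 1) = z ^ k * z ^ (d + 1) := by rw [← pow_add]; congr 1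
        rw [this, mul_right_comm, ← mul_pow, hcz, one_pow, one_mul]
      rw [h1] at heq
      exact hne (d + 1) (by omega) (by omega) heq
    intro j k hj hk hjk heq
    rcases lt_or_gt_of_ne hjk with hlt | hgt
    · -- j < k : conjugate
      have h2 := congrArg conj heq
      rw [map_mul, map_pow, map_pow, Complex.conj_conj, map_one, mul_comm] at h2
      exact aux k j hlt hk h2
    · exact aux j k hgt hj heq
  have hcomplex : Tendsto (fun M : ℕ => (((1 / (M : ℝ)) *
      ∑ i ∈ Finset.range M, DD m z (n0 + i) : ℝ) : ℂ)) atTop (𝓝 ((m : ℝ) : ℂ)) := by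
    have h1 : ∀ M : ℕ, (((1 / (M : ℝ)) * ∑ i ∈ Finset.range M, DD m z (n0 + i) : ℝ) : ℂ) =
        ∑ j ∈ Finset.range m, ∑ k ∈ Finset.range m,
          (1 / (M : ℂ)) * ∑ i ∈ Finset.range M, (z ^ j * (conj z) ^ k) ^ (n0 + i) := by
      intro M
      push_cast
      simp_rw [DD_eq]
      rw [Finset.sum_comm, Finset.mul_sum]
      apply Finset.sum_congr rfl
      intro j _
      rw [Finset.sum_comm, Finset.mul_sum]
    simp_rw [h1]
    have h2 : ((m : ℝ) : ℂ) = ∑ j ∈ Finset.range m, ∑ k ∈ Finset.range m,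
        (if j = k then (1 : ℂ) else 0) := by
      have : ∀ j ∈ Finset.range m, ∑ k ∈ Finset.range m, (if j = k then (1 : ℂ) else 0) = 1 := by
        intro j hj
        rw [Finset.sum_ite_eq, if_pos hj]
      rw [Finset.sum_congr rfl this]
      simp
    rw [h2]
    apply tendsto_finsetSum
    intro j hj
    apply tendsto_finsetSum
    intro k hk
    by_cases hjk : j = k
    · subst hjk
      have : z ^ j * (conj z) ^ j = 1 := by rw [← mul_pow, hcz, one_pow]
      simp only [this, if_true]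
      exact avg_pow_tendsto_one n0
    · rw [if_neg hjk]
      apply avg_pow_tendsto_zero
      · rw [norm_mul, norm_pow, norm_pow, Complex.norm_conj, hz]; simp
      · exact hu j k (Finset.mem_range.1 hj) (Finset.mem_range.1 hk) hjk
  have h9 := (Complex.continuous_re.tendsto _).comp hcomplex
  rw [Complex.ofReal_re] at h9
  refine h9.congr (fun M => ?_)
  exact Complex.ofReal_re _

/-- lower bound of the Dirichlet sum near one -/
lemma DD_lower (m : ℕ) (hm : 0 < m) (z : ℂ) (hz : ‖z‖ = 1) (n : ℕ) (hn : ‖z ^ n - 1‖ < 1 / m) :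
    (m : ℝ) ^ 2 / 4 ≤ DD m z n := by
  have hm' : (0 : ℝ) < m := by exact_mod_cast hm
  have hj : ∀ j : ℕ, ‖z ^ (j * n) - 1‖ ≤ j * ‖z ^ n - 1‖ := by
    intro j
    induction j with
    | zero => simp
    | succ j ih =>
      have e : z ^ ((j + 1) * n) - 1 = z ^ (j * n) * (z ^ n - 1) + (z ^ (j * n) - 1) := by
        rw [Nat.succ_mul, pow_add]; ring
      rw [e]
      refine (norm_add_le _ _).trans ?_
      rw [norm_mul, norm_pow, hz, one_pow, one_mul]
      push_cast
      linarith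
  have h1 : ‖∑ j ∈ Finset.range m, (z ^ (j * n) - 1)‖ ≤ m / 2 := by
    calc ‖∑ j ∈ Finset.range m, (z ^ (j * n) - 1)‖
        ≤ ∑ j ∈ Finset.range m, ‖z ^ (j * n) - 1‖ := norm_sum_le _ _
      _ ≤ ∑ j ∈ Finset.range m, (j : ℝ) * (1 / m) := by
          apply Finset.sum_le_sum
          intro j _
          exact (hj j).trans (mul_le_mul_of_nonneg_left hn.le (Nat.cast_nonneg j))
      _ ≤ m / 2 := by
          rw [← Finset.sum_mul]
          have e1 : (∑ j ∈ Finset.range m, (j : ℝ)) = m * (m - 1) / 2 := by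
            have : ∀ m : ℕ, (∑ j ∈ Finset.range m, (j : ℝ)) = m * (m - 1) / 2 := by
              intro m
              induction m with
              | zero => simp
              | succ m ih => rw [Finset.sum_range_succ, ih]; push_cast; ring
            exact this m
          rw [e1, mul_one_div, div_div, div_le_div_iff₀ (by positivity) (by norm_num)]
          nlinarith
  have h2 : (m : ℝ) / 2 ≤ ‖∑ j ∈ Finset.range m, z ^ (j * n)‖ := by
    have e2 : ∑ j ∈ Finset.range m, (z ^ (j * n) - 1) = (∑ j ∈ Finset.range m, z ^ (j * n)) - m := by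
      rw [Finset.sum_sub_distrib]; simp
    rw [e2] at h1
    have e3 : ‖(m : ℂ)‖ ≤ ‖∑ j ∈ Finset.range m, z ^ (j * n)‖ +
        ‖(∑ j ∈ Finset.range m, z ^ (j * n)) - m‖ := by
      have := norm_sub_le (∑ j ∈ Finset.range m, z ^ (j * n)) ((∑ j ∈ Finset.range m, z ^ (j * n)) - m)
      rwa [sub_sub_cancel] at this
    rw [Complex.norm_natCast] at e3
    linarith
  unfold DD
  calc (m : ℝ) ^ 2 / 4 = (m / 2) ^ 2 := by ring
    _ ≤ _ := pow_le_pow_left₀ (by positivity) h2 2

/-- the point on the circle -/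
noncomputable def zz (t : ℝ) : ℂ := Complex.exp (Complex.I * ((2 * Real.arccos t : ℝ) : ℂ))

lemma zz_norm (t : ℝ) : ‖zz t‖ = 1 := by
  unfold zz
  rw [mul_comm, Complex.norm_exp_ofReal_mul_I]

lemma zz_pow_sub_one {t : ℝ} (ht : |t| < 1) (n : ℕ) :
    ‖zz t ^ n - 1‖ = 2 * (|sch t n| * Real.sqrt (1 - t ^ 2)) := by
  have h1 : zz t ^ n = Complex.exp (Complex.I * ((n * (2 * Real.arccos t) : ℝ) : ℂ)) := by
    unfold zz
    rw [← Complex.exp_nat_mul]
    congr 1
    push_cast
    ring
  rw [h1, Complex.norm_exp_I_mul_ofReal_sub_one]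
  have h2 : (n : ℝ) * (2 * Real.arccos t) / 2 = n * Real.arccos t := by ring
  rw [h2]
  have h3 := sch_cos (Real.arccos t) n
  rw [Real.cos_arccos (by linarith [(abs_lt.1 ht).1]) (abs_lt.1 ht).2.le, Real.sin_arccos] at h3
  rw [← h3]
  simp [abs_of_nonneg (Real.sqrt_nonneg _)]

lemma zz_measurable : Measurable zz := by
  unfold zz
  have : Continuous (fun t : ℝ => Complex.exp (Complex.I * ((2 * Real.arccos t : ℝ) : ℂ))) := by
    have := Real.continuous_arccos
    fun_prop
  exact this.measurable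

theorem select (A : Set ℝ) (hA : MeasurableSet A) (hvol : volume A ≤ 2) (t : ℝ → ℝ)
    (ht : Measurable t) (hlt : ∀ E ∈ A, |t E| < 1)
    (hne : ∀ h : ℕ, 0 < h → volume {E : ℝ | sch (t E) h = 0} = 0) (m : ℕ) (hm : 0 < m) (n0 : ℕ) :
    ∃ n, n0 ≤ n ∧ volume {E | E ∈ A ∧ |sch (t E) n| * Real.sqrt (1 - (t E) ^ 2) < 1 / (2 * m)} ≤
      ENNReal.ofReal (16 / m) := by
  have hm' : (0 : ℝ) < m := by exact_mod_cast hm
  have hAfin : volume A < ⊤ := lt_of_le_of_lt hvol (by simp)
  have hAreal : volume.real A ≤ 2 := by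
    have := ENNReal.toReal_mono (by simp) hvol
    simpa [Measure.real] using this
  have : IsFiniteMeasure (volume.restrict A) := ⟨by simpa using hAfin⟩
  set D : ℕ → ℝ → ℝ := fun n E => DD m (zz (t E)) n with hD
  have hDm : ∀ n, Measurable (D n) := by
    intro n
    have h1 : Continuous (fun z : ℂ => DD m z n) := by
      unfold DD; fun_prop
    exact h1.measurable.comp (zz_measurable.comp ht)
  have hDint : ∀ n, Integrable (D n) (volume.restrict A) := by
    intro n
    apply Integrable.mono' (integrable_const ((m : ℝ) ^ 2)) (hDm n).aestronglyMeasurable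
    filter_upwards with E
    rw [Real.norm_eq_abs, abs_of_nonneg (DD_nonneg _ _ _)]
    exact DD_le m _ (zz_norm _) n
  -- convergence
  have hconv : Tendsto (fun M : ℕ => ∫ E in A, (1 / (M : ℝ)) * ∑ i ∈ Finset.range M, D (n0 + i) E)
      atTop (𝓝 (∫ E in A, (m : ℝ))) := by
    apply tendsto_integral_of_dominated_convergence (fun _ => (m : ℝ) ^ 2)
    · intro M
      apply Measurable.aestronglyMeasurable
      apply Measurable.const_mul
      apply Finset.measurable_sum
      intro i _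
      exact hDm _
    · exact integrable_const _
    · intro M
      filter_upwards with E
      have h1 : 0 ≤ (1 / (M : ℝ)) * ∑ i ∈ Finset.range M, D (n0 + i) E := by
        apply mul_nonneg (by positivity)
        exact Finset.sum_nonneg (fun i _ => DD_nonneg _ _ _)
      rw [Real.norm_eq_abs, abs_of_nonneg h1]
      rcases Nat.eq_zero_or_pos M with rfl | hM
      · simp
      have hM' : (0 : ℝ) < M := by exact_mod_cast hM
      calc (1 / (M : ℝ)) * ∑ i ∈ Finset.range M, D (n0 + i) E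
          ≤ (1 / (M : ℝ)) * ∑ i ∈ Finset.range M, (m : ℝ) ^ 2 := by
            apply mul_le_mul_of_nonneg_left _ (by positivity)
            exact Finset.sum_le_sum (fun i _ => DD_le m _ (zz_norm _) _)
        _ = (m : ℝ) ^ 2 := by
            rw [Finset.sum_const, Finset.card_range, nsmul_eq_mul]
            field_simp
    · have hae : ∀ᵐ E ∂(volume : Measure ℝ), ∀ h : ℕ, 0 < h → sch (t E) h ≠ 0 := by
        rw [ae_all_iff]
        intro h
        by_cases hh : 0 < h
        · have h1 : ∀ᵐ E ∂(volume : Measure ℝ), sch (t E) h ≠ 0 := by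
            rw [ae_iff]
            simpa using hne h hh
          filter_upwards [h1] with E hE _
          exact hE
        · filter_upwards with E hcon
          exact absurd hcon hh
      have hae2 : ∀ᵐ E ∂(volume.restrict A), ∀ h : ℕ, 0 < h → sch (t E) h ≠ 0 :=
        ae_restrict_of_ae hae
      filter_upwards [hae2, ae_restrict_mem hA] with E hE hEA
      apply avg_DD m (zz (t E)) (zz_norm _)
      intro h hh _ heq
      have h1 := zz_pow_sub_one (hlt E hEA) h
      rw [heq, sub_self, norm_zero] at h1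
      have h2 : 0 < |sch (t E) h| := abs_pos.2 (hE h hh)
      have h3 : 0 < Real.sqrt (1 - (t E) ^ 2) := by
        apply Real.sqrt_pos.2
        have := (sq_lt_one_iff_abs_lt_one (t E)).2 (hlt E hEA)
        linarith
      have h4 : 0 < 2 * (|sch (t E) h| * Real.sqrt (1 - (t E) ^ 2)) := by positivity
      linarith
  have hlimval : ∫ E in A, (m : ℝ) < 3 * m := by
    rw [integral_const, smul_eq_mul]
    have : (volume.restrict A).real Set.univ = volume.real A := by
      simp [Measure.real]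
    rw [this]
    nlinarith
  obtain ⟨M, hMlt, hMpos⟩ := ((hconv.eventually (gt_mem_nhds hlimval)).and
    (eventually_gt_atTop 0)).exists
  have hM' : (0 : ℝ) < M := by exact_mod_cast hMpos
  -- pigeonhole
  obtain ⟨i, _, hi⟩ : ∃ i ∈ Finset.range M, ∫ E in A, D (n0 + i) E ≤ 3 * m := by
    by_contra hcon
    push Not at hcon
    have h1 : ∑ i ∈ Finset.range M, (3 * (m : ℝ)) < ∑ i ∈ Finset.range M, ∫ E in A, D (n0 + i) E := by
      apply Finset.sum_lt_sum_of_nonempty
      · exact Finset.nonempty_range_iff.2 hMpos.ne'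
      · exact hcon
    rw [integral_const_mul, integral_finsetSum _ (fun i _ => hDint _)] at hMlt
    rw [Finset.sum_const, Finset.card_range, nsmul_eq_mul] at h1
    rw [one_div, inv_mul_lt_iff₀ hM'] at hMlt
    linarith
  refine ⟨n0 + i, Nat.le_add_right _ _, ?_⟩
  set n := n0 + i with hn
  have hmarkov := mul_meas_ge_le_integral_of_nonneg (μ := volume.restrict A) (f := D n)
    (by filter_upwards with E; exact DD_nonneg _ _ _) (hDint n) ((m : ℝ) ^ 2 / 4)
  have hsub : {E | E ∈ A ∧ |sch (t E) n| * Real.sqrt (1 - (t E) ^ 2) < 1 / (2 * m)} ⊆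
      {E | (m : ℝ) ^ 2 / 4 ≤ D n E} ∩ A := by
    intro E hE
    refine ⟨?_, hE.1⟩
    apply DD_lower m hm _ (zz_norm _)
    rw [zz_pow_sub_one (hlt E hE.1)]
    have := hE.2
    calc 2 * (|sch (t E) n| * Real.sqrt (1 - (t E) ^ 2)) < 2 * (1 / (2 * m)) := by
          linarith
      _ = 1 / m := by field_simp
  have hmeas : MeasurableSet {E | (m : ℝ) ^ 2 / 4 ≤ D n E} :=
    measurableSet_le measurable_const (hDm n)
  refine (measure_mono hsub).trans ?_
  rw [← Measure.restrict_apply hmeas]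
  have hfin : (volume.restrict A) {E | (m : ℝ) ^ 2 / 4 ≤ D n E} ≠ ⊤ := measure_ne_top _ _
  rw [← ENNReal.ofReal_toReal hfin]
  apply ENNReal.ofReal_le_ofReal
  have h5 : (m : ℝ) ^ 2 / 4 * ((volume.restrict A) {E | (m : ℝ) ^ 2 / 4 ≤ D n E}).toReal ≤ 3 * m :=
    hmarkov.trans hi
  rw [le_div_iff₀ hm']
  have h6 : ((volume.restrict A) {E | (m : ℝ) ^ 2 / 4 ≤ D n E}).toReal * m * m ≤ 12 * m := by
    nlinarith
  have h7 := le_of_mul_le_mul_right h6 hm'
  linarith

end Pool.Agent.H99
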