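import Pool.Agent.H99.Transfer
import Pool.Agent.H99.Eigen
import Pool.Agent.H99.Select
import Pool.Agent.H99.NotSing

/-!
Choice of the block lengths and final assembly.
-/

set_option autoImplicit false

open MeasureTheory Filter Topology

namespace Pool.Agent.H99

/-- the coefficients -/
noncomputable def ccs (k : ℕ) : ℝ := if k = 0 then 1 + (1 / 2) ^ 34 else 2 ^ k + 1

/-- thresholds for the block lengths -/
def th (k : ℕ) : ℕ := 2 ^ (3 * k + 21)

lemma ccs_zero : ccs 0 = 1 + (1 / 2) ^ 34 := by simp [ccs]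
lemma ccs_succ (k : ℕ) : ccs (k + 1) = 2 ^ (k + 1) + 1 := by simp [ccs]

lemma ccs_gt (k : ℕ) : 1 < ccs k := by
  cases k with
  | zero => rw [ccs_zero]; norm_num
  | succ k => rw [ccs_succ]; linarith [pow_pos (show (0 : ℝ) < 2 by norm_num) (k + 1)]

section
variable {N : ℕ → ℕ}

lemma th_pos (k : ℕ) : 2 ^ 21 ≤ th k := by
  unfold th
  exact Nat.pow_le_pow_right (by norm_num) (by omega)

lemma PP_ge' (hN : ∀ k, th k ≤ N k) (k : ℕ) : 1 ≤ PP ccs N k := by
  induction k with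
  | zero => simp [PP]
  | succ k ih =>
    simp only [PP]
    have h1 : 1 ≤ sch (ccs k) (N k) := sch_one_le (ccs_gt k).le (by
      have := hN k; have := th_pos k; omega)
    nlinarith

lemma PP_ge (hN : ∀ k, th k ≤ N k) (k : ℕ) : (2 : ℝ) ^ (3 * k + 21) ≤ PP ccs N (k + 1) := by
  simp only [PP]
  have h1 := PP_ge' hN k
  have h2 : (N k : ℝ) ≤ sch (ccs k) (N k) := sch_ge (ccs_gt k).le _
  have h3 : ((th k : ℕ) : ℝ) ≤ N k := by exact_mod_cast hN k
  have h4 : ((th k : ℕ) : ℝ) = 2 ^ (3 * k + 21) := by unfold th; push_cast; rfl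
  have h5 : (0 : ℝ) ≤ 2 ^ (3 * k + 21) := by positivity
  calc (2 : ℝ) ^ (3 * k + 21) = 1 * 2 ^ (3 * k + 21) := (one_mul _).symm
    _ ≤ PP ccs N k * sch (ccs k) (N k) := by
        apply mul_le_mul h1 _ h5 (by linarith)
        linarith

lemma good (hN : ∀ k, th k ≤ N k) : Good ccs N where
  hcc := ccs_gt
  hN := fun k => by have := hN k; have := th_pos k; omega
  hs1 := by
    rw [← summable_nat_add_iff 1]
    have : (fun k : ℕ => 1 / (ccs (k + 1) - 1)) = fun k : ℕ => (1 / 2 : ℝ) * (1 / 2) ^ k := by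
      funext k
      rw [ccs_succ, add_sub_cancel_right, ← pow_succ', one_div_pow]
    rw [this]
    exact summable_geometric_two.mul_left _
  hs2 := by
    rw [← summable_nat_add_iff 1]
    apply Summable.of_nonneg_of_le _ _ (summable_geometric_two)
    · intro k
      have h1 := PP_ge' hN (k + 1)
      have h2 := ccs_gt (k + 1)
      apply div_nonneg <;> linarith
    · intro k
      have h1 := PP_ge hN k
      have h2 := PP_ge' hN (k + 1)
      rw [div_le_iff₀ (by linarith), ccs_succ]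
      have h3 : ((1 : ℝ) / 2) ^ k * 2 ^ (3 * k + 21) = 2 ^ (2 * k + 21) := by
        have : 3 * k + 21 = k + (2 * k + 21) := by ring
        rw [this, pow_add, ← mul_assoc, ← mul_pow]
        norm_num
      have h4 : ((1 : ℝ) / 2) ^ k * 2 ^ (3 * k + 21) ≤ (1 / 2) ^ k * PP ccs N (k + 1) :=
        mul_le_mul_of_nonneg_left h1 (by positivity)
      rw [h3] at h4
      have h5 : (2 : ℝ) ^ (k + 1) ≤ 2 ^ (2 * k + 20) := pow_le_pow_right₀ (by norm_num) (by omega)
      have h6 : (1 : ℝ) ≤ 2 ^ (2 * k + 20) := one_le_pow₀ (by norm_num)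
      have h7 : (2 : ℝ) ^ (2 * k + 21) = 2 ^ (2 * k + 20) + 2 ^ (2 * k + 20) := by
        rw [pow_succ]; ring
      linarith

lemma dl_tol (hN : ∀ k, th k ≤ N k) (k : ℕ) : |dl ccs N k| ≤ tol k := by
  have hg := good hN
  cases k with
  | zero =>
    rw [dl_eq]
    have hNk := hN 0
    obtain ⟨n, hn⟩ : ∃ n, N 0 = n + 1 := ⟨N 0 - 1, by have := th_pos 0; omega⟩
    have e1 : PP ccs N 0 = 1 := rfl
    have e2 : PP ccs N (0 + 1) = sch (ccs 0) (n + 1) := by
      rw [PP_succ, e1, one_mul, hn]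
    rw [e1, e2, hn, Nat.add_sub_cancel]
    set c := ccs 0 with hc
    set s1 := sch c (n + 1) with hs1
    set s0 := sch c n with hs0
    have hc1 : 1 < c := ccs_gt 0
    have hs1ge : (2 : ℝ) ^ 21 ≤ s1 := by
      have h1 : ((n + 1 : ℕ) : ℝ) ≤ s1 := sch_ge hc1.le (n + 1)
      have h2 : ((th 0 : ℕ) : ℝ) ≤ ((n + 1 : ℕ) : ℝ) := by rw [← hn]; exact_mod_cast hNk
      have h3 : ((th 0 : ℕ) : ℝ) = 2 ^ 21 := by unfold th; norm_num
      linarith
    have hs1pos : 0 < s1 := by
      have : (0 : ℝ) < 2 ^ 21 := by positivity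
      linarith
    have hquad := sch_quad c n
    rw [← hs1, ← hs0] at hquad
    set ρ := s0 / s1 with hρ
    have hρeq : (c - ρ) ^ 2 = c ^ 2 - 1 + (1 / s1) ^ 2 := by
      rw [hρ]
      field_simp
      linear_combination hquad
    have hinv : 1 / s1 ≤ 1 / 2 ^ 21 := one_div_le_one_div_of_le (by positivity) hs1ge
    have hinv0 : 0 < 1 / s1 := by positivity
    have hc2 : c ^ 2 - 1 ≤ 3 * (1 / 2) ^ 34 := by
      rw [hc, ccs_zero]
      norm_num
    have hsq : (c - ρ) ^ 2 ≤ ((1 / 2) ^ 16) ^ 2 := by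
      rw [hρeq]
      have h1 : (1 / s1) ^ 2 ≤ (1 / 2 ^ 21) ^ 2 := pow_le_pow_left₀ hinv0.le hinv 2
      have h2 : (3 : ℝ) * (1 / 2) ^ 34 + (1 / 2 ^ 21) ^ 2 ≤ ((1 / 2) ^ 16) ^ 2 := by norm_num
      linarith
    have habs : |c - ρ| ≤ (1 / 2) ^ 16 := abs_le_of_sq_le_sq hsq (by positivity)
    have hc11 : ccs (0 + 1) = 3 := by rw [ccs_succ]; norm_num
    rw [hc11]
    have h5 : 2 * c / 1 - 2 * (s0 / s1) - 2 * 3 / s1 = 2 * (c - ρ) - 6 * (1 / s1) := by
      rw [hρ]; ring
    rw [h5]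
    have h6 := abs_le.1 habs
    rw [abs_le]
    have htol : tol 0 = (1 / 2) ^ 14 := by unfold tol; norm_num
    have h7 : (6 : ℝ) * (1 / 2 ^ 21) ≤ (1 / 2) ^ 15 := by norm_num
    have h8 : (2 : ℝ) * (1 / 2) ^ 16 = (1 / 2) ^ 15 := by norm_num
    have h9 : ((1 : ℝ) / 2) ^ 15 + (1 / 2) ^ 15 = (1 / 2) ^ 14 := by norm_num
    rw [htol, ← h9]
    constructor
    · linarith [h6.1]
    · linarith [h6.2]
  | succ k =>
    rw [dl_eq]
    have h0 := PP_ge hN k
    have hP : 0 < PP ccs N (k + 1) := PP_pos hg _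
    set P := PP ccs N (k + 1) with hPdef
    have hs : 0 < sch (ccs (k + 1)) (N (k + 1)) := schN_pos hg _
    have hs1 : 1 ≤ sch (ccs (k + 1)) (N (k + 1)) := sch_one_le (ccs_gt _).le (N_pos hg _)
    have hP2 : PP ccs N (k + 1 + 1) = P * sch (ccs (k + 1)) (N (k + 1)) := rfl
    rw [hP2]
    set s := sch (ccs (k + 1)) (N (k + 1)) with hsdef
    set s0 := sch (ccs (k + 1)) (N (k + 1) - 1) with hs0def
    have hs0 : 0 ≤ s0 := sch_nonneg (ccs_gt _).le _
    have hs0s : s0 ≤ s := by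
      obtain ⟨n, hn⟩ : ∃ n, N (k + 1) = n + 1 := ⟨N (k + 1) - 1, by have := N_pos hg (k+1); omega⟩
      rw [hs0def, hsdef, hn]
      exact (sch_lt_succ (ccs_gt _).le n).le
    have t1 : 0 ≤ s0 / (P * s) ∧ s0 / (P * s) ≤ 1 / P := by
      constructor
      · positivity
      · rw [div_le_div_iff₀ (by positivity) hP]
        nlinarith [mul_le_mul_of_nonneg_left hs0s hP.le]
    have hc2 : 0 < ccs (k + 1 + 1) := by linarith [ccs_gt (k + 1 + 1)]
    have hc1 : 0 < ccs (k + 1) := by linarith [ccs_gt (k + 1)]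
    have t2 : 0 ≤ ccs (k + 1 + 1) / (P * s) ∧ ccs (k + 1 + 1) / (P * s) ≤ ccs (k + 1 + 1) / P := by
      constructor
      · positivity
      · apply div_le_div_of_nonneg_left hc2.le hP
        nlinarith
    have t3 : 0 ≤ ccs (k + 1) / P := by positivity
    have hb : |2 * ccs (k + 1) / P - 2 * (s0 / (P * s)) - 2 * ccs (k + 1 + 1) / (P * s)| ≤
        2 * (ccs (k + 1) / P) + 2 * (1 / P) + 2 * (ccs (k + 1 + 1) / P) := by
      have h1 : 2 * ccs (k + 1) / P - 2 * (s0 / (P * s)) - 2 * ccs (k + 1 + 1) / (P * s)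
          = 2 * (ccs (k + 1) / P) - 2 * (s0 / (P * s)) - 2 * (ccs (k + 1 + 1) / (P * s)) := by ring
      rw [h1, abs_le]
      constructor
      · linarith [t1.1, t1.2, t2.1, t2.2, t3]
      · linarith [t1.1, t1.2, t2.1, t2.2, t3]
    refine hb.trans ?_
    have h2 : 2 * (ccs (k + 1) / P) + 2 * (1 / P) + 2 * (ccs (k + 1 + 1) / P) =
        (2 * ccs (k + 1) + 2 + 2 * ccs (k + 1 + 1)) / P := by ring
    rw [h2, div_le_iff₀ hP, ccs_succ, ccs_succ]
    have h3 : tol (k + 1) * 2 ^ (3 * k + 21) = 2 ^ (k + 5) := by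
      unfold tol
      have e : 3 * k + 21 = (2 * (k + 1) + 14) + (k + 5) := by ring
      rw [e, pow_add _ (2 * (k + 1) + 14) (k + 5), ← mul_assoc, ← mul_pow]
      norm_num
    have h4 : tol (k + 1) * 2 ^ (3 * k + 21) ≤ tol (k + 1) * P :=
      mul_le_mul_of_nonneg_left h0 (by unfold tol; positivity)
    rw [h3] at h4
    have h5 : (1 : ℝ) ≤ 2 ^ k := one_le_pow₀ (by norm_num)
    have h6 : (2 : ℝ) ^ (k + 1) = 2 * 2 ^ k := by rw [pow_succ]; ring
    have h7 : (2 : ℝ) ^ (k + 1 + 1) = 4 * 2 ^ k := by rw [pow_succ, pow_succ]; ring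
    have h8 : (2 : ℝ) ^ (k + 5) = 32 * 2 ^ k := by rw [pow_add]; norm_num; ring
    rw [h6, h7]
    rw [h8] at h4
    linarith

/-- functions given by polynomials -/
def IsPoly (f : ℝ → ℝ) : Prop := ∃ p : Polynomial ℝ, ∀ E, f E = p.eval E

lemma IsPoly.const (r : ℝ) : IsPoly (fun _ => r) := ⟨Polynomial.C r, fun E => by simp⟩
lemma IsPoly.id : IsPoly (fun E => E) := ⟨Polynomial.X, fun E => by simp⟩
lemma IsPoly.add {f g : ℝ → ℝ} (hf : IsPoly f) (hg : IsPoly g) : IsPoly (fun E => f E + g E) := by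
  obtain ⟨p, hp⟩ := hf
  obtain ⟨q, hq⟩ := hg
  exact ⟨p + q, fun E => by change f E + g E = _; rw [Polynomial.eval_add, hp, hq]⟩
lemma IsPoly.sub {f g : ℝ → ℝ} (hf : IsPoly f) (hg : IsPoly g) : IsPoly (fun E => f E - g E) := by
  obtain ⟨p, hp⟩ := hf
  obtain ⟨q, hq⟩ := hg
  exact ⟨p - q, fun E => by change f E - g E = _; rw [Polynomial.eval_sub, hp, hq]⟩
lemma IsPoly.mul {f g : ℝ → ℝ} (hf : IsPoly f) (hg : IsPoly g) : IsPoly (fun E => f E * g E) := by
  obtain ⟨p, hp⟩ := hf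
  obtain ⟨q, hq⟩ := hg
  exact ⟨p * q, fun E => by change f E * g E = _; rw [Polynomial.eval_mul, hp, hq]⟩
lemma IsPoly.sch {f : ℝ → ℝ} (hf : IsPoly f) (n : ℕ) :
    IsPoly (fun E => Pool.Agent.H99.sch (f E) n) := by
  obtain ⟨p, hp⟩ := hf
  exact ⟨Pool.Agent.H99.sch p n, fun E => by change Pool.Agent.H99.sch (f E) n = _; rw [sch_eval, hp]⟩
lemma IsPoly.continuous {f : ℝ → ℝ} (hf : IsPoly f) : Continuous f := by
  obtain ⟨p, hp⟩ := hf
  have : f = fun E => p.eval E := funext hp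
  rw [this]
  exact p.continuous

lemma IsPoly.null {f : ℝ → ℝ} (hf : IsPoly f) {E0 : ℝ} (h0 : f E0 ≠ 0) :
    volume {E : ℝ | f E = 0} = 0 := by
  obtain ⟨p, hp⟩ := hf
  have hp0 : p ≠ 0 := by
    rintro rfl
    rw [hp] at h0
    simp at h0
  have hfin : {E : ℝ | f E = 0}.Finite := by
    have : {E : ℝ | f E = 0} ⊆ (p.roots.toFinset : Set ℝ) := by
      intro E hE
      rw [Finset.mem_coe, Multiset.mem_toFinset, Polynomial.mem_roots hp0, Polynomial.IsRoot.def,
        ← hp]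
      exact hE
    exact (Finset.finite_toSet _).subset this
  exact hfin.measure_zero _

lemma TE_poly (cc : ℕ → ℝ) (N : ℕ → ℕ) (k : ℕ) :
    IsPoly (fun E => (TE cc N E k).a) ∧ IsPoly (fun E => (TE cc N E k).b) ∧
    IsPoly (fun E => (TE cc N E k).c) ∧ IsPoly (fun E => (TE cc N E k).d) ∧
    IsPoly (fun E => (TE cc N E k).ht) := by
  have hht : ∀ k, IsPoly (fun E => (TE cc N E k).a) → IsPoly (fun E => (TE cc N E k).d) →
      IsPoly (fun E => (TE cc N E k).ht) := by
    intro k ha hd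
    have := (ha.add hd).mul (IsPoly.const (1 / 2))
    refine ⟨this.choose, fun E => ?_⟩
    rw [← this.choose_spec]
    unfold M2.ht
    ring
  induction k with
  | zero =>
    have ha : IsPoly (fun E => (TE cc N E 0).a) := IsPoly.id
    have hb : IsPoly (fun E => (TE cc N E 0).b) := IsPoly.const (-1)
    have hc : IsPoly (fun E => (TE cc N E 0).c) := IsPoly.const 1
    have hd : IsPoly (fun E => (TE cc N E 0).d) := IsPoly.const 0
    exact ⟨ha, hb, hc, hd, hht 0 ha hd⟩
  | succ k ih =>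
    obtain ⟨ha, hb, hc, hd, ht⟩ := ih
    have ha' : IsPoly (fun E => (TE cc N E (k + 1)).a) :=
      (((ht.sch (N k)).mul ha).sub (ht.sch (N k - 1))).sub
        ((IsPoly.const (dl cc N k)).mul ((ht.sch (N k)).mul hc))
    have hb' : IsPoly (fun E => (TE cc N E (k + 1)).b) :=
      ((ht.sch (N k)).mul hb).sub
        ((IsPoly.const (dl cc N k)).mul (((ht.sch (N k)).mul hd).sub (ht.sch (N k - 1))))
    have hc' : IsPoly (fun E => (TE cc N E (k + 1)).c) := (ht.sch (N k)).mul hc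
    have hd' : IsPoly (fun E => (TE cc N E (k + 1)).d) :=
      ((ht.sch (N k)).mul hd).sub (ht.sch (N k - 1))
    exact ⟨ha', hb', hc', hd', hht (k + 1) ha' hd'⟩

/-- values at the eigenvalue energy -/
lemma TE_at {cc : ℕ → ℝ} (h : Good cc N) (k : ℕ) :
    (TE cc N (2 * cc 0) k).ht = cc k ∧ (TE cc N (2 * cc 0) k).c = PP cc N k := by
  induction k with
  | zero =>
    constructor
    · simp [TE, M2.ht]
    · simp [TE, PP]
  | succ k ih =>
    obtain ⟨h1, h2⟩ := ih
    have hs := (schN_pos h k).ne'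
    have hP := (PP_pos h k).ne'
    constructor
    · have e1 : (TE cc N (2 * cc 0) (k + 1)).ht =
          (TE cc N (2 * cc 0) k).ht * sch (TE cc N (2 * cc 0) k).ht (N k)
            - sch (TE cc N (2 * cc 0) k).ht (N k - 1)
            - dl cc N k / 2 * (sch (TE cc N (2 * cc 0) k).ht (N k) * (TE cc N (2 * cc 0) k).c) := by
        change (M2.stepM _ _ _).ht = _
        unfold M2.stepM M2.ht
        simp only
        ring
      rw [e1, h1, h2, dl_eq, PP_succ]
      field_simp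
      ring
    · have e1 : (TE cc N (2 * cc 0) (k + 1)).c =
          sch (TE cc N (2 * cc 0) k).ht (N k) * (TE cc N (2 * cc 0) k).c := rfl
      rw [e1, h1, h2, PP_succ, mul_comm]

lemma AA_zero (cc : ℕ → ℝ) (N : ℕ → ℕ) : AA cc N 0 = Set.Icc (-1) 1 := by
  ext E
  simp [AA, abs_le]

lemma AA_sub (cc : ℕ → ℝ) (N : ℕ → ℕ) (k : ℕ) : AA cc N k ⊆ Set.Icc (-1) 1 := by
  intro E hE
  exact abs_le.1 hE.1

lemma AA_volume (cc : ℕ → ℝ) (N : ℕ → ℕ) (k : ℕ) : volume (AA cc N k) ≤ 2 := by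
  refine (measure_mono (AA_sub cc N k)).trans ?_
  rw [Real.volume_Icc]
  norm_num

lemma AA_measurable (cc : ℕ → ℝ) (N : ℕ → ℕ) (k : ℕ) : MeasurableSet (AA cc N k) := by
  have hclosed : IsClosed (AA cc N k) := by
    have : AA cc N k = {E | |E| ≤ 1} ∩ ⋂ j ∈ Finset.range k, {E | cond cc N E j} := by
      ext E
      simp [AA]
    rw [this]
    apply IsClosed.inter
    · exact isClosed_le continuous_abs continuous_const
    · apply isClosed_biInter
      intro j _
      unfold cond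
      have h1 := (TE_poly cc N j).2.2.2.2
      have h2 := (h1.sch (N j)).continuous
      have h3 := h1.continuous
      exact isClosed_le continuous_const (h2.abs.mul (by fun_prop))
  exact hclosed.measurableSet

/-- selection of the next block length -/
lemma select_step (hN : ∀ k, th k ≤ N k) (k : ℕ) :
    ∃ n, th k ≤ n ∧ volume {E | E ∈ AA ccs N k ∧
      |sch (TE ccs N E k).ht n| * Real.sqrt (1 - (TE ccs N E k).ht ^ 2) < et k} ≤
        ENNReal.ofReal ((1 / 2) ^ (k + 2)) := by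
  have hg := good hN
  have hNpos : ∀ k, 0 < N k := fun k => N_pos hg k
  have hpoly := (TE_poly ccs N k).2.2.2.2
  obtain ⟨n, hn, hvol⟩ := select (AA ccs N k) (AA_measurable _ _ k) (AA_volume _ _ k)
    (fun E => (TE ccs N E k).ht) hpoly.continuous.measurable
    (fun E hE => (TE_inv hNpos (dl_tol hN) hE.1 k hE.2).1)
    (fun h hh => by
      apply (hpoly.sch h).null (E0 := 2 * ccs 0)
      rw [(TE_at hg k).1]
      exact (sch_pos (ccs_gt k).le hh).ne')
    (2 ^ (k + 6)) (by positivity) (th k)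
  refine ⟨n, hn, ?_⟩
  have e1 : (1 : ℝ) / (2 * ((2 ^ (k + 6) : ℕ) : ℝ)) = et k := by
    unfold et
    push_cast
    rw [one_div_pow, pow_succ _ (k + 6)]
    ring
  have e2 : (16 : ℝ) / ((2 ^ (k + 6) : ℕ) : ℝ) = (1 / 2) ^ (k + 2) := by
    push_cast
    rw [one_div_pow, pow_add _ k 6, pow_add _ k 2]
    field_simp
    norm_num
  rw [e1, e2] at hvol
  exact hvol

end

/-! locality -/

section loc
variable {cc : ℕ → ℝ} {N N' : ℕ → ℕ}

lemma PP_loc (k : ℕ) (h : ∀ j < k, N j = N' j) : PP cc N k = PP cc N' k := by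
  induction k with
  | zero => rfl
  | succ k ih => rw [PP_succ, PP_succ, ih (fun j hj => h j (by omega)), h k (by omega)]

lemma XX_loc (k : ℕ) (h : ∀ j < k, N j = N' j) : XX cc N k = XX cc N' k := by
  induction k with
  | zero => rfl
  | succ k ih => rw [XX_succ, XX_succ, ih (fun j hj => h j (by omega)), h k (by omega),
      PP_loc (k + 1) h]

lemma vv_loc (k : ℕ) (h : ∀ j < k, N j = N' j) : vv cc N k = vv cc N' k := by
  unfold vv
  rw [XX_loc k h, PP_loc k h]

lemma dl_loc (k : ℕ) (h : ∀ j < k + 1, N j = N' j) : dl cc N k = dl cc N' k := by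
  unfold dl
  rw [vv_loc (k + 1) h, vv_loc k (fun j hj => h j (by omega))]

lemma TE_loc (E : ℝ) (k : ℕ) (h : ∀ j < k, N j = N' j) : TE cc N E k = TE cc N' E k := by
  induction k with
  | zero => rfl
  | succ k ih =>
    change M2.stepM _ _ _ = M2.stepM _ _ _
    rw [ih (fun j hj => h j (by omega)), h k (by omega), dl_loc k h]

lemma AA_loc (k : ℕ) (h : ∀ j < k, N j = N' j) : AA cc N k = AA cc N' k := by
  ext E
  unfold AA
  simp only [Set.mem_ofPred_eq]
  have : ∀ j < k, (cond cc N E j ↔ cond cc N' E j) := by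
    intro j hj
    unfold cond
    rw [TE_loc E j (fun i hi => h i (by omega)), h j hj]
  constructor
  · rintro ⟨h1, h2⟩
    exact ⟨h1, fun j hj => (this j hj).1 (h2 j hj)⟩
  · rintro ⟨h1, h2⟩
    exact ⟨h1, fun j hj => (this j hj).2 (h2 j hj)⟩

end loc

/-- sequential choice -/
lemma exists_seq (t : ℕ → ℕ) (M : ℕ → (ℕ → ℕ) → Prop)
    (hloc : ∀ k N N', (∀ j ≤ k, N j = N' j) → M k N → M k N')
    (hstep : ∀ k N, (∀ j, t j ≤ N j) → ∃ n, t k ≤ n ∧ M k (Function.update N k n)) :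
    ∃ N : ℕ → ℕ, (∀ j, t j ≤ N j) ∧ ∀ k, M k N := by
  classical
  let G : ℕ → {N : ℕ → ℕ // ∀ j, t j ≤ N j} := fun k => Nat.rec
    (⟨t, fun _ => le_rfl⟩ : {N : ℕ → ℕ // ∀ j, t j ≤ N j})
    (fun k F => ⟨Function.update F.1 k (hstep k F.1 F.2).choose, by
      intro j
      by_cases hj : j = k
      · subst hj
        simp only [Function.update_self]
        exact (hstep j F.1 F.2).choose_spec.1
      · rw [Function.update_of_ne hj]
        exact F.2 j⟩) k
  have hG : ∀ k, (G (k + 1)).1 = Function.update (G k).1 k (hstep k (G k).1 (G k).2).choose :=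
    fun k => rfl
  have hM : ∀ k, M k (G (k + 1)).1 := by
    intro k
    rw [hG]
    exact (hstep k (G k).1 (G k).2).choose_spec.2
  have hstab : ∀ j l, j + 1 ≤ l → (G l).1 j = (G (j + 1)).1 j := by
    intro j l hl
    induction l, hl using Nat.le_induction with
    | base => rfl
    | succ l hl ih =>
      rw [hG, Function.update_of_ne (by omega), ih]
  refine ⟨fun k => (G (k + 1)).1 k, fun j => (G (j + 1)).2 j, fun k => ?_⟩
  apply hloc k (G (k + 1)).1 _ _ (hM k)
  intro j hj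
  exact hstab j (k + 1) (by omega)

theorem exists_N : ∃ N : ℕ → ℕ, (∀ k, th k ≤ N k) ∧
    ∀ k, volume (AA ccs N k \ AA ccs N (k + 1)) ≤ ENNReal.ofReal ((1 / 2) ^ (k + 2)) := by
  apply exists_seq th
    (fun k N => volume (AA ccs N k \ AA ccs N (k + 1)) ≤ ENNReal.ofReal ((1 / 2) ^ (k + 2)))
  · intro k N N' h hM
    rw [← AA_loc k (fun j hj => h j (by omega)), ← AA_loc (k + 1) (fun j hj => h j (by omega))]
    exact hM
  · intro k N hN
    obtain ⟨n, hn, hvol⟩ := select_step hN k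
    refine ⟨n, hn, ?_⟩
    refine le_trans (measure_mono ?_) hvol
    intro E hE
    obtain ⟨h1, h2⟩ := hE
    have hagree : ∀ j < k, Function.update N k n j = N j := fun j hj =>
      Function.update_of_ne (by omega) _ _
    rw [AA_loc k hagree] at h1
    refine ⟨h1, ?_⟩
    by_contra hcon
    push Not at hcon
    apply h2
    refine ⟨h1.1, fun j hj => ?_⟩
    rcases Nat.lt_or_ge j k with hlt | hge
    · have h3 := h1.2 j hlt
      unfold cond at h3 ⊢
      rw [TE_loc E j (fun i hi => hagree i (by omega)), hagree j hlt]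
      exact h3
    · have hjk : j = k := by omega
      subst hjk
      unfold cond
      rw [TE_loc E j hagree, Function.update_self]
      exact hcon

theorem AAinf_pos {N : ℕ → ℕ}
    (hvol : ∀ k, volume (AA ccs N k \ AA ccs N (k + 1)) ≤ ENNReal.ofReal ((1 / 2) ^ (k + 2))) :
    0 < volume (⋂ k, AA ccs N k) := by
  have hcover : AA ccs N 0 ⊆ (⋂ k, AA ccs N k) ∪ ⋃ k, (AA ccs N k \ AA ccs N (k + 1)) := by
    intro E hE
    by_cases h : ∀ k, E ∈ AA ccs N k
    · left; exact Set.mem_iInter.2 h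
    · right
      push Not at h
      classical
      have hfind := Nat.find_spec h
      have hmin := fun m hm => Nat.find_min h (m := m) hm
      set k := Nat.find h with hk
      have hk0 : k ≠ 0 := by
        intro h0
        rw [h0] at hfind
        exact hfind hE
      obtain ⟨l, hl⟩ : ∃ l, k = l + 1 := ⟨k - 1, by omega⟩
      refine Set.mem_iUnion.2 ⟨l, ?_, ?_⟩
      · have := hmin l (by omega)
        push Not at this
        exact this
      · rw [← hl]; exact hfind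
  have h1 : volume (AA ccs N 0) ≤ volume (⋂ k, AA ccs N k) + ENNReal.ofReal (1 / 2) := by
    refine (measure_mono hcover).trans ((measure_union_le _ _).trans ?_)
    gcongr
    refine (measure_iUnion_le _).trans ?_
    calc ∑' k, volume (AA ccs N k \ AA ccs N (k + 1))
        ≤ ∑' k : ℕ, ENNReal.ofReal ((1 / 2) ^ (k + 2)) := ENNReal.tsum_le_tsum hvol
      _ = ENNReal.ofReal (∑' k : ℕ, (1 / 2 : ℝ) ^ (k + 2)) := by
          rw [ENNReal.ofReal_tsum_of_nonneg (fun k => by positivity)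
            ((summable_nat_add_iff 2).2 summable_geometric_two)]
      _ = ENNReal.ofReal (1 / 2) := by
          congr 1
          have : (fun k : ℕ => (1 / 2 : ℝ) ^ (k + 2)) = fun k : ℕ => (1 / 4) * (1 / 2 : ℝ) ^ k := by
            funext k
            rw [pow_add]; ring
          rw [this, tsum_mul_left, tsum_geometric_two]
          norm_num
  rw [AA_zero, Real.volume_Icc] at h1
  by_contra hcon
  push Not at hcon
  have h0 : volume (⋂ k, AA ccs N k) = 0 := nonpos_iff_eq_zero.1 hcon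
  rw [h0, zero_add, ENNReal.ofReal_le_ofReal_iff (by norm_num)] at h1
  norm_num at h1

/-- The mixed spectral type example. -/
theorem mixed_example : ∃ V : ℤ → ℝ,
    (∀ ε : ℝ, 0 < ε → ∃ p : ℕ, 0 < p ∧ ∃ W : ℤ → ℝ,
          (∀ n : ℤ, W (n + (p : ℤ)) = W n) ∧ ∀ n : ℤ, |V n - W n| < ε) ∧
    ∃ μ0 μ1 : Measure ℝ, IsFiniteMeasure μ0 ∧ IsFiniteMeasure μ1 ∧
        (∀ n : ℕ, Integrable (fun x : ℝ => x ^ n) μ0 ∧
          ∫ x, x ^ n ∂μ0 =
            ((fun u : ℤ → ℝ => fun m : ℤ => u (m + 1) + u (m - 1) + V m * u m)^[n]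
              (Pi.single (0 : ℤ) (1 : ℝ) : ℤ → ℝ)) 0) ∧
        (∀ n : ℕ, Integrable (fun x : ℝ => x ^ n) μ1 ∧
          ∫ x, x ^ n ∂μ1 =
            ((fun u : ℤ → ℝ => fun m : ℤ => u (m + 1) + u (m - 1) + V m * u m)^[n]
              (Pi.single (1 : ℤ) (1 : ℝ) : ℤ → ℝ)) 1) ∧
        ¬ Measure.MutuallySingular (μ0 + μ1) volume ∧
        ¬ Measure.AbsolutelyContinuous (μ0 + μ1) volume := by
  obtain ⟨N, hN, hvol⟩ := exists_N
  have hg := good hN
  set V := VV ccs N with hV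
  have hVb : ∀ n, |V n| ≤ ∑' k, |dl ccs N k| := VV_bounded hg
  obtain ⟨μ0, hμ0, hm0, hl0⟩ := exists_measure V _ hVb 0
  obtain ⟨μ1, hμ1, hm1, -⟩ := exists_measure V _ hVb 1
  refine ⟨V, VV_limitPeriodic hg, μ0, μ1, hμ0, hμ1, hm0, hm1, ?_, ?_⟩
  · intro hsing
    have hs0 : μ0 ⟂ₘ (volume : Measure ℝ) := (Measure.MutuallySingular.add_left_iff.1 hsing).1
    obtain ⟨C, hC⟩ := exists_bounded_solution hg (dl_tol hN)
    exact not_singular_of_bounded V μ0 hl0 (⋂ k, AA ccs N k)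
      (MeasurableSet.iInter (fun k => AA_measurable _ _ k)) (AAinf_pos hvol) C
      (fun E hE => hC E (Set.mem_iInter.1 hE)) hs0
  · intro hac
    have hac0 : μ0 ≪ (volume : Measure ℝ) := by
      refine Measure.AbsolutelyContinuous.trans ?_ hac
      exact Measure.absolutelyContinuous_of_le (Measure.le_add_right le_rfl)
    obtain ⟨ψ, hψ, hψ0, hψeq⟩ := exists_eigenfunction hg
    exact not_ac_of_eigenfunction V μ0 hl0 (2 * ccs 0) ψ hψ hψ0 hψeq hac0

end Pool.Agent.H99
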