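import Pool.Agent.H99.Cheb

/-!
The hierarchical limit-periodic potential: definitions and arithmetic facts.
-/

set_option autoImplicit false

open Filter Topology

namespace Pool.Agent.H99

variable (cc : ℕ → ℝ) (N : ℕ → ℕ)

/-- the periods `p_0 = 1`, `p_{k+1} = p_k N_k` -/
def pp : ℕ → ℕ
  | 0 => 1
  | (k + 1) => pp k * N k

/-- `P_0 = 1`, `P_{k+1} = P_k s_{N_k}(c_k)` -/
noncomputable def PP : ℕ → ℝ
  | 0 => 1
  | (k + 1) => PP k * sch (cc k) (N k)

/-- `X_0 = 0`, `X_{k+1} = X_k + s_{N_k-1}(c_k)/P_{k+1}` -/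
noncomputable def XX : ℕ → ℝ
  | 0 => 0
  | (k + 1) => XX k + sch (cc k) (N k - 1) / PP cc N (k + 1)

/-- the values of the potential on the level sets -/
noncomputable def vv (k : ℕ) : ℝ := 2 * cc 0 - 2 * XX cc N k - 2 * cc k / PP cc N k

/-- the increments -/
noncomputable def dl (k : ℕ) : ℝ := vv cc N (k + 1) - vv cc N k

/-- the potential -/
noncomputable def VV (n : ℤ) : ℝ := ∑' k, if ((pp N (k + 1) : ℕ) : ℤ) ∣ n then dl cc N k else 0

/-- standing assumptions -/
structure Good : Prop where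
  hcc : ∀ k, 1 < cc k
  hN : ∀ k, 2 ≤ N k
  hs1 : Summable (fun k => 1 / (cc k - 1))
  hs2 : Summable (fun k => cc k / PP cc N k)

variable {cc N}

lemma pp_pos (h : Good cc N) (k : ℕ) : 0 < pp N k := by
  induction k with
  | zero => simp [pp]
  | succ k ih =>
    simp only [pp]
    have := h.hN k
    positivity

lemma pp_succ (k : ℕ) : pp N (k + 1) = pp N k * N k := rfl

lemma lt_pp (h : Good cc N) (k : ℕ) : k < pp N k := by
  induction k with
  | zero => simp [pp]
  | succ k ih =>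
    have h1 := h.hN k
    rw [pp_succ]
    nlinarith

lemma pp_dvd_of_le {j k : ℕ} (hjk : j ≤ k) : pp N j ∣ pp N k := by
  induction k, hjk using Nat.le_induction with
  | base => exact dvd_rfl
  | succ k _ ih => exact ih.trans (Dvd.intro _ rfl)

lemma pp_le_of_le (h : Good cc N) {j k : ℕ} (hjk : j ≤ k) : pp N j ≤ pp N k :=
  Nat.le_of_dvd (pp_pos h k) (pp_dvd_of_le hjk)

lemma PP_one_le (h : Good cc N) (k : ℕ) : 1 ≤ PP cc N k := by
  induction k with
  | zero => simp [PP]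
  | succ k ih =>
    simp only [PP]
    have h1 : 1 ≤ sch (cc k) (N k) := sch_one_le (h.hcc k).le (by have := h.hN k; omega)
    nlinarith

lemma PP_pos (h : Good cc N) (k : ℕ) : 0 < PP cc N k := lt_of_lt_of_le one_pos (PP_one_le h k)

lemma PP_succ (k : ℕ) : PP cc N (k + 1) = PP cc N k * sch (cc k) (N k) := rfl
lemma XX_succ (k : ℕ) : XX cc N (k + 1) = XX cc N k + sch (cc k) (N k - 1) / PP cc N (k + 1) := rfl

lemma schN_pos (h : Good cc N) (k : ℕ) : 0 < sch (cc k) (N k) :=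
  sch_pos (h.hcc k).le (by have := h.hN k; omega)

lemma Xinc_nonneg (h : Good cc N) (k : ℕ) : 0 ≤ sch (cc k) (N k - 1) / PP cc N (k + 1) := by
  have := sch_nonneg (h.hcc k).le (N k - 1)
  have := PP_pos h (k + 1)
  positivity

lemma Xinc_le (h : Good cc N) (k : ℕ) :
    sch (cc k) (N k - 1) / PP cc N (k + 1) ≤ cc k / PP cc N k := by
  have h1 := PP_pos h k
  have h2 := schN_pos h k
  have h4 := h.hcc k
  have h3 : sch (cc k) (N k - 1) ≤ sch (cc k) (N k) := by
    obtain ⟨n, hn⟩ : ∃ n, N k = n + 1 := ⟨N k - 1, by have := h.hN k; omega⟩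
    rw [hn]
    exact (sch_lt_succ h4.le n).le
  rw [PP_succ, div_le_div_iff₀ (by positivity) h1]
  nlinarith [mul_le_mul_of_nonneg_left h3 h1.le, mul_pos h1 h2]

lemma summable_Xinc (h : Good cc N) :
    Summable (fun k => sch (cc k) (N k - 1) / PP cc N (k + 1)) :=
  Summable.of_nonneg_of_le (Xinc_nonneg h) (Xinc_le h) h.hs2

lemma XX_eq_sum (k : ℕ) : XX cc N k = ∑ j ∈ Finset.range k, sch (cc j) (N j - 1) / PP cc N (j + 1) := by
  induction k with
  | zero => simp [XX]
  | succ k ih => rw [Finset.sum_range_succ, ← ih, XX_succ]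

/-- the limit of `X_k` -/
noncomputable def Xinf (cc : ℕ → ℝ) (N : ℕ → ℕ) : ℝ :=
  ∑' j, sch (cc j) (N j - 1) / PP cc N (j + 1)

lemma XX_le_Xinf (h : Good cc N) (k : ℕ) : XX cc N k ≤ Xinf cc N := by
  rw [XX_eq_sum]
  exact (summable_Xinc h).sum_le_tsum _ (fun i _ => Xinc_nonneg h i)

lemma tendsto_XX (h : Good cc N) : Tendsto (XX cc N) atTop (𝓝 (Xinf cc N)) := by
  have := (summable_Xinc h).hasSum.tendsto_sum_nat
  refine this.congr (fun k => ?_)
  rw [XX_eq_sum]

lemma vv_zero : vv cc N 0 = 0 := by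
  simp [vv, XX, PP]

lemma dl_eq (k : ℕ) : dl cc N k = 2 * cc k / PP cc N k
    - 2 * (sch (cc k) (N k - 1) / PP cc N (k + 1)) - 2 * cc (k + 1) / PP cc N (k + 1) := by
  unfold dl vv
  rw [XX_succ]
  ring

lemma summable_dl (h : Good cc N) : Summable (dl cc N) := by
  have e : dl cc N = fun k => 2 * (cc k / PP cc N k)
    - 2 * (sch (cc k) (N k - 1) / PP cc N (k + 1)) - 2 * (cc (k + 1) / PP cc N (k + 1)) := by
    funext k
    rw [dl_eq]
    ring
  rw [e]
  exact ((h.hs2.mul_left 2).sub ((summable_Xinc h).mul_left 2)).sub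
    (((summable_nat_add_iff 1).2 h.hs2).mul_left 2)

lemma summable_ite (h : Good cc N) (p : ℕ → Prop) [DecidablePred p] :
    Summable (fun k => if p k then dl cc N k else 0) := by
  apply Summable.of_norm
  refine Summable.of_nonneg_of_le (fun k => norm_nonneg _) (fun k => ?_) (summable_dl h).norm
  by_cases hk : p k
  · simp [hk]
  · simp [hk]

lemma vv_eq_sum (k : ℕ) : vv cc N k = ∑ j ∈ Finset.range k, dl cc N j := by
  unfold dl
  rw [Finset.sum_range_sub, vv_zero, sub_zero]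

lemma tsum_dl (h : Good cc N) : ∑' k, dl cc N k = 2 * cc 0 - 2 * Xinf cc N := by
  have h1 := (summable_dl h).hasSum.tendsto_sum_nat
  have h2 : Tendsto (vv cc N) atTop (𝓝 (2 * cc 0 - 2 * Xinf cc N)) := by
    have h3 : Tendsto (fun k => 2 * cc 0 - 2 * XX cc N k - 2 * (cc k / PP cc N k)) atTop
        (𝓝 (2 * cc 0 - 2 * Xinf cc N - 2 * 0)) :=
      (tendsto_const_nhds.sub ((tendsto_XX h).const_mul 2)).sub
        (h.hs2.tendsto_atTop_zero.const_mul 2)
    rw [mul_zero, sub_zero] at h3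
    refine h3.congr (fun k => ?_)
    unfold vv
    ring
  refine tendsto_nhds_unique h1 (h2.congr (fun k => ?_))
  rw [vv_eq_sum]

lemma VV_zero (h : Good cc N) : VV cc N 0 = 2 * cc 0 - 2 * Xinf cc N := by
  rw [← tsum_dl h]
  unfold VV
  simp

lemma VV_neg (n : ℤ) : VV cc N (-n) = VV cc N n := by
  unfold VV
  simp

/-- translation property inside a block -/
lemma VV_add_block (_h : Good cc N) (k m i : ℕ) (hi0 : 0 < i) (hi : i < pp N k) :
    VV cc N ((m * pp N k + i : ℕ) : ℤ) = VV cc N (i : ℤ) := by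
  unfold VV
  congr 1
  funext j
  have hiff : (((pp N (j + 1) : ℕ) : ℤ) ∣ ((m * pp N k + i : ℕ) : ℤ)) ↔
      (((pp N (j + 1) : ℕ) : ℤ) ∣ (i : ℤ)) := by
    rw [Int.natCast_dvd_natCast, Int.natCast_dvd_natCast]
    by_cases hjk : j + 1 ≤ k
    · have hd : pp N (j + 1) ∣ m * pp N k := Dvd.dvd.mul_left (pp_dvd_of_le hjk) m
      exact (Nat.dvd_add_right hd)
    · push Not at hjk
      have hd : pp N k ∣ pp N (j + 1) := pp_dvd_of_le hjk.le
      constructor
      · intro hdvd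
        exfalso
        have h1 : pp N k ∣ m * pp N k + i := hd.trans hdvd
        have h2 : pp N k ∣ i := (Nat.dvd_add_right (Dvd.intro_left m rfl)).1 h1
        have := Nat.le_of_dvd hi0 h2
        omega
      · intro hdvd
        exfalso
        have := Nat.le_of_dvd hi0 (hd.trans hdvd)
        omega
  by_cases hd : (((pp N (j + 1) : ℕ) : ℤ) ∣ (i : ℤ))
  · rw [if_pos hd, if_pos (hiff.2 hd)]
  · rw [if_neg hd, if_neg (fun hc => hd (hiff.1 hc))]

/-- value on the level set -/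
lemma VV_level (h : Good cc N) (k m : ℕ) (hm0 : 0 < m) (hm : m < N k) :
    VV cc N ((m * pp N k : ℕ) : ℤ) = vv cc N k := by
  unfold VV
  rw [vv_eq_sum]
  have hiff : ∀ j, (((pp N (j + 1) : ℕ) : ℤ) ∣ ((m * pp N k : ℕ) : ℤ)) ↔ j < k := by
    intro j
    rw [Int.natCast_dvd_natCast]
    constructor
    · intro hd
      by_contra hcon
      push Not at hcon
      have h1 : pp N (k + 1) ∣ m * pp N k := (pp_dvd_of_le (by omega)).trans hd
      rw [pp_succ, mul_comm m] at h1
      have h2 : N k ∣ m := Nat.dvd_of_mul_dvd_mul_left (pp_pos h k) h1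
      have := Nat.le_of_dvd hm0 h2
      omega
    · intro hj
      exact Dvd.dvd.mul_left (pp_dvd_of_le hj) m
  rw [tsum_eq_sum (s := Finset.range k)]
  · apply Finset.sum_congr rfl
    intro j hj
    rw [if_pos ((hiff j).2 (Finset.mem_range.1 hj))]
  · intro j hj
    rw [if_neg]
    intro hd
    exact hj (Finset.mem_range.2 ((hiff j).1 hd))

lemma VV_bounded (h : Good cc N) (n : ℤ) : |VV cc N n| ≤ ∑' k, |dl cc N k| := by
  unfold VV
  have h1 := summable_ite h (fun k => (((pp N (k + 1) : ℕ) : ℤ) ∣ n))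
  refine (norm_tsum_le_tsum_norm h1.norm).trans ?_
  apply Summable.tsum_le_tsum _ h1.norm (summable_dl h).norm
  intro k
  by_cases hk : (((pp N (k + 1) : ℕ) : ℤ) ∣ n)
  · simp [hk]
  · simp [hk]

/-- limit-periodicity -/
lemma VV_limitPeriodic (h : Good cc N) (ε : ℝ) (hε : 0 < ε) :
    ∃ p : ℕ, 0 < p ∧ ∃ W : ℤ → ℝ,
      (∀ n : ℤ, W (n + (p : ℤ)) = W n) ∧ ∀ n : ℤ, |VV cc N n - W n| < ε := by
  have hsum := (summable_dl h).norm
  have htail := tendsto_sum_nat_add (fun k => ‖dl cc N k‖)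
  obtain ⟨K, hK⟩ := (htail.eventually (gt_mem_nhds hε)).exists
  refine ⟨pp N K, pp_pos h K,
    fun n => ∑ k ∈ Finset.range K, if (((pp N (k + 1) : ℕ) : ℤ) ∣ n) then dl cc N k else 0, ?_, ?_⟩
  · intro n
    apply Finset.sum_congr rfl
    intro k hk
    have hk' : k + 1 ≤ K := Finset.mem_range.1 hk
    have hd : (((pp N (k + 1) : ℕ) : ℤ) ∣ ((pp N K : ℕ) : ℤ)) := by
      rw [Int.natCast_dvd_natCast]
      exact pp_dvd_of_le hk'
    have hiff : (((pp N (k + 1) : ℕ) : ℤ) ∣ (n + ((pp N K : ℕ) : ℤ))) ↔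
        (((pp N (k + 1) : ℕ) : ℤ) ∣ n) := dvd_add_left hd
    by_cases hd : (((pp N (k + 1) : ℕ) : ℤ) ∣ n)
    · rw [if_pos hd, if_pos (hiff.2 hd)]
    · rw [if_neg hd, if_neg (fun hc => hd (hiff.1 hc))]
  · intro n
    have h1 := summable_ite h (fun k => (((pp N (k + 1) : ℕ) : ℤ) ∣ n))
    unfold VV
    rw [← h1.sum_add_tsum_nat_add K, add_sub_cancel_left]
    have h2 := (summable_nat_add_iff K).2 h1
    calc |∑' i, if (((pp N (i + K + 1) : ℕ) : ℤ) ∣ n) then dl cc N (i + K) else 0|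
        ≤ ∑' i, ‖if (((pp N (i + K + 1) : ℕ) : ℤ) ∣ n) then dl cc N (i + K) else 0‖ :=
          norm_tsum_le_tsum_norm h2.norm
      _ ≤ ∑' i, ‖dl cc N (i + K)‖ := by
          apply Summable.tsum_le_tsum _ h2.norm ((summable_nat_add_iff K).2 hsum)
          intro i
          by_cases hk : (((pp N (i + K + 1) : ℕ) : ℤ) ∣ n)
          · simp [hk]
          · simp [hk]
      _ < ε := hK

end Pool.Agent.H99
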