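import Pool.Agent.H99.SpecMeas

/-!
The discrete Schroedinger operator on `ℓ²(ℤ)` and its spectral measures.
-/

set_option autoImplicit false

open MeasureTheory
open scoped ENNReal InnerProductSpace

namespace Pool.Agent.H99

/-- the Hilbert space -/
noncomputable abbrev L2Z := lp (fun _ : ℤ => ℂ) 2

lemma memL2Z_iff (f : ℤ → ℂ) : Memℓp f 2 ↔ Summable (fun n => ‖f n‖ ^ 2) := by
  rw [memℓp_gen_iff (by norm_num)]
  simp

lemma L2Z_summable (f : L2Z) : Summable (fun n => ‖f n‖ ^ 2) :=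
  (memL2Z_iff _).1 (lp.memℓp f)

lemma L2Z_norm_sq (f : L2Z) : ‖f‖ ^ 2 = ∑' n, ‖f n‖ ^ 2 := by
  have := lp.norm_rpow_eq_tsum (p := 2) (by norm_num) f
  simpa using this

/-- translation -/
noncomputable def shiftFun (k : ℤ) (f : L2Z) : L2Z :=
  ⟨fun n => f (n + k), by
    change Memℓp (fun n => f (n + k)) 2
    rw [memL2Z_iff]
    exact (Equiv.addRight k).summable_iff.2 (L2Z_summable f)⟩

@[simp] lemma shiftFun_apply (k : ℤ) (f : L2Z) (n : ℤ) : shiftFun k f n = f (n + k) := rfl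

lemma shiftFun_norm (k : ℤ) (f : L2Z) : ‖shiftFun k f‖ = ‖f‖ := by
  have h : ‖shiftFun k f‖ ^ 2 = ‖f‖ ^ 2 := by
    rw [L2Z_norm_sq, L2Z_norm_sq]
    exact (Equiv.addRight k).tsum_eq (fun n => ‖f n‖ ^ 2)
  exact (pow_left_inj₀ (norm_nonneg _) (norm_nonneg _) two_ne_zero).1 h

/-- translation as a bounded operator -/
noncomputable def shiftCLM (k : ℤ) : L2Z →L[ℂ] L2Z :=
  LinearMap.mkContinuous
    { toFun := shiftFun k
      map_add' := fun f g => by ext n; simp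
      map_smul' := fun c f => by ext n; simp } 1
    (fun f => by
      rw [one_mul]
      exact (shiftFun_norm k f).le)

@[simp] lemma shiftCLM_apply (k : ℤ) (f : L2Z) (n : ℤ) : shiftCLM k f n = f (n + k) := rfl

/-- multiplication -/
noncomputable def diagFun (V : ℤ → ℝ) (B : ℝ) (hV : ∀ n, |V n| ≤ B) (f : L2Z) : L2Z :=
  ⟨fun n => (V n : ℂ) * f n, by
    change Memℓp (fun n => (V n : ℂ) * f n) 2
    rw [memL2Z_iff]
    refine Summable.of_nonneg_of_le (fun n => by positivity) (fun n => ?_)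
      ((L2Z_summable f).mul_left (B ^ 2))
    rw [norm_mul, mul_pow]
    have h1 : ‖(V n : ℂ)‖ ≤ B := by simpa using hV n
    gcongr⟩

@[simp] lemma diagFun_apply (V : ℤ → ℝ) (B : ℝ) (hV : ∀ n, |V n| ≤ B) (f : L2Z) (n : ℤ) :
    diagFun V B hV f n = (V n : ℂ) * f n := rfl

lemma diagFun_norm (V : ℤ → ℝ) (B : ℝ) (hV : ∀ n, |V n| ≤ B) (f : L2Z) :
    ‖diagFun V B hV f‖ ≤ B * ‖f‖ := by
  have hB : 0 ≤ B := le_trans (abs_nonneg _) (hV 0)
  have h : ‖diagFun V B hV f‖ ^ 2 ≤ (B * ‖f‖) ^ 2 := by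
    rw [L2Z_norm_sq, mul_pow, L2Z_norm_sq, ← tsum_mul_left]
    refine Summable.tsum_le_tsum (fun n => ?_) (L2Z_summable _) ((L2Z_summable f).mul_left (B ^ 2))
    rw [diagFun_apply, norm_mul, mul_pow]
    have h1 : ‖(V n : ℂ)‖ ≤ B := by simpa using hV n
    gcongr
  exact le_of_sq_le_sq h (by positivity)

/-- multiplication as a bounded operator -/
noncomputable def diagCLM (V : ℤ → ℝ) (B : ℝ) (hV : ∀ n, |V n| ≤ B) : L2Z →L[ℂ] L2Z :=
  LinearMap.mkContinuous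
    { toFun := diagFun V B hV
      map_add' := fun f g => by ext n; simp [mul_add]
      map_smul' := fun c f => by ext n; simp; ring } B
    (fun f => diagFun_norm V B hV f)

@[simp] lemma diagCLM_apply (V : ℤ → ℝ) (B : ℝ) (hV : ∀ n, |V n| ≤ B) (f : L2Z) (n : ℤ) :
    diagCLM V B hV f n = (V n : ℂ) * f n := rfl

/-- the Schroedinger operator -/
noncomputable def schr (V : ℤ → ℝ) (B : ℝ) (hV : ∀ n, |V n| ≤ B) : L2Z →L[ℂ] L2Z :=
  shiftCLM 1 + shiftCLM (-1) + diagCLM V B hV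

@[simp] lemma schr_apply (V : ℤ → ℝ) (B : ℝ) (hV : ∀ n, |V n| ≤ B) (f : L2Z) (n : ℤ) :
    schr V B hV f n = f (n + 1) + f (n - 1) + (V n : ℂ) * f n := by
  simp [schr]
  rfl

lemma schr_selfAdjoint (V : ℤ → ℝ) (B : ℝ) (hV : ∀ n, |V n| ≤ B) :
    IsSelfAdjoint (schr V B hV) := by
  rw [ContinuousLinearMap.isSelfAdjoint_iff_isSymmetric]
  intro f g
  change ⟪schr V B hV f, g⟫_ℂ = ⟪f, schr V B hV g⟫_ℂ
  have hshift : ∀ (k : ℤ) (f g : L2Z), ⟪shiftCLM k f, g⟫_ℂ = ⟪f, shiftCLM (-k) g⟫_ℂ := by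
    intro k f g
    rw [lp.inner_eq_tsum, lp.inner_eq_tsum]
    rw [← (Equiv.addRight k).tsum_eq (fun n => ⟪f n, shiftCLM (-k) g n⟫_ℂ)]
    congr 1
    funext n
    simp
  have hdiag : ⟪diagCLM V B hV f, g⟫_ℂ = ⟪f, diagCLM V B hV g⟫_ℂ := by
    rw [lp.inner_eq_tsum, lp.inner_eq_tsum]
    congr 1
    funext n
    simp
    ring
  have e1 : schr V B hV f = shiftCLM 1 f + shiftCLM (-1) f + diagCLM V B hV f := rfl
  have e2 : schr V B hV g = shiftCLM 1 g + shiftCLM (-1) g + diagCLM V B hV g := rfl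
  rw [e1, e2]
  simp only [inner_add_left, inner_add_right]
  rw [hshift, hshift, hdiag, neg_neg]
  ring

/-- the delta vector -/
noncomputable def dlt (i : ℤ) : L2Z := lp.single 2 i (1 : ℂ)

lemma schr_pow_dlt (V : ℤ → ℝ) (B : ℝ) (hV : ∀ n, |V n| ≤ B) (i : ℤ) (n : ℕ) (m : ℤ) :
    ((schr V B hV) ^ n) (dlt i) m =
      ((((fun u : ℤ → ℝ => fun m : ℤ => u (m + 1) + u (m - 1) + V m * u m)^[n]
              (Pi.single (i : ℤ) (1 : ℝ) : ℤ → ℝ)) m : ℝ) : ℂ) := by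
  induction n generalizing m with
  | zero =>
    simp [dlt, lp.single_apply]
    by_cases h : m = i
    · subst h; simp
    · simp [h]
  | succ n ih =>
    rw [pow_succ', Function.iterate_succ_apply']
    have : ((schr V B hV) * (schr V B hV) ^ n) (dlt i) m
        = schr V B hV (((schr V B hV) ^ n) (dlt i)) m := rfl
    rw [this, schr_apply, ih, ih, ih]
    push_cast
    rfl

/-- Existence of the spectral measure with the variational lower bound, in concrete terms. -/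
theorem exists_measure (V : ℤ → ℝ) (B : ℝ) (hV : ∀ n, |V n| ≤ B) (i : ℤ) :
    ∃ μ : Measure ℝ, IsFiniteMeasure μ ∧
      (∀ n : ℕ, Integrable (fun x : ℝ => x ^ n) μ ∧
          ∫ x, x ^ n ∂μ =
            ((fun u : ℤ → ℝ => fun m : ℤ => u (m + 1) + u (m - 1) + V m * u m)^[n]
              (Pi.single (i : ℤ) (1 : ℝ) : ℤ → ℝ)) i) ∧
      (∀ (E t : ℝ), 0 ≤ t → ∀ φ : ℤ → ℝ, Summable (fun n => φ n ^ 2) →
        φ i ^ 2 ≤ (∫ x, (1 + t * (x - E) ^ 2)⁻¹ ∂μ) *
          ((∑' n, φ n ^ 2) +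
            t * ∑' n, (φ (n + 1) + φ (n - 1) + V n * φ n - E * φ n) ^ 2)) := by
  refine ⟨specMeasure (schr V B hV) (schr_selfAdjoint V B hV) (dlt i), inferInstance, ?_, ?_⟩
  · intro n
    have h := specMeasure_moment (schr V B hV) (schr_selfAdjoint V B hV) (dlt i) n
    refine ⟨h.1, ?_⟩
    rw [h.2]
    have h2 : ⟪dlt i, ((schr V B hV) ^ n) (dlt i)⟫_ℂ = ((schr V B hV) ^ n) (dlt i) i := by
      unfold dlt
      rw [lp.inner_single_left]
      simp
    rw [h2, schr_pow_dlt]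
    simp
  · intro E t ht φ hφ
    have hmem : Memℓp (fun n => (φ n : ℂ)) 2 := by
      rw [memL2Z_iff]
      simpa using hφ
    set Φ : L2Z := ⟨fun n => (φ n : ℂ), hmem⟩ with hΦ
    have hΦa : ∀ n, Φ n = (φ n : ℂ) := fun n => rfl
    have h := specMeasure_lower (schr V B hV) (schr_selfAdjoint V B hV) (dlt i) Φ E t ht
    have h1 : ‖⟪dlt i, Φ⟫_ℂ‖ ^ 2 = φ i ^ 2 := by
      unfold dlt
      rw [lp.inner_single_left]
      simp [hΦa]
    have h2 : ‖Φ‖ ^ 2 = ∑' n, φ n ^ 2 := by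
      rw [L2Z_norm_sq]
      simp [hΦa]
    have h3 : ‖schr V B hV Φ - (E : ℂ) • Φ‖ ^ 2 =
        ∑' n, (φ (n + 1) + φ (n - 1) + V n * φ n - E * φ n) ^ 2 := by
      rw [L2Z_norm_sq]
      congr 1
      funext n
      have : (schr V B hV Φ - (E : ℂ) • Φ) n =
          ((φ (n + 1) + φ (n - 1) + V n * φ n - E * φ n : ℝ) : ℂ) := by
        have e1 : (schr V B hV Φ - (E : ℂ) • Φ) n = schr V B hV Φ n - (E : ℂ) * Φ n := rfl
        rw [e1, schr_apply, hΦa, hΦa, hΦa]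
        push_cast
        rfl
      rw [this, Complex.norm_real, Real.norm_eq_abs, sq_abs]
    rw [h1, h2, h3] at h
    exact h

end Pool.Agent.H99
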