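import Mathlib

/-!
Spectral measures of a bounded self-adjoint operator through the continuous functional calculus
and the Riesz-Markov-Kakutani theorem.
-/

set_option autoImplicit false

open MeasureTheory CompactlySupportedContinuousMap
open scoped ENNReal InnerProductSpace CompactlySupported

namespace Pool.Agent.H99

variable {H : Type*} [NormedAddCommGroup H] [InnerProductSpace ℂ H] [CompleteSpace H]

/-- The functional `f ↦ re ⟪e, f(A) e⟫`. -/
noncomputable def specLin (A : H →L[ℂ] H) (_hA : IsSelfAdjoint A) (e : H) :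
    C_c(ℝ, ℝ) →ₗ[ℝ] ℝ where
  toFun f := (⟪e, (cfc (fun x : ℝ => f x) A) e⟫_ℂ).re
  map_add' f g := by
    have h : cfc (fun x : ℝ => (f + g) x) A
        = cfc (fun x : ℝ => f x) A + cfc (fun x : ℝ => g x) A := by
      have := cfc_add (R := ℝ) A (fun x : ℝ => f x) (fun x : ℝ => g x)
        (map_continuous f).continuousOn (map_continuous g).continuousOn
      simpa using this
    rw [h]
    simp
  map_smul' c f := by
    have h : cfc (fun x : ℝ => (c • f) x) A = c • cfc (fun x : ℝ => f x) A := by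
      have := cfc_smul (R := ℝ) c (fun x : ℝ => f x) A (map_continuous f).continuousOn
      simpa using this
    rw [h]
    simp

lemma specLin_nonneg (A : H →L[ℂ] H) (hA : IsSelfAdjoint A) (e : H) (f : C_c(ℝ, ℝ))
    (hf : 0 ≤ f) : 0 ≤ specLin A hA e f := by
  have h : (0 : H →L[ℂ] H) ≤ cfc (fun x : ℝ => f x) A :=
    cfc_nonneg (fun x _ => hf x)
  rw [ContinuousLinearMap.nonneg_iff_isPositive] at h
  have := h.inner_nonneg_right e
  exact (Complex.le_def.1 this).1

/-- The functional `f ↦ re ⟪e, f(A) e⟫` as a positive linear map. -/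
noncomputable def specPos (A : H →L[ℂ] H) (hA : IsSelfAdjoint A) (e : H) :
    C_c(ℝ, ℝ) →ₚ[ℝ] ℝ where
  toLinearMap := specLin A hA e
  monotone' := by
    intro f g hfg
    have h1 : 0 ≤ g - f := by
      intro x
      have := hfg x
      simpa using sub_nonneg.2 this
    have h2 := specLin_nonneg A hA e (g - f) h1
    rw [map_sub] at h2
    have h3 : specLin A hA e f ≤ specLin A hA e g := by linarith
    exact h3

lemma specPos_apply (A : H →L[ℂ] H) (hA : IsSelfAdjoint A) (e : H) (f : C_c(ℝ, ℝ)) :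
    specPos A hA e f = (⟪e, (cfc (fun x : ℝ => f x) A) e⟫_ℂ).re := rfl

/-- cut-off function equal to `1` on `[-R,R]`, zero outside `[-R-1,R+1]`. -/
noncomputable def cut (R : ℝ) (x : ℝ) : ℝ := max 0 (min 1 (R + 1 - |x|))

lemma cut_continuous (R : ℝ) : Continuous (cut R) := by
  unfold cut; fun_prop

lemma cut_nonneg (R x : ℝ) : 0 ≤ cut R x := le_max_left _ _

lemma cut_le_one (R x : ℝ) : cut R x ≤ 1 := by
  unfold cut
  exact max_le zero_le_one (min_le_left _ _)

lemma cut_eq_one {R x : ℝ} (h : |x| ≤ R) : cut R x = 1 := by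
  unfold cut
  rw [min_eq_left (by linarith), max_eq_right zero_le_one]

lemma cut_eq_zero {R x : ℝ} (h : R + 1 ≤ |x|) : cut R x = 0 := by
  unfold cut
  rw [max_eq_left]
  exact le_trans (min_le_right _ _) (by linarith)

/-- multiply a continuous function by a cut-off -/
noncomputable def cutMul (R : ℝ) (f : ℝ → ℝ) (hf : Continuous f) : C_c(ℝ, ℝ) where
  toFun x := cut R x * f x
  continuous_toFun := (cut_continuous R).mul hf
  hasCompactSupport' := by
    apply HasCompactSupport.of_support_subset_isCompact (K := Set.Icc (-(R+1)) (R+1))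
      isCompact_Icc
    intro x hx
    by_contra hcon
    apply hx
    have : R + 1 ≤ |x| := by
      rw [Set.mem_Icc, ← abs_le] at hcon
      linarith
    simp [cut_eq_zero this]

@[simp] lemma cutMul_apply (R : ℝ) (f : ℝ → ℝ) (hf : Continuous f) (x : ℝ) :
    cutMul R f hf x = cut R x * f x := rfl

/-- the spectral measure -/
noncomputable def specMeasure (A : H →L[ℂ] H) (hA : IsSelfAdjoint A) (e : H) : Measure ℝ :=
  RealRMK.rieszMeasure (specPos A hA e)

lemma integral_specMeasure (A : H →L[ℂ] H) (hA : IsSelfAdjoint A) (e : H) (f : C_c(ℝ, ℝ)) :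
    ∫ x, f x ∂(specMeasure A hA e) = (⟪e, (cfc (fun x : ℝ => f x) A) e⟫_ℂ).re :=
  RealRMK.integral_rieszMeasure (specPos A hA e) f

lemma spectrum_bound (A : H →L[ℂ] H) {x : ℝ} (hx : x ∈ spectrum ℝ A) : |x| ≤ ‖A‖ := by
  by_cases hH : Nontrivial H
  · have := spectrum.norm_le_norm_of_mem hx
    simpa using this
  · rw [not_nontrivial_iff_subsingleton] at hH
    exfalso
    rw [spectrum.mem_iff] at hx
    exact hx (isUnit_of_subsingleton _)

instance (A : H →L[ℂ] H) (hA : IsSelfAdjoint A) (e : H) :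
    IsFiniteMeasureOnCompacts (specMeasure A hA e) := by
  unfold specMeasure
  infer_instance

lemma specMeasure_outside (A : H →L[ℂ] H) (hA : IsSelfAdjoint A) (e : H) :
    ∀ᵐ x ∂(specMeasure A hA e), |x| ≤ ‖A‖ := by
  set R := ‖A‖ with hR
  have key : ∀ n : ℕ, ∀ᵐ x ∂(specMeasure A hA e), cut n x * max 0 (|x| - R) = 0 := by
    intro n
    have hcont : Continuous (fun x : ℝ => max 0 (|x| - R)) := by fun_prop
    have h1 := integral_specMeasure A hA e (cutMul n (fun x => max 0 (|x| - R)) hcont)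
    have h2 : cfc (fun x : ℝ => (cutMul n (fun x => max 0 (|x| - R)) hcont) x) A = 0 := by
      have : cfc (fun x : ℝ => (cutMul n (fun x => max 0 (|x| - R)) hcont) x) A
          = cfc (fun _ : ℝ => (0 : ℝ)) A := by
        apply cfc_congr
        intro x hx
        have hx' := spectrum_bound A hx
        simp only [cutMul_apply]
        rw [max_eq_left (by linarith), mul_zero]
      rw [this]
      simp
    rw [h2] at h1
    simp only [_root_.zero_apply, inner_zero_right, Complex.zero_re] at h1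
    have hnn : 0 ≤ fun x => cut n x * max 0 (|x| - R) := fun x =>
      mul_nonneg (cut_nonneg _ _) (le_max_left _ _)
    have hint : Integrable (fun x => cut n x * max 0 (|x| - R)) (specMeasure A hA e) := by
      have h3 := (map_continuous (cutMul n (fun x => max 0 (|x| - R)) hcont)).integrable_of_hasCompactSupport
        (μ := specMeasure A hA e) (cutMul n (fun x => max 0 (|x| - R)) hcont).hasCompactSupport
      exact h3
    have h3 := (integral_eq_zero_iff_of_nonneg hnn hint).1 h1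
    exact h3
  rw [← ae_all_iff] at key
  filter_upwards [key] with x hx
  by_contra hcon
  push Not at hcon
  obtain ⟨n, hn⟩ := exists_nat_ge |x|
  have h1 := hx n
  rw [cut_eq_one hn, one_mul, max_eq_right (by linarith)] at h1
  linarith

instance (A : H →L[ℂ] H) (hA : IsSelfAdjoint A) (e : H) :
    IsFiniteMeasure (specMeasure A hA e) := by
  constructor
  have h1 : specMeasure A hA e Set.univ = specMeasure A hA e (Set.Icc (-‖A‖) ‖A‖) := by
    apply measure_congr
    have := specMeasure_outside A hA e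
    filter_upwards [this] with x hx
    have h3 : x ∈ Set.Icc (-‖A‖) ‖A‖ := abs_le.1 hx
    have h4 : (Set.univ x) = (Set.Icc (-‖A‖) ‖A‖ x) := by
      apply propext
      exact ⟨fun _ => h3, fun _ => trivial⟩
    exact h4
  rw [h1]
  exact isCompact_Icc.measure_lt_top

lemma integral_specMeasure_of_continuous (A : H →L[ℂ] H) (hA : IsSelfAdjoint A) (e : H)
    (f : ℝ → ℝ) (hf : Continuous f) :
    Integrable f (specMeasure A hA e) ∧
    ∫ x, f x ∂(specMeasure A hA e) = (⟪e, (cfc f A) e⟫_ℂ).re := by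
  have hae : (fun x => cutMul ‖A‖ f hf x) =ᵐ[specMeasure A hA e] f := by
    filter_upwards [specMeasure_outside A hA e] with x hx
    simp [cut_eq_one hx]
  constructor
  · exact ((map_continuous (cutMul ‖A‖ f hf)).integrable_of_hasCompactSupport
      (cutMul ‖A‖ f hf).hasCompactSupport).congr hae
  · rw [← integral_congr_ae hae, integral_specMeasure]
    congr 3
    apply cfc_congr
    intro x hx
    simp [cut_eq_one (spectrum_bound A hx)]

lemma specMeasure_moment (A : H →L[ℂ] H) (hA : IsSelfAdjoint A) (e : H) (n : ℕ) :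
    Integrable (fun x : ℝ => x ^ n) (specMeasure A hA e) ∧
    ∫ x, x ^ n ∂(specMeasure A hA e) = (⟪e, (A ^ n) e⟫_ℂ).re := by
  have h := integral_specMeasure_of_continuous A hA e (fun x => x ^ n) (by fun_prop)
  refine ⟨h.1, ?_⟩
  rw [h.2]
  congr 3
  rw [cfc_pow (R := ℝ) (fun x => x) n A, cfc_id' ℝ A]

/-- The variational lower bound. -/
lemma specMeasure_lower (A : H →L[ℂ] H) (hA : IsSelfAdjoint A) (e φ : H) (E t : ℝ) (ht : 0 ≤ t) :
    ‖⟪e, φ⟫_ℂ‖ ^ 2 ≤ (∫ x, (1 + t * (x - E) ^ 2)⁻¹ ∂(specMeasure A hA e)) *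
      (‖φ‖ ^ 2 + t * ‖A φ - (E : ℂ) • φ‖ ^ 2) := by
  have hpos : ∀ x : ℝ, 0 < 1 + t * (x - E) ^ 2 := fun x => by positivity
  have hFc : Continuous (fun x : ℝ => (1 + t * (x - E) ^ 2)⁻¹) := by
    apply Continuous.inv₀ (by fun_prop)
    intro x
    exact (hpos x).ne'
  have hGc : Continuous (fun x : ℝ => (1 + t * (x - E) ^ 2)) := by fun_prop
  set F : H →L[ℂ] H := cfc (fun x : ℝ => (1 + t * (x - E) ^ 2)⁻¹) A with hF
  set G : H →L[ℂ] H := cfc (fun x : ℝ => (1 + t * (x - E) ^ 2)) A with hG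
  have hint := (integral_specMeasure_of_continuous A hA e _ hFc).2
  rw [hint, ← hF]
  have hFG : F * G = 1 := by
    rw [hF, hG, ← cfc_mul (R := ℝ) _ _ A hFc.continuousOn hGc.continuousOn]
    have : (fun x : ℝ => (1 + t * (x - E) ^ 2)⁻¹ * (1 + t * (x - E) ^ 2)) = fun _ => 1 := by
      funext x
      exact inv_mul_cancel₀ (hpos x).ne'
    rw [this]
    exact cfc_const_one ℝ A
  have hGform : G = 1 + (t : ℂ) • ((A - (E : ℂ) • 1) * (A - (E : ℂ) • 1)) := by
    have h1 : G = algebraMap ℝ (H →L[ℂ] H) 1 + cfc (fun x : ℝ => t * (x - E) ^ 2) A := by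
      rw [hG]
      exact cfc_const_add (R := ℝ) 1 (fun x : ℝ => t * (x - E) ^ 2) A (by fun_prop) hA
    have h2 : cfc (fun x : ℝ => t * (x - E) ^ 2) A = t • cfc (fun x : ℝ => (x - E) ^ 2) A :=
      cfc_const_mul (R := ℝ) t (fun x : ℝ => (x - E) ^ 2) A (by fun_prop)
    have h3 : cfc (fun x : ℝ => (x - E) ^ 2) A = (cfc (fun x : ℝ => (x - E)) A) ^ 2 :=
      cfc_pow (R := ℝ) (fun x : ℝ => (x - E)) 2 A (by fun_prop) hA
    have h4 : cfc (fun x : ℝ => (x - E)) A = A - algebraMap ℝ (H →L[ℂ] H) E := by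
      have := cfc_sub (R := ℝ) (fun x : ℝ => x) (fun _ : ℝ => E) A (by fun_prop) (by fun_prop)
      rw [this, cfc_id' ℝ A, cfc_const (R := ℝ) E A]
    have h5 : ∀ r : ℝ, algebraMap ℝ (H →L[ℂ] H) r = (r : ℂ) • 1 := by
      intro r
      rw [Algebra.algebraMap_eq_smul_one]
      rfl
    rw [h1, h2, h3, h4, h5, h5, pow_two]
    simp
  have hFpos : F.IsPositive := by
    rw [← ContinuousLinearMap.nonneg_iff_isPositive]
    exact cfc_nonneg (fun x _ => (inv_pos.2 (hpos x)).le)
  have hsymmA : ∀ x y : H, ⟪A x, y⟫_ℂ = ⟪x, A y⟫_ℂ := by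
    intro x y
    have := (ContinuousLinearMap.isSelfAdjoint_iff_isSymmetric.1 hA) x y
    exact this
  have hGφ : (⟪G φ, φ⟫_ℂ).re = ‖φ‖ ^ 2 + t * ‖A φ - (E : ℂ) • φ‖ ^ 2 := by
    have hB : ∀ x y : H, ⟪A x - (E : ℂ) • x, y⟫_ℂ = ⟪x, A y - (E : ℂ) • y⟫_ℂ := by
      intro x y
      rw [inner_sub_left, inner_sub_right, hsymmA, inner_smul_left, inner_smul_right]
      simp
    have h1 : G φ = φ + (t : ℂ) • (A (A φ - (E : ℂ) • φ) - (E : ℂ) • (A φ - (E : ℂ) • φ)) := by
      rw [hGform]
      simp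
    rw [h1, inner_add_left, inner_smul_left, hB]
    rw [inner_self_eq_norm_sq_to_K, inner_self_eq_norm_sq_to_K]
    simp
    norm_cast
  have hCS : ‖⟪e, F (G φ)⟫_ℂ‖ ^ 2 ≤ (⟪e, F e⟫_ℂ).re * (⟪G φ, F (G φ)⟫_ℂ).re := by
    set S : H →L[ℂ] H := cfc (fun x : ℝ => Real.sqrt ((1 + t * (x - E) ^ 2)⁻¹)) A with hS
    have hSc : Continuous (fun x : ℝ => Real.sqrt ((1 + t * (x - E) ^ 2)⁻¹)) := hFc.sqrt
    have hSS : F = S * S := by
      rw [hF, hS, ← cfc_mul (R := ℝ) _ _ A hSc.continuousOn hSc.continuousOn]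
      congr 1
      funext x
      exact (Real.mul_self_sqrt (inv_pos.2 (hpos x)).le).symm
    have hSsa : IsSelfAdjoint S := cfc_predicate _ _
    have hSsymm : ∀ x y : H, ⟪S x, y⟫_ℂ = ⟪x, S y⟫_ℂ := by
      intro x y
      exact (ContinuousLinearMap.isSelfAdjoint_iff_isSymmetric.1 hSsa) x y
    have h1 : ∀ x y : H, ⟪x, F y⟫_ℂ = ⟪S x, S y⟫_ℂ := by
      intro x y
      rw [hSS, hSsymm]; rfl
    have h2 : ∀ x : H, (⟪x, F x⟫_ℂ).re = ‖S x‖ ^ 2 := by
      intro x
      rw [h1, inner_self_eq_norm_sq_to_K]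
      norm_cast
    rw [h2, h2, h1, ← mul_pow]
    exact pow_le_pow_left₀ (norm_nonneg _) (norm_inner_le_norm _ _) 2
  have hFG' : F (G φ) = φ := by
    have := congrArg (fun T : H →L[ℂ] H => T φ) hFG
    simpa using this
  rw [hFG'] at hCS
  rw [hGφ] at hCS
  exact hCS

end Pool.Agent.H99
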