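import Pool.Agent.H99.Cheb

/-!
2x2 matrices of determinant one, their powers and invariant quadratic forms; the one step estimate.
-/

set_option autoImplicit false

namespace Pool.Agent.H99

/-- 2x2 real matrices -/
structure M2 where
  a : ℝ
  b : ℝ
  c : ℝ
  d : ℝ

namespace M2

/-- action on the plane -/
def act (M : M2) (w : ℝ × ℝ) : ℝ × ℝ := (M.a * w.1 + M.b * w.2, M.c * w.1 + M.d * w.2)

/-- determinant -/
def det (M : M2) : ℝ := M.a * M.d - M.b * M.c

/-- half of the trace -/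
noncomputable def ht (M : M2) : ℝ := (M.a + M.d) / 2

/-- `U(δ) M^n` -/
noncomputable def stepM (M : M2) (δ : ℝ) (n : ℕ) : M2 where
  a := sch M.ht n * M.a - sch M.ht (n - 1) - δ * (sch M.ht n * M.c)
  b := sch M.ht n * M.b - δ * (sch M.ht n * M.d - sch M.ht (n - 1))
  c := sch M.ht n * M.c
  d := sch M.ht n * M.d - sch M.ht (n - 1)

lemma stepM_det (M : M2) (hM : M.det = 1) (δ : ℝ) (n : ℕ) (hn : 0 < n) :
    (M.stepM δ n).det = 1 := by
  obtain ⟨m, rfl⟩ : ∃ m, n = m + 1 := ⟨n - 1, by omega⟩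
  have h1 := sch_quad M.ht m
  have h2 : 2 * M.ht = M.a + M.d := by unfold ht; ring
  unfold det stepM at *
  simp only [Nat.add_sub_cancel]
  have h3 : 2 * M.ht * sch M.ht (m + 1) * sch M.ht m =
    (M.a + M.d) * sch M.ht (m + 1) * sch M.ht m := by rw [h2]
  linear_combination h1 + h3 + (sch M.ht (m + 1)) ^ 2 * hM

lemma act_iterate (M : M2) (hM : M.det = 1) (n : ℕ) (w : ℝ × ℝ) :
    (M.act)^[n + 1] w =
      (sch M.ht (n + 1) * (M.act w).1 - sch M.ht n * w.1,
        sch M.ht (n + 1) * (M.act w).2 - sch M.ht n * w.2) := by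
  have h2 : 2 * M.ht = M.a + M.d := by unfold ht; ring
  induction n with
  | zero => simp
  | succ n ih =>
    rw [Function.iterate_succ_apply', ih, sch_succ_succ, h2]
    unfold act det at *
    simp only
    ext
    · simp only
      linear_combination (- sch M.ht (n + 1) * w.1) * hM
    · simp only
      linear_combination (- sch M.ht (n + 1) * w.2) * hM

lemma stepM_act (M : M2) (hM : M.det = 1) (δ : ℝ) (n : ℕ) (hn : 0 < n) (w : ℝ × ℝ) :
    (M.stepM δ n).act w =
      (((M.act)^[n] w).1 - δ * ((M.act)^[n] w).2, ((M.act)^[n] w).2) := by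
  obtain ⟨m, rfl⟩ : ∃ m, n = m + 1 := ⟨n - 1, by omega⟩
  rw [act_iterate M hM m w]
  unfold act stepM
  simp only [Nat.add_sub_cancel]
  ext
  · simp only
    ring
  · simp only
    ring

/-- area -/
def ar (w z : ℝ × ℝ) : ℝ := w.1 * z.2 - w.2 * z.1

lemma ar_act (M : M2) (w z : ℝ × ℝ) : ar (M.act w) (M.act z) = M.det * ar w z := by
  unfold ar act det
  simp only
  ring

/-- the invariant quadratic form, normalised -/
noncomputable def Q (M : M2) (w : ℝ × ℝ) : ℝ := |ar w (M.act w)| / Real.sqrt (1 - M.ht ^ 2)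

lemma Q_nonneg (M : M2) (w : ℝ × ℝ) : 0 ≤ M.Q w := by
  unfold Q; positivity

lemma Q_act (M : M2) (hM : M.det = 1) (w : ℝ × ℝ) : M.Q (M.act w) = M.Q w := by
  unfold Q
  rw [ar_act, hM, one_mul]

lemma Q_iterate (M : M2) (hM : M.det = 1) (n : ℕ) (w : ℝ × ℝ) :
    M.Q ((M.act)^[n] w) = M.Q w := by
  induction n with
  | zero => rfl
  | succ n ih => rw [Function.iterate_succ_apply', Q_act M hM, ih]

/-- the constant `κ = |c|/σ` -/
noncomputable def kap (M : M2) : ℝ := |M.c| / Real.sqrt (1 - M.ht ^ 2)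

lemma kap_eq (M : M2) : M.kap = M.Q (1, 0) := by
  unfold kap Q ar act
  simp

lemma sq_le_kap (M : M2) (hM : M.det = 1) (htr : |M.ht| < 1) (w : ℝ × ℝ) :
    w.2 ^ 2 ≤ M.kap * M.Q w := by
  have hσ : 0 < 1 - M.ht ^ 2 := by
    have := (sq_lt_one_iff_abs_lt_one M.ht).2 htr
    linarith
  have hs : Real.sqrt (1 - M.ht ^ 2) ^ 2 = 1 - M.ht ^ 2 := Real.sq_sqrt hσ.le
  have hs0 : 0 < Real.sqrt (1 - M.ht ^ 2) := Real.sqrt_pos.2 hσ
  unfold kap Q
  rw [div_mul_div_comm, ← pow_two, hs, le_div_iff₀ hσ]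
  have hid : 4 * M.c * ar w (M.act w) =
      (2 * M.c * w.1 + (M.d - M.a) * w.2) ^ 2 + 4 * (1 - M.ht ^ 2) * w.2 ^ 2 := by
    unfold ar act ht det at *
    simp only
    linear_combination (4 * w.2 ^ 2) * hM
  have h1 : 4 * (1 - M.ht ^ 2) * w.2 ^ 2 ≤ 4 * M.c * ar w (M.act w) := by
    rw [hid]
    have := sq_nonneg (2 * M.c * w.1 + (M.d - M.a) * w.2)
    linarith
  have h2 : M.c * ar w (M.act w) ≤ |M.c| * |ar w (M.act w)| := by
    rw [← abs_mul]; exact le_abs_self _
  linarith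

/-- One step estimate. -/
theorem step_estimate (M : M2) (hM : M.det = 1) (htr : |M.ht| < 1) (δ : ℝ) (n : ℕ) (hn : 0 < n)
    (η x : ℝ) (hη : 0 < η) (hS : η ≤ |sch M.ht n| * Real.sqrt (1 - M.ht ^ 2))
    (hx : x ≤ 1 / 32) (hδ : |δ| * M.kap ≤ x * η) :
    |(M.stepM δ n).ht| < 1 ∧
      (∀ w, (M.stepM δ n).Q w ≤ (1 + 4 * x) * M.Q w) ∧
      (∀ w, M.Q w ≤ (1 + 4 * x) * (M.stepM δ n).Q w) := by
  have hσ : 0 < 1 - M.ht ^ 2 := by
    have := (sq_lt_one_iff_abs_lt_one M.ht).2 htr
    linarith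
  set σ := Real.sqrt (1 - M.ht ^ 2) with hσdef
  have hs : σ ^ 2 = 1 - M.ht ^ 2 := Real.sq_sqrt hσ.le
  have hs0 : 0 < σ := Real.sqrt_pos.2 hσ
  set S := |sch M.ht n| * σ with hSdef
  have hS0 : 0 < S := lt_of_lt_of_le hη hS
  have hkap0 : 0 ≤ M.kap := by unfold kap; positivity
  have hx0 : 0 ≤ x := by
    by_contra hcon
    push Not at hcon
    have h1 : x * η < 0 := mul_neg_of_neg_of_pos hcon hη
    have h2 : 0 ≤ |δ| * M.kap := by positivity
    linarith
  have hδS : |δ| * M.kap ≤ x * S := hδ.trans (mul_le_mul_of_nonneg_left hS hx0)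
  obtain ⟨m, rfl⟩ : ∃ m, n = m + 1 := ⟨n - 1, by omega⟩
  set s1 := sch M.ht (m + 1) with hs1
  set s0 := sch M.ht m with hs0'
  have hquad := sch_quad M.ht m
  rw [← hs1, ← hs0'] at hquad
  set C := M.ht * s1 - s0 with hC
  have hSC : S ^ 2 + C ^ 2 = 1 := by
    rw [hSdef, mul_pow, sq_abs, hs, hC]
    linear_combination hquad
  have hSle : S ≤ 1 := by nlinarith [sq_nonneg C]
  have hCle : |C| ≤ 1 := by
    rw [← sq_le_one_iff_abs_le_one]; nlinarith [sq_nonneg S]
  set M' := M.stepM δ (m + 1) with hM'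
  set e := δ / 2 * (s1 * M.c) with he
  have ht' : M'.ht = C - e := by
    rw [hM', hC, he]
    unfold ht stepM
    simp only [Nat.add_sub_cancel]
    rw [← hs1, ← hs0']
    ring
  have hckap : |s1| * |M.c| = S * M.kap := by
    rw [hSdef]
    unfold kap
    rw [← hσdef]
    field_simp
  have hele : |e| ≤ x * S ^ 2 / 2 := by
    rw [he, abs_mul, abs_div, abs_mul, hckap, abs_two]
    have := mul_le_mul_of_nonneg_right hδS hS0.le
    have h9 : |δ| / 2 * (S * M.kap) = (|δ| * M.kap * S) / 2 := by ring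
    rw [h9, pow_two, ← mul_assoc]
    linarith
  have hdiff : 1 - M'.ht ^ 2 = S ^ 2 + 2 * C * e - e ^ 2 := by
    rw [ht']
    linear_combination -hSC
  have hCe : |2 * C * e| ≤ x * S ^ 2 := by
    rw [abs_mul, abs_mul, abs_two]
    have h1 : |C| * |e| ≤ 1 * (x * S ^ 2 / 2) :=
      mul_le_mul hCle hele (abs_nonneg _) zero_le_one
    linarith
  have he2 : e ^ 2 ≤ x * S ^ 2 := by
    rw [← sq_abs]
    have h1 : |e| ^ 2 ≤ (x * S ^ 2 / 2) ^ 2 := pow_le_pow_left₀ (abs_nonneg _) hele 2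
    have h3 : 0 ≤ x * S ^ 2 := by positivity
    have h5 : S ^ 2 ≤ 1 := by
      have := sq_nonneg C
      linarith
    have h4 : x * S ^ 2 ≤ 1 := by
      have : x * S ^ 2 ≤ x * 1 := mul_le_mul_of_nonneg_left h5 hx0
      linarith
    have h2 : (x * S ^ 2 / 2) ^ 2 ≤ x * S ^ 2 := by
      have h6 : (x * S ^ 2 / 2) ^ 2 = (x * S ^ 2) * (x * S ^ 2) / 4 := by ring
      have h7 : (x * S ^ 2) * (x * S ^ 2) ≤ (x * S ^ 2) * 1 := mul_le_mul_of_nonneg_left h4 h3
      rw [h6]
      linarith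
    linarith
  have hlow : (1 - 2 * x) * S ^ 2 ≤ 1 - M'.ht ^ 2 := by
    rw [hdiff]
    have := (abs_le.1 hCe).1
    linarith
  have hup : 1 - M'.ht ^ 2 ≤ (1 + 2 * x) * S ^ 2 := by
    rw [hdiff]
    have h1 := (abs_le.1 hCe).2
    have h2 := sq_nonneg e
    have h3 : 0 ≤ x * S ^ 2 := by positivity
    linarith
  have hpos' : 0 < 1 - M'.ht ^ 2 := by
    have : 0 < (1 - 2 * x) * S ^ 2 := by
      apply mul_pos
      · linarith
      · positivity
    linarith
  set σ' := Real.sqrt (1 - M'.ht ^ 2) with hσ'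
  have hσ'0 : 0 < σ' := Real.sqrt_pos.2 hpos'
  have hσ'low : (1 - 2 * x) * S ≤ σ' := by
    rw [hσ']
    apply Real.le_sqrt_of_sq_le
    have h1 : ((1 - 2 * x) * S) ^ 2 ≤ (1 - 2 * x) * S ^ 2 := by
      rw [mul_pow]
      have h2 : (1 - 2 * x) ^ 2 ≤ 1 - 2 * x := by
        have h3 : (1 - 2 * x) * (1 - 2 * x) ≤ (1 - 2 * x) * 1 :=
          mul_le_mul_of_nonneg_left (by linarith) (by linarith)
        rw [pow_two]
        linarith
      exact mul_le_mul_of_nonneg_right h2 (sq_nonneg S)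
    linarith
  have hσ'up : σ' ≤ (1 + x) * S := by
    rw [hσ']
    apply Real.sqrt_le_iff.2
    constructor
    · positivity
    · have h1 : ((1 + x) * S) ^ 2 = (1 + 2 * x) * S ^ 2 + x ^ 2 * S ^ 2 := by ring
      have h2 : 0 ≤ x ^ 2 * S ^ 2 := by positivity
      rw [h1]
      linarith
  -- the quadratic forms
  have hform : ∀ w : ℝ × ℝ, |ar w (M'.act w) - s1 * ar w (M.act w)| ≤ (x * S) * M.Q w := by
    intro w
    set z := (M.act)^[m + 1] w with hz
    have h1 : ar w (M'.act w) = ar w z + δ * (w.2 * z.2) := by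
      rw [hM', stepM_act M hM δ (m + 1) hn w, ← hz]
      unfold ar
      simp only
      ring
    have h2 : ar w z = s1 * ar w (M.act w) := by
      rw [hz, act_iterate M hM m w, ← hs1, ← hs0']
      unfold ar
      simp only
      ring
    rw [h1, h2, add_sub_cancel_left, abs_mul]
    have h3 : |w.2 * z.2| ≤ M.kap * M.Q w := by
      have e1 := sq_le_kap M hM htr w
      have e2 := sq_le_kap M hM htr z
      rw [hz, Q_iterate M hM] at e2
      rw [← hz] at e2
      have e3 : |w.2 * z.2| ≤ (w.2 ^ 2 + z.2 ^ 2) / 2 := by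
        rw [abs_mul]
        have e4 := sq_nonneg (|w.2| - |z.2|)
        have e5 := sq_abs w.2
        have e6 := sq_abs z.2
        have e7 : (|w.2| - |z.2|) ^ 2 = |w.2| ^ 2 + |z.2| ^ 2 - 2 * (|w.2| * |z.2|) := by ring
        linarith
      linarith
    calc |δ| * |w.2 * z.2| ≤ |δ| * (M.kap * M.Q w) := by gcongr
      _ = (|δ| * M.kap) * M.Q w := by ring
      _ ≤ (x * S) * M.Q w := mul_le_mul_of_nonneg_right hδS (M.Q_nonneg w)
  have hsq : ∀ w : ℝ × ℝ, |s1 * ar w (M.act w)| = S * M.Q w := by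
    intro w
    rw [abs_mul, hSdef]
    unfold Q
    rw [← hσdef]
    field_simp
  refine ⟨?_, ?_, ?_⟩
  · rw [← sq_lt_one_iff_abs_lt_one]; linarith
  · intro w
    have hQ := M.Q_nonneg w
    have h1 : |ar w (M'.act w)| ≤ (1 + x) * S * M.Q w := by
      have e1 := hform w
      have e2 := hsq w
      have e3 : |ar w (M'.act w)| ≤ |ar w (M'.act w) - s1 * ar w (M.act w)|
          + |s1 * ar w (M.act w)| := by
        have := abs_add_le (ar w (M'.act w) - s1 * ar w (M.act w)) (s1 * ar w (M.act w))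
        rwa [sub_add_cancel] at this
      have e4 : (1 + x) * S * M.Q w = S * M.Q w + x * S * M.Q w := by ring
      linarith
    have h2 : M'.Q w = |ar w (M'.act w)| / σ' := rfl
    rw [h2, div_le_iff₀ hσ'0]
    calc |ar w (M'.act w)| ≤ (1 + x) * S * M.Q w := h1
      _ ≤ (1 + 4 * x) * M.Q w * ((1 - 2 * x) * S) := by
          have h5 : 0 ≤ S * M.Q w := by positivity
          have h7 : x * x ≤ x * (1 / 32) := mul_le_mul_of_nonneg_left hx hx0
          have h6 : (1 + x) ≤ (1 + 4 * x) * (1 - 2 * x) := by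
            have : (1 + 4 * x) * (1 - 2 * x) = 1 + 2 * x - 8 * (x * x) := by ring
            rw [this]
            linarith
          have h8 := mul_le_mul_of_nonneg_right h6 h5
          calc (1 + x) * S * M.Q w = (1 + x) * (S * M.Q w) := by ring
            _ ≤ _ := h8
            _ = _ := by ring
      _ ≤ (1 + 4 * x) * M.Q w * σ' := by
          apply mul_le_mul_of_nonneg_left hσ'low
          positivity
  · intro w
    have hQ := M.Q_nonneg w
    have h1 : (1 - x) * S * M.Q w ≤ |ar w (M'.act w)| := by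
      have e1 := hform w
      have e2 := hsq w
      have e3 : |s1 * ar w (M.act w)| ≤ |ar w (M'.act w)| +
          |ar w (M'.act w) - s1 * ar w (M.act w)| := by
        have := abs_sub_abs_le_abs_sub (s1 * ar w (M.act w)) (ar w (M'.act w))
        rw [abs_sub_comm] at this
        linarith
      have e4 : (1 - x) * S * M.Q w = S * M.Q w - x * S * M.Q w := by ring
      linarith
    have h2 : M'.Q w = |ar w (M'.act w)| / σ' := rfl
    rw [h2, mul_div_assoc', le_div_iff₀ hσ'0]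
    calc M.Q w * σ' ≤ M.Q w * ((1 + x) * S) := mul_le_mul_of_nonneg_left hσ'up hQ
      _ ≤ (1 + 4 * x) * ((1 - x) * S * M.Q w) := by
          have h5 : 0 ≤ S * M.Q w := by positivity
          have h7 : x * x ≤ x * (1 / 32) := mul_le_mul_of_nonneg_left hx hx0
          have h6 : (1 + x) ≤ (1 + 4 * x) * (1 - x) := by
            have : (1 + 4 * x) * (1 - x) = 1 + 3 * x - 4 * (x * x) := by ring
            rw [this]
            linarith
          have h8 := mul_le_mul_of_nonneg_right h6 h5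
          calc M.Q w * ((1 + x) * S) = (1 + x) * (S * M.Q w) := by ring
            _ ≤ _ := h8
            _ = _ := by ring
      _ ≤ (1 + 4 * x) * |ar w (M'.act w)| := by
          apply mul_le_mul_of_nonneg_left h1
          positivity

end M2

end Pool.Agent.H99
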