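import Pool.Agent.H99.StepQ
import Pool.Agent.H99.LPDefs

/-!
Transfer matrices for the hierarchical potential and bounded solutions.
-/

set_option autoImplicit false

open Filter Topology

namespace Pool.Agent.H99

variable (cc : ℕ → ℝ) (N : ℕ → ℕ)

/-- transfer matrix over the period `p_k` of the `k`-th periodic approximant -/
noncomputable def TE (E : ℝ) : ℕ → M2
  | 0 => ⟨E, -1, 1, 0⟩
  | (k + 1) => (TE E k).stepM (dl cc N k) (N k)

/-- lower bound for `|sin (N_k θ_k)|` -/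
noncomputable def et (k : ℕ) : ℝ := (1 / 2) ^ (k + 7)

/-- tolerance for the increments -/
noncomputable def tol (k : ℕ) : ℝ := (1 / 2) ^ (2 * k + 14)

/-- good energies at step `j` -/
def cond (E : ℝ) (j : ℕ) : Prop :=
  et j ≤ |sch (TE cc N E j).ht (N j)| * Real.sqrt (1 - (TE cc N E j).ht ^ 2)

/-- good energies up to step `k` -/
def AA (k : ℕ) : Set ℝ := {E | |E| ≤ 1 ∧ ∀ j < k, cond cc N E j}

variable {cc N}

lemma et_pos (k : ℕ) : 0 < et k := by unfold et; positivity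

lemma TE_zero_det (E : ℝ) : (TE cc N E 0).det = 1 := by
  simp [TE, M2.det]

lemma TE_det (hN : ∀ k, 0 < N k) (E : ℝ) (k : ℕ) : (TE cc N E k).det = 1 := by
  induction k with
  | zero => exact TE_zero_det E
  | succ k ih => exact M2.stepM_det _ ih _ _ (hN k)

lemma TE_zero_ht (E : ℝ) : (TE cc N E 0).ht = E / 2 := by
  simp [TE, M2.ht]

lemma TE_zero_sqrt {E : ℝ} (hE : |E| ≤ 1) :
    1 / 2 ≤ Real.sqrt (1 - (TE cc N E 0).ht ^ 2) ∧ Real.sqrt (1 - (TE cc N E 0).ht ^ 2) ≤ 1 := by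
  rw [TE_zero_ht]
  have h1 : E ^ 2 ≤ 1 := by
    rw [← sq_abs]; nlinarith [abs_nonneg E]
  constructor
  · apply Real.le_sqrt_of_sq_le
    nlinarith
  · rw [Real.sqrt_le_one]
    nlinarith [sq_nonneg E]

lemma TE_zero_Q_lower {E : ℝ} (hE : |E| ≤ 1) (w : ℝ × ℝ) :
    (w.1 ^ 2 + w.2 ^ 2) / 2 ≤ (TE cc N E 0).Q w := by
  obtain ⟨h1, h2⟩ := TE_zero_sqrt (cc := cc) (N := N) hE
  unfold M2.Q
  rw [le_div_iff₀ (by linarith)]
  have h3 : M2.ar w ((TE cc N E 0).act w) = w.1 ^ 2 - E * w.1 * w.2 + w.2 ^ 2 := by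
    simp [M2.ar, M2.act, TE]
    ring
  rw [h3]
  have h4 : |E * w.1 * w.2| ≤ (w.1 ^ 2 + w.2 ^ 2) / 2 := by
    rw [abs_mul, abs_mul, mul_assoc]
    have e1 : |w.1| * |w.2| ≤ (w.1 ^ 2 + w.2 ^ 2) / 2 := by
      have e4 := sq_nonneg (|w.1| - |w.2|)
      have e5 := sq_abs w.1
      have e6 := sq_abs w.2
      have e7 : (|w.1| - |w.2|) ^ 2 = |w.1| ^ 2 + |w.2| ^ 2 - 2 * (|w.1| * |w.2|) := by ring
      linarith
    calc |E| * (|w.1| * |w.2|) ≤ 1 * (|w.1| * |w.2|) :=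
          mul_le_mul_of_nonneg_right hE (by positivity)
      _ ≤ _ := by linarith
  have h5 := (abs_le.1 h4).2
  have h6 : (w.1 ^ 2 + w.2 ^ 2) / 2 ≤ |w.1 ^ 2 - E * w.1 * w.2 + w.2 ^ 2| := by
    refine le_trans ?_ (le_abs_self _)
    linarith
  have h7 : 0 ≤ (w.1 ^ 2 + w.2 ^ 2) / 2 := by positivity
  calc (w.1 ^ 2 + w.2 ^ 2) / 2 * Real.sqrt (1 - (TE cc N E 0).ht ^ 2)
      ≤ (w.1 ^ 2 + w.2 ^ 2) / 2 * 1 := mul_le_mul_of_nonneg_left h2 h7
    _ ≤ _ := by rw [mul_one]; exact h6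

lemma TE_zero_Q_upper {E : ℝ} (hE : |E| ≤ 1) (w : ℝ × ℝ) :
    (TE cc N E 0).Q w ≤ 3 * (w.1 ^ 2 + w.2 ^ 2) := by
  obtain ⟨h1, h2⟩ := TE_zero_sqrt (cc := cc) (N := N) hE
  unfold M2.Q
  rw [div_le_iff₀ (by linarith)]
  have h3 : M2.ar w ((TE cc N E 0).act w) = w.1 ^ 2 - E * w.1 * w.2 + w.2 ^ 2 := by
    simp [M2.ar, M2.act, TE]
    ring
  rw [h3]
  have h4 : |E * w.1 * w.2| ≤ (w.1 ^ 2 + w.2 ^ 2) / 2 := by
    rw [abs_mul, abs_mul, mul_assoc]
    have e1 : |w.1| * |w.2| ≤ (w.1 ^ 2 + w.2 ^ 2) / 2 := by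
      have e4 := sq_nonneg (|w.1| - |w.2|)
      have e5 := sq_abs w.1
      have e6 := sq_abs w.2
      have e7 : (|w.1| - |w.2|) ^ 2 = |w.1| ^ 2 + |w.2| ^ 2 - 2 * (|w.1| * |w.2|) := by ring
      linarith
    calc |E| * (|w.1| * |w.2|) ≤ 1 * (|w.1| * |w.2|) :=
          mul_le_mul_of_nonneg_right hE (by positivity)
      _ ≤ _ := by linarith
  have h5 := abs_le.1 h4
  have h6 : |w.1 ^ 2 - E * w.1 * w.2 + w.2 ^ 2| ≤ 3 / 2 * (w.1 ^ 2 + w.2 ^ 2) := by
    rw [abs_le]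
    constructor
    · have : 0 ≤ w.1 ^ 2 + w.2 ^ 2 := by positivity
      linarith [h5.2]
    · linarith [h5.1]
  have h7 : 0 ≤ 3 * (w.1 ^ 2 + w.2 ^ 2) := by positivity
  calc |w.1 ^ 2 - E * w.1 * w.2 + w.2 ^ 2| ≤ 3 / 2 * (w.1 ^ 2 + w.2 ^ 2) := h6
    _ = 3 * (w.1 ^ 2 + w.2 ^ 2) * (1 / 2) := by ring
    _ ≤ _ := mul_le_mul_of_nonneg_left h1 h7

lemma TE_zero_Q10 {E : ℝ} (hE : |E| ≤ 1) : (TE cc N E 0).Q (1, 0) ≤ 2 := by
  obtain ⟨h1, h2⟩ := TE_zero_sqrt (cc := cc) (N := N) hE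
  unfold M2.Q
  rw [div_le_iff₀ (by linarith)]
  simp [M2.ar, M2.act, TE]
  simp [TE] at h1
  linarith

/-- the inductive estimate -/
theorem TE_inv (hN : ∀ k, 0 < N k) (htol : ∀ k, |dl cc N k| ≤ tol k) {E : ℝ} (hE : |E| ≤ 1)
    (k : ℕ) (hc : ∀ j < k, cond cc N E j) :
    |(TE cc N E k).ht| < 1 ∧
      (∀ w, (TE cc N E k).Q w ≤ (2 - (1 / 2) ^ k) * (TE cc N E 0).Q w) := by
  induction k with
  | zero =>
    refine ⟨?_, fun w => ?_⟩
    · rw [TE_zero_ht, abs_div, abs_two]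
      linarith
    · norm_num
  | succ k ih =>
    obtain ⟨h1, h2⟩ := ih (fun j hj => hc j (by omega))
    have hdet := TE_det (cc := cc) hN E k
    have hkap : (TE cc N E k).kap ≤ 4 := by
      rw [M2.kap_eq]
      refine (h2 _).trans ?_
      have e1 := TE_zero_Q10 (cc := cc) (N := N) hE
      have e2 : (0 : ℝ) ≤ (1 / 2) ^ k := by positivity
      have e3 : ((1 : ℝ) / 2) ^ k ≤ 1 := pow_le_one₀ (by norm_num) (by norm_num)
      have e4 := (TE cc N E 0).Q_nonneg (1, 0)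
      calc (2 - (1 / 2) ^ k) * (TE cc N E 0).Q (1, 0) ≤ 2 * 2 := by
            apply mul_le_mul _ e1 e4 (by norm_num)
            linarith
        _ = 4 := by norm_num
    have hkap0 : 0 ≤ (TE cc N E k).kap := by unfold M2.kap; positivity
    set x : ℝ := (1 / 2) ^ (k + 5) with hx
    have hx1 : x ≤ 1 / 32 := by
      have : x = (1 / 2) ^ k * (1 / 32) := by rw [hx, pow_add]; norm_num
      rw [this]
      have e3 : ((1 : ℝ) / 2) ^ k ≤ 1 := pow_le_one₀ (by norm_num) (by norm_num)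
      linarith
    have hδ : |dl cc N k| * (TE cc N E k).kap ≤ x * et k := by
      calc |dl cc N k| * (TE cc N E k).kap ≤ tol k * 4 :=
            mul_le_mul (htol k) hkap hkap0 (by unfold tol; positivity)
        _ = x * et k := by
            rw [hx]
            unfold tol et
            rw [← pow_add]
            have : 2 * k + 14 = (k + 5 + (k + 7)) + 2 := by ring
            rw [this, pow_add _ _ 2]
            ring
    have hstep := M2.step_estimate (TE cc N E k) hdet h1 (dl cc N k) (N k) (hN k) (et k) x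
      (et_pos k) (hc k (by omega)) hx1 hδ
    refine ⟨hstep.1, fun w => ?_⟩
    have e5 := hstep.2.1 w
    have e6 := h2 w
    have e7 := (TE cc N E 0).Q_nonneg w
    have e8 : (0 : ℝ) ≤ (1 / 2) ^ k := by positivity
    change ((TE cc N E k).stepM (dl cc N k) (N k)).Q w ≤ _
    refine e5.trans ?_
    have e9 : 4 * x = (1 / 2) ^ k * (1 / 8) := by rw [hx, pow_add]; norm_num; ring
    have e10 : ((1 : ℝ) / 2) ^ (k + 1) = (1 / 2) ^ k * (1 / 2) := pow_succ _ _
    rw [e9, e10]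
    set y : ℝ := (1 / 2) ^ k with hy
    calc (1 + y * (1 / 8)) * (TE cc N E k).Q w ≤ (1 + y * (1 / 8)) * ((2 - y) * (TE cc N E 0).Q w) := by
          apply mul_le_mul_of_nonneg_left e6
          positivity
      _ = ((1 + y * (1 / 8)) * (2 - y)) * (TE cc N E 0).Q w := by ring
      _ ≤ (2 - y * (1 / 2)) * (TE cc N E 0).Q w := by
          apply mul_le_mul_of_nonneg_right _ e7
          nlinarith

/-- comparison of consecutive forms -/
theorem TE_step (hN : ∀ k, 0 < N k) (htol : ∀ k, |dl cc N k| ≤ tol k) {E : ℝ} (hE : |E| ≤ 1)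
    (k : ℕ) (hc : ∀ j < k + 1, cond cc N E j) (w : ℝ × ℝ) :
    (TE cc N E k).Q w ≤ (1 + (1 / 2) ^ k * (1 / 8)) * (TE cc N E (k + 1)).Q w := by
  obtain ⟨h1, h2⟩ := TE_inv hN htol hE k (fun j hj => hc j (by omega))
  have hdet := TE_det (cc := cc) hN E k
  have hkap : (TE cc N E k).kap ≤ 4 := by
    rw [M2.kap_eq]
    refine (h2 _).trans ?_
    have e1 := TE_zero_Q10 (cc := cc) (N := N) hE
    have e2 : (0 : ℝ) ≤ (1 / 2) ^ k := by positivity
    have e4 := (TE cc N E 0).Q_nonneg (1, 0)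
    calc (2 - (1 / 2) ^ k) * (TE cc N E 0).Q (1, 0) ≤ 2 * 2 := by
          apply mul_le_mul _ e1 e4 (by norm_num)
          linarith
      _ = 4 := by norm_num
  have hkap0 : 0 ≤ (TE cc N E k).kap := by unfold M2.kap; positivity
  set x : ℝ := (1 / 2) ^ (k + 5) with hx
  have hx1 : x ≤ 1 / 32 := by
    have : x = (1 / 2) ^ k * (1 / 32) := by rw [hx, pow_add]; norm_num
    rw [this]
    have e3 : ((1 : ℝ) / 2) ^ k ≤ 1 := pow_le_one₀ (by norm_num) (by norm_num)
    linarith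
  have hδ : |dl cc N k| * (TE cc N E k).kap ≤ x * et k := by
    calc |dl cc N k| * (TE cc N E k).kap ≤ tol k * 4 :=
          mul_le_mul (htol k) hkap hkap0 (by unfold tol; positivity)
      _ = x * et k := by
          rw [hx]
          unfold tol et
          rw [← pow_add]
          have : 2 * k + 14 = (k + 5 + (k + 7)) + 2 := by ring
          rw [this, pow_add _ _ 2]
          ring
  have hstep := M2.step_estimate (TE cc N E k) hdet h1 (dl cc N k) (N k) (hN k) (et k) x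
    (et_pos k) (hc k (by omega)) hx1 hδ
  have e9 : 4 * x = (1 / 2) ^ k * (1 / 8) := by rw [hx, pow_add]; norm_num; ring
  have := hstep.2.2 w
  rw [e9] at this
  exact this

/-- evolution of `(u (n+1), u n)` -/
noncomputable def Ph (cc : ℕ → ℝ) (N : ℕ → ℕ) (E : ℝ) : ℕ → ℝ × ℝ → ℝ × ℝ
  | 0, w => w
  | (n + 1), w => ((E - VV cc N ((n + 1 : ℕ) : ℤ)) * (Ph cc N E n w).1 - (Ph cc N E n w).2,
      (Ph cc N E n w).1)

lemma Ph_succ (E : ℝ) (n : ℕ) (w : ℝ × ℝ) : Ph cc N E (n + 1) w =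
    ((E - VV cc N ((n + 1 : ℕ) : ℤ)) * (Ph cc N E n w).1 - (Ph cc N E n w).2,
      (Ph cc N E n w).1) := rfl

/-- statement that `TE k` is the transfer matrix up to and including a node of level `k` -/
def IsTransfer (cc : ℕ → ℝ) (N : ℕ → ℕ) (E : ℝ) (k : ℕ) : Prop :=
  ∀ w : ℝ × ℝ, ((E - vv cc N k) * (Ph cc N E (pp N k - 1) w).1 - (Ph cc N E (pp N k - 1) w).2,
      (Ph cc N E (pp N k - 1) w).1) = (TE cc N E k).act w

lemma Ph_block (h : Good cc N) (E : ℝ) (k : ℕ) (hT : IsTransfer cc N E k) (m : ℕ) (hm : m < N k)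
    (j : ℕ) (hj : j < pp N k) (w : ℝ × ℝ) :
    Ph cc N E (m * pp N k + j) w = Ph cc N E j (((TE cc N E k).act)^[m] w) := by
  have hp := pp_pos h k
  induction m generalizing j with
  | zero => simp
  | succ m ihm =>
    induction j with
    | zero =>
      have e1 : (m + 1) * pp N k + 0 = (m * pp N k + (pp N k - 1)) + 1 := by
        rw [Nat.succ_mul]; omega
      have e2 : ((m * pp N k + (pp N k - 1)) + 1 : ℕ) = (m + 1) * pp N k := by
        rw [Nat.succ_mul]; omega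
      rw [e1, Ph_succ, e2, VV_level h k (m + 1) (by omega) hm,
        ihm (by omega) (pp N k - 1) (by omega), hT, Function.iterate_succ_apply']
      rfl
    | succ j ihj =>
      have e1 : (m + 1) * pp N k + (j + 1) = ((m + 1) * pp N k + j) + 1 := by ring
      rw [e1, Ph_succ, ihj (by omega)]
      have e2 : (((m + 1) * pp N k + j) + 1 : ℕ) = (m + 1) * pp N k + (j + 1) := by ring
      rw [e2, VV_add_block h k (m + 1) (j + 1) (by omega) hj]
      rfl

lemma isTransfer (h : Good cc N) (E : ℝ) (k : ℕ) : IsTransfer cc N E k := by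
  induction k with
  | zero =>
    intro w
    simp [pp, Ph, TE, M2.act, vv_zero]
    ring
  | succ k ih =>
    intro w
    have hp := pp_pos h k
    have hN := h.hN k
    have e1 : pp N (k + 1) - 1 = (N k - 1) * pp N k + (pp N k - 1) := by
      obtain ⟨n, hn⟩ : ∃ n, N k = n + 1 := ⟨N k - 1, by omega⟩
      rw [pp_succ, hn, Nat.add_sub_cancel, Nat.mul_succ, Nat.mul_comm]
      omega
    have hNpos : ∀ k, 0 < N k := fun k => by have := h.hN k; omega
    rw [e1, Ph_block h E k ih (N k - 1) (by omega) (pp N k - 1) (by omega)]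
    change _ = ((TE cc N E k).stepM (dl cc N k) (N k)).act w
    rw [M2.stepM_act _ (TE_det hNpos E k) _ _ (hNpos k)]
    have e2 : ((TE cc N E k).act)^[N k] w = (TE cc N E k).act (((TE cc N E k).act)^[N k - 1] w) := by
      obtain ⟨n, hn⟩ : ∃ n, N k = n + 1 := ⟨N k - 1, by omega⟩
      rw [hn, Function.iterate_succ_apply', Nat.add_sub_cancel]
    rw [e2, ← ih]
    have e3 : dl cc N k = vv cc N (k + 1) - vv cc N k := rfl
    rw [e3]
    ext
    · simp only
      ring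
    · rfl

lemma Ph_bound (h : Good cc N) (htol : ∀ k, |dl cc N k| ≤ tol k) {E : ℝ} (hE : |E| ≤ 1)
    (k : ℕ) (hc : ∀ j < k, cond cc N E j) (n : ℕ) (hn : n < pp N k) (w : ℝ × ℝ) :
    (TE cc N E 0).Q (Ph cc N E n w) ≤ (2 - (1 / 2) ^ k) * (TE cc N E k).Q w := by
  have hNpos : ∀ k, 0 < N k := fun k => by have := h.hN k; omega
  induction k generalizing n w with
  | zero =>
    have : n = 0 := by simp [pp] at hn; exact hn
    subst this
    simp only [Ph]
    norm_num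
  | succ k ih =>
    have hp := pp_pos h k
    obtain ⟨m, j, hnj, hjlt⟩ : ∃ m j, n = m * pp N k + j ∧ j < pp N k :=
      ⟨n / pp N k, n % pp N k, by rw [Nat.mul_comm]; exact (Nat.div_add_mod n (pp N k)).symm,
        Nat.mod_lt _ hp⟩
    have hmN : m < N k := by
      by_contra hcon
      push Not at hcon
      have h1 : N k * pp N k ≤ m * pp N k := Nat.mul_le_mul_right _ hcon
      rw [pp_succ, Nat.mul_comm] at hn
      omega
    rw [hnj, Ph_block h E k (isTransfer h E k) m hmN j hjlt]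
    have e1 := ih (fun j hj => hc j (by omega)) j hjlt (((TE cc N E k).act)^[m] w)
    rw [M2.Q_iterate _ (TE_det hNpos E k)] at e1
    refine e1.trans ?_
    have e2 := TE_step hNpos htol hE k hc w
    have e3 : (0 : ℝ) ≤ (1 / 2) ^ k := by positivity
    have e4 : ((1 : ℝ) / 2) ^ k ≤ 1 := pow_le_one₀ (by norm_num) (by norm_num)
    have e5 := (TE cc N E (k + 1)).Q_nonneg w
    have e10 : ((1 : ℝ) / 2) ^ (k + 1) = (1 / 2) ^ k * (1 / 2) := pow_succ _ _
    rw [e10]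
    set y : ℝ := (1 / 2) ^ k with hy
    calc (2 - y) * (TE cc N E k).Q w ≤ (2 - y) * ((1 + y * (1 / 8)) * (TE cc N E (k + 1)).Q w) := by
          apply mul_le_mul_of_nonneg_left e2
          linarith
      _ = ((2 - y) * (1 + y * (1 / 8))) * (TE cc N E (k + 1)).Q w := by ring
      _ ≤ (2 - y * (1 / 2)) * (TE cc N E (k + 1)).Q w := by
          apply mul_le_mul_of_nonneg_right _ e5
          nlinarith

/-- bounded even solution -/
theorem exists_bounded_solution (h : Good cc N) (htol : ∀ k, |dl cc N k| ≤ tol k) :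
    ∃ C : ℝ, ∀ E : ℝ, (∀ k, E ∈ AA cc N k) → ∃ u : ℤ → ℝ, u 0 = 1 ∧
      (∀ n, u (n + 1) + u (n - 1) + VV cc N n * u n = E * u n) ∧ ∀ n, |u n| ≤ C := by
  have hNpos : ∀ k, 0 < N k := fun k => by have := h.hN k; omega
  set B := ∑' k, |dl cc N k| with hB
  have hB0 : 0 ≤ B := tsum_nonneg (fun k => abs_nonneg _)
  refine ⟨Real.sqrt (24 * ((1 + B) ^ 2 + 1)), ?_⟩
  intro E hEA
  have hE : |E| ≤ 1 := (hEA 0).1
  have hc : ∀ j, cond cc N E j := fun j => (hEA (j + 1)).2 j (by omega)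
  set x0 := (E - VV cc N 0) / 2 with hx0
  set w0 : ℝ × ℝ := (x0, 1) with hw0
  set uN : ℕ → ℝ := fun n => (Ph cc N E n w0).2 with huN
  have hu0 : uN 0 = 1 := rfl
  have hu1 : uN 1 = x0 := rfl
  have hrec : ∀ n : ℕ, 0 < n → uN (n + 1) + uN (n - 1) + VV cc N (n : ℤ) * uN n = E * uN n := by
    intro n hn
    obtain ⟨m, rfl⟩ : ∃ m, n = m + 1 := ⟨n - 1, by omega⟩
    simp only [huN, Nat.add_sub_cancel]
    rw [Ph_succ, Ph_succ]
    simp only
    ring
  have hx0b : x0 ^ 2 ≤ (1 + B) ^ 2 := by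
    rw [← sq_abs]
    apply pow_le_pow_left₀ (abs_nonneg _)
    rw [hx0, abs_div, abs_two]
    have h1 := VV_bounded h 0
    have h2 : |E - VV cc N 0| ≤ |E| + |VV cc N 0| := abs_sub _ _
    linarith
  have hub : ∀ n : ℕ, |uN n| ≤ Real.sqrt (24 * ((1 + B) ^ 2 + 1)) := by
    intro n
    apply Real.abs_le_sqrt
    have e1 := Ph_bound h htol hE n (fun j _ => hc j) n (lt_pp h n) w0
    have e2 := (TE_inv hNpos htol hE n (fun j _ => hc j)).2 w0
    have e3 := TE_zero_Q_lower (cc := cc) (N := N) hE (Ph cc N E n w0)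
    have e4 := TE_zero_Q_upper (cc := cc) (N := N) hE w0
    have e5 : (0 : ℝ) ≤ (1 / 2) ^ n := by positivity
    have e6 := (TE cc N E n).Q_nonneg w0
    have e7 := (TE cc N E 0).Q_nonneg w0
    have e8 : w0.1 ^ 2 + w0.2 ^ 2 = x0 ^ 2 + 1 := by rw [hw0]; norm_num
    have e9 : (uN n) ^ 2 ≤ (Ph cc N E n w0).1 ^ 2 + (Ph cc N E n w0).2 ^ 2 := by
      have := sq_nonneg (Ph cc N E n w0).1
      rw [huN]
      simp only
      linarith
    have e10 : (2 - (1 / 2) ^ n) * (TE cc N E n).Q w0 ≤ 2 * (TE cc N E n).Q w0 :=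
      mul_le_mul_of_nonneg_right (by linarith) e6
    have e11 : (2 - (1 / 2) ^ n) * (TE cc N E 0).Q w0 ≤ 2 * (TE cc N E 0).Q w0 :=
      mul_le_mul_of_nonneg_right (by linarith) e7
    rw [e8] at e4
    linarith
  refine ⟨fun n => uN n.natAbs, by simp [hu0], ?_, fun n => hub _⟩
  intro n
  have key : ∀ m : ℕ, uN ((m : ℤ) + 1).natAbs + uN ((m : ℤ) - 1).natAbs
      + VV cc N (m : ℤ) * uN ((m : ℤ)).natAbs = E * uN ((m : ℤ)).natAbs := by
    intro m
    rcases Nat.eq_zero_or_pos m with rfl | hm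
    · have e1 : (((0 : ℕ) : ℤ) + 1).natAbs = 1 := rfl
      have e2 : (((0 : ℕ) : ℤ) - 1).natAbs = 1 := rfl
      have e3 : (((0 : ℕ) : ℤ)).natAbs = 0 := rfl
      rw [e1, e2, e3, hu0, hu1, hx0]
      push_cast
      ring
    · have e1 : ((m : ℤ) + 1).natAbs = m + 1 := by omega
      have e2 : ((m : ℤ) - 1).natAbs = m - 1 := by omega
      have e3 : ((m : ℤ)).natAbs = m := by omega
      rw [e1, e2, e3]
      exact hrec m hm
  obtain ⟨m, rfl | rfl⟩ := n.eq_nat_or_neg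
  · exact key m
  · have e1 : (-(m : ℤ) + 1).natAbs = ((m : ℤ) - 1).natAbs := by omega
    have e2 : (-(m : ℤ) - 1).natAbs = ((m : ℤ) + 1).natAbs := by omega
    have e3 : (-(m : ℤ)).natAbs = (m : ℤ).natAbs := by omega
    simp only
    rw [e1, e2, e3, VV_neg]
    linear_combination key m

end Pool.Agent.H99
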